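import Pool.Agent.NilS.Res
import Pool.Agent.AbS.Low

/-!
MP_7fa120_al, nilpotent subgroups. Elementary facts on the numbers `nTwo` and `nOdn`.

`nTwo_mul`: for 2-groups `P ≤ Perm (Fin a)`, `Q ≤ Perm (Fin b)` the product acts on `Fin a ⊕ Fin b ≃ Fin (a + b)`
(`Equiv.Perm.sumCongrHom`); the pair `(P, Q)` is determined by the image of `P × Q`.
`nTwo_mono`, `nOdn_mono`: extend by fixed points (`Fin a → Fin b`, e.g. `Equiv.Perm.viaEmbeddingHom`); an injective
homomorphism preserves the order and nilpotency.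
`nTwo_lower`: `Pool.Agent.AbS.nQ_lower 2` and `AbQ 2 H → Two H`.
`two_support`, `odn_support`: the groups which move only points of `D` correspond to groups of permutations of
`D ≃ Fin D.card`; compare `Pool.Agent.AbS.nQ_support` in `AbS/SplitB.lean`.
`two_res`: `res P U` is the range of a homomorphism (`exists_resHom`); its order divides a power of two.
-/

set_option autoImplicit false

namespace Pool.Agent.NilS

open Equiv

/-- The image under an injective homomorphism is isomorphic. -/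
private theorem card_map {α β : Type} [Group α] [Group β] (f : α →* β) (hf : Function.Injective f)
    (H : Subgroup α) : Nat.card (H.map f) = Nat.card H :=
  (Nat.card_congr (H.equivMapOfInjective f hf).toEquiv).symm

private theorem two_map {α β : Type} (f : Perm α →* Perm β) (hf : Function.Injective f)
    {H : Subgroup (Perm α)} (hH : Two H) : Two (H.map f) := by
  obtain ⟨k, hk⟩ := hH
  exact ⟨k, by rw [card_map f hf, hk]⟩

private theorem odn_map {α β : Type} (f : Perm α →* Perm β) (hf : Function.Injective f)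
    {H : Subgroup (Perm α)} (hH : Odn H) : Odn (H.map f) := by
  refine ⟨(Group.isNilpotent_congr (H.equivMapOfInjective f hf)).1 hH.1, ?_⟩
  rw [card_map f hf]
  exact hH.2

theorem one_le_nTwo (n : ℕ) : 1 ≤ nTwo n := by
  have : Nonempty {H : Subgroup (Perm (Fin n)) // Two H} := ⟨⟨⊥, 0, by rw [Subgroup.card_bot, pow_zero]⟩⟩
  exact Nat.card_pos

theorem nTwo_mul (a b : ℕ) : nTwo a * nTwo b ≤ nTwo (a + b) := by
  let f : Perm (Fin a) × Perm (Fin b) →* Perm (Fin (a + b)) :=
    (finSumFinEquiv (m := a) (n := b)).permCongrHom.toMonoidHom.comp (Perm.sumCongrHom (Fin a) (Fin b))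
  have hf : Function.Injective f :=
    ((finSumFinEquiv (m := a) (n := b)).permCongrHom.injective).comp Perm.sumCongrHom_injective
  have hcard : ∀ (P : Subgroup (Perm (Fin a))) (Q : Subgroup (Perm (Fin b))),
      Nat.card ((P.prod Q).map f) = Nat.card P * Nat.card Q := by
    intro P Q
    rw [card_map f hf, ← Nat.card_prod]
    exact Nat.card_congr (P.prodEquiv Q).toEquiv
  unfold nTwo
  rw [← Nat.card_prod]
  refine Nat.card_le_card_of_injective
    (fun s : {H : Subgroup (Perm (Fin a)) // Two H} × {H : Subgroup (Perm (Fin b)) // Two H} =>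
      (⟨(s.1.1.prod s.2.1).map f, by
        obtain ⟨k, hk⟩ := s.1.2
        obtain ⟨l, hl⟩ := s.2.2
        exact ⟨k + l, by rw [hcard, hk, hl, pow_add]⟩⟩ : {H : Subgroup (Perm (Fin (a + b))) // Two H})) ?_
  rintro ⟨⟨P, hP⟩, ⟨Q, hQ⟩⟩ ⟨⟨P', hP'⟩, ⟨Q', hQ'⟩⟩ h
  have h1 : P.prod Q = P'.prod Q' := Subgroup.map_injective hf (congrArg Subtype.val h)
  have h2 : P = P' := by
    ext x
    have h3 : (x, (1 : Perm (Fin b))) ∈ P.prod Q ↔ (x, (1 : Perm (Fin b))) ∈ P'.prod Q' := by rw [h1]
    simpa [Subgroup.mem_prod, Q.one_mem, Q'.one_mem] using h3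
  have h3 : Q = Q' := by
    ext x
    have h3 : ((1 : Perm (Fin a)), x) ∈ P.prod Q ↔ ((1 : Perm (Fin a)), x) ∈ P'.prod Q' := by rw [h1]
    simpa [Subgroup.mem_prod, P.one_mem, P'.one_mem] using h3
  subst h2 h3
  rfl

theorem nTwo_mono : Monotone nTwo := by
  intro m n hmn
  have hinj := Perm.viaEmbeddingHom_injective (Fin.castLEEmb hmn)
  refine Nat.card_le_card_of_injective
    (fun H : {H : Subgroup (Perm (Fin m)) // Two H} => (⟨H.1.map (Perm.viaEmbeddingHom (Fin.castLEEmb hmn)),
      two_map _ hinj H.2⟩ : {H : Subgroup (Perm (Fin n)) // Two H})) ?_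
  intro H K h
  have h2 := congrArg Subtype.val h
  exact Subtype.ext (Subgroup.map_injective hinj h2)

theorem nOdn_mono : Monotone nOdn := by
  intro m n hmn
  have hinj := Perm.viaEmbeddingHom_injective (Fin.castLEEmb hmn)
  refine Nat.card_le_card_of_injective
    (fun H : {H : Subgroup (Perm (Fin m)) // Odn H} => (⟨H.1.map (Perm.viaEmbeddingHom (Fin.castLEEmb hmn)),
      odn_map _ hinj H.2⟩ : {H : Subgroup (Perm (Fin n)) // Odn H})) ?_
  intro H K h
  have h2 := congrArg Subtype.val h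
  exact Subtype.ext (Subgroup.map_injective hinj h2)

theorem nTwo_lower (n : ℕ) : 2 ^ ((n / 2 / 2) * (n / 2 - n / 2 / 2)) ≤ nTwo n := by
  refine (Pool.Agent.AbS.nQ_lower 2 n Nat.prime_two).trans ?_
  refine Nat.card_le_card_of_injective
    (fun H : {H : Subgroup (Perm (Fin n)) // Pool.Agent.AbS.AbQ 2 H} =>
      (⟨H.1, H.2.2⟩ : {H : Subgroup (Perm (Fin n)) // Two H})) ?_
  intro H K h
  have h1 : H.1 = K.1 := congrArg (fun L : {H : Subgroup (Perm (Fin n)) // Two H} => L.1) h
  exact Subtype.ext h1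

/-- The permutations fixing all points outside `S` are a copy of the symmetric group on `|S|` points. -/
private theorem exists_hom (n : ℕ) (S : Finset (Fin n)) : ∃ φ : Perm (Fin S.card) →* Perm (Fin n),
    Function.Injective φ ∧ ∀ σ : Perm (Fin n), (∀ x, x ∉ S → σ x = x) → ∃ τ, φ τ = σ := by
  classical
  let e : Fin S.card ≃ {x // x ∈ S} := (S.equivFin).symm
  refine ⟨(Perm.ofSubtype (p := fun x => x ∈ S)).comp e.permCongrHom.toMonoidHom, ?_, ?_⟩
  · exact (Perm.ofSubtype_injective (p := fun x => x ∈ S)).comp e.permCongrHom.injective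
  · intro σ hσ
    have h1 : ∀ x, σ x ∈ S ↔ x ∈ S := by
      intro x
      constructor
      · intro hx
        by_contra h
        rw [hσ x h] at hx
        exact h hx
      · intro hx
        by_contra h
        have h2 := hσ (σ x) h
        have h3 : σ x = x := σ.injective h2
        rw [h3] at h
        exact h hx
    obtain ⟨τ, hτ⟩ := e.permCongrHom.surjective (σ.subtypePerm h1)
    refine ⟨τ, ?_⟩
    have h2 : Perm.ofSubtype (σ.subtypePerm h1) = σ :=
      Perm.ofSubtype_subtypePerm h1 (fun x hx => by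
        by_contra h
        exact hx (hσ x h))
    change Perm.ofSubtype (e.permCongrHom τ) = σ
    rw [hτ, h2]

/-- Counting subgroups supported on `S`. -/
private theorem card_support (n : ℕ) (S : Finset (Fin n)) (P : Subgroup (Perm (Fin n)) → Prop)
    (P' : Subgroup (Perm (Fin S.card)) → Prop)
    (hP : ∀ (U : Subgroup (Perm (Fin n))) (V : Subgroup (Perm (Fin S.card))),
      Nonempty (V ≃* U) → P U → P' V) :
    Nat.card {U : Subgroup (Perm (Fin n)) // P U ∧ ∀ u ∈ U, ∀ x, x ∉ S → u x = x} ≤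
      Nat.card {U : Subgroup (Perm (Fin S.card)) // P' U} := by
  classical
  obtain ⟨φ, hφ, hs⟩ := exists_hom n S
  have hmap : ∀ U : Subgroup (Perm (Fin n)), (∀ u ∈ U, ∀ x, x ∉ S → u x = x) → (U.comap φ).map φ = U := by
    intro U hU
    apply le_antisymm
    · exact Subgroup.map_comap_le _ _
    · intro u hu
      obtain ⟨τ, hτ⟩ := hs u (hU u hu)
      exact ⟨τ, by simpa [hτ] using hu, hτ⟩
  refine Nat.card_le_card_of_injective (fun U => ⟨U.1.comap φ, hP U.1 _ ⟨?_⟩ U.2.1⟩) ?_
  · exact ((U.1.comap φ).equivMapOfInjective φ hφ).trans (MulEquiv.subgroupCongr (hmap U.1 U.2.2))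
  · intro U₁ U₂ h
    have h1 : U₁.1.comap φ = U₂.1.comap φ := congrArg Subtype.val h
    apply Subtype.ext
    rw [← hmap U₁.1 U₁.2.2, ← hmap U₂.1 U₂.2.2, h1]

theorem two_support (n : ℕ) (D : Finset (Fin n)) :
    Nat.card {H : Subgroup (Perm (Fin n)) // Two H ∧ ∀ h ∈ H, ∀ x, x ∉ D → h x = x} ≤ nTwo D.card := by
  refine card_support n D (fun U => Two U) (fun U => Two U) ?_
  rintro U V ⟨e⟩ ⟨k, hk⟩
  exact ⟨k, by rw [Nat.card_congr e.toEquiv, hk]⟩

theorem odn_support (n : ℕ) (D : Finset (Fin n)) :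
    Nat.card {H : Subgroup (Perm (Fin n)) // Odn H ∧ ∀ h ∈ H, ∀ x, x ∉ D → h x = x} ≤ nOdn D.card := by
  refine card_support n D (fun U => Odn U) (fun U => Odn U) ?_
  rintro U V ⟨e⟩ ⟨h1, h2⟩
  refine ⟨(Group.isNilpotent_congr e.symm).1 h1, ?_⟩
  rw [Nat.card_congr e.toEquiv]
  exact h2

theorem two_res {Ω : Type} [Finite Ω] {H : Subgroup (Perm Ω)} {U : Finset Ω} (h : Two H) (hU : Inv H U) :
    Two (res H U) := by
  obtain ⟨k, hk⟩ := h
  have h1 : Nat.card (res H U) ∣ 2 ^ k := by
    rw [← hk, card_res H U hU]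
    exact Dvd.intro _ rfl
  obtain ⟨j, -, hj⟩ := (Nat.dvd_prime_pow Nat.prime_two).1 h1
  exact ⟨j, hj⟩

end Pool.Agent.NilS
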