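import Pool.Agent.NilS.Defs

/-!
MP_7fa120_al, nilpotent subgroups. Two lemmas on generation.

`eq_top_of_comm`. `G` finite nilpotent, `K` normal, `L ⊔ K = ⊤`, `K ≤ L ⊔ ⁅K, ⊤⁆`. Suppose `L ≠ ⊤`; take a coatom `M ≥ L`.
A maximal subgroup of a nilpotent group is normal (`Group.normalizerCondition_of_isNilpotent`,
`Subgroup.NormalizerCondition.normal_of_coatom`), and `G ⧸ M` has no proper nontrivial subgroup, so it is cyclic of prime
order, hence abelian, and `⁅K, ⊤⁆ ≤ M` (this can also be seen directly: for `g ∉ M`, `M ⊔ zpowers g = ⊤`, so `G ⧸ M` is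
generated by one element). So `K ≤ M`, and `⊤ = L ⊔ K ≤ M`, a contradiction.

`gen_log`. Among the pairs `(L, d)` with `L ≤ H`, `Gen L d` and `3 ^ d ≤ Nat.card L` take one with `Nat.card L` maximal
(`(⊥, 0)` is one). If `h ∈ H`, `h ∉ L`, then `L' = L ⊔ zpowers h` satisfies `Gen L' (d + 1)`, and `Nat.card L'` is an odd
proper multiple of `Nat.card L`, hence at least `3 * Nat.card L ≥ 3 ^ (d + 1)`: a contradiction. So `L = H`,
`d ≤ Nat.log 3 (Nat.card H)`.
-/

set_option autoImplicit false

namespace Pool.Agent.NilS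

theorem gen_mono {G : Type} [Group G] {H : Subgroup G} {d d' : ℕ} (h : Gen H d) (hd : d ≤ d') : Gen H d' := by
  obtain ⟨S, h1, h2⟩ := h
  exact ⟨S, h1.trans hd, h2⟩

/-- Generation modulo commutators suffices. -/
theorem eq_top_of_comm {G : Type} [Group G] [Finite G] [Group.IsNilpotent G] (L K : Subgroup G) [K.Normal]
    (h1 : L ⊔ K = ⊤) (h2 : K ≤ L ⊔ ⁅K, (⊤ : Subgroup G)⁆) : L = ⊤ := by
  by_contra hL
  obtain ⟨M, hM, hLM⟩ := (eq_top_or_exists_le_coatom L).resolve_left hL
  have hMn : M.Normal :=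
    Subgroup.NormalizerCondition.normal_of_coatom M Group.normalizerCondition_of_isNilpotent hM
  have hcomm : ∀ a b : G, a * b * a⁻¹ * b⁻¹ ∈ M := by
    intro a b
    by_cases hb : b ∈ M
    · exact M.mul_mem (hMn.conj_mem b hb a) (M.inv_mem hb)
    · have htop : M ⊔ Subgroup.zpowers b = ⊤ := by
        refine hM.2 _ (lt_of_le_of_ne le_sup_left fun h => hb ?_)
        rw [h]
        exact Subgroup.mem_sup_right (Subgroup.mem_zpowers b)
      have ha : a ∈ M ⊔ Subgroup.zpowers b := by
        rw [htop]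
        exact Subgroup.mem_top a
      obtain ⟨m, hm, z, hz, rfl⟩ := Subgroup.mem_sup_of_normal_left.mp ha
      obtain ⟨k, rfl⟩ := Subgroup.mem_zpowers_iff.mp hz
      have e : m * b ^ k * b * (m * b ^ k)⁻¹ * b⁻¹ = m * (b * m⁻¹ * b⁻¹) := by
        group
      rw [e]
      exact M.mul_mem hm (hMn.conj_mem _ (M.inv_mem hm) b)
  have hKM : K ≤ M := by
    refine h2.trans (sup_le hLM ?_)
    rw [Subgroup.commutator_le]
    intro a _ b _
    exact hcomm a b
  exact hM.1 (top_le_iff.mp (h1 ▸ sup_le hLM hKM))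

private theorem gen_log_aux {G : Type} [Group G] [Finite G] (H : Subgroup G) (ho : Odd (Nat.card H)) :
    ∀ (n : ℕ) (L : Subgroup G) (d : ℕ), L ≤ H → Gen L d → 3 ^ d ≤ Nat.card L →
      Nat.card H - Nat.card L = n → Gen H (Nat.log 3 (Nat.card H)) := by
  intro n
  induction n using Nat.strong_induction_on with
  | _ n ih =>
    intro L d hLH hg hd hn
    by_cases hHL : H ≤ L
    · have e : L = H := le_antisymm hLH hHL
      subst e
      exact gen_mono hg (Nat.le_log_of_pow_le (by norm_num) hd)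
    · obtain ⟨h, hh, hL⟩ := SetLike.not_le_iff_exists.mp hHL
      have hle : L ≤ L ⊔ Subgroup.zpowers h := le_sup_left
      have hmem : h ∈ L ⊔ Subgroup.zpowers h := Subgroup.mem_sup_right (Subgroup.mem_zpowers h)
      have hLH' : L ⊔ Subgroup.zpowers h ≤ H := sup_le hLH (by rwa [Subgroup.zpowers_le])
      have hpos : 0 < Nat.card L := Nat.card_pos
      obtain ⟨c, hc⟩ := Subgroup.card_dvd_of_le hle
      obtain ⟨c', hc'⟩ := Subgroup.card_dvd_of_le hLH'
      have hcH : Nat.card (L ⊔ Subgroup.zpowers h : Subgroup G) ≤ Nat.card H :=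
        Nat.le_of_dvd Nat.card_pos ⟨c', hc'⟩
      have hcodd : Odd c := by
        rw [hc', hc] at ho
        exact (Nat.odd_mul.mp (Nat.odd_mul.mp ho).1).2
      have hc1 : c ≠ 1 := by
        rintro rfl
        rw [mul_one] at hc
        have := Subgroup.eq_of_le_of_card_ge hle hc.le
        exact hL (this ▸ hmem)
      have hc3 : 3 ≤ c := by
        obtain ⟨k, rfl⟩ := hcodd
        omega
      have h3 : 3 * Nat.card L ≤ Nat.card (L ⊔ Subgroup.zpowers h : Subgroup G) := by
        rw [hc, mul_comm]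
        exact Nat.mul_le_mul_left _ hc3
      refine ih _ ?_ (L ⊔ Subgroup.zpowers h) (d + 1) hLH' ?_ ?_ rfl
      · omega
      · obtain ⟨S, hS1, hS2⟩ := hg
        classical
        refine ⟨insert h S, (Finset.card_insert_le _ _).trans (by omega), ?_⟩
        rw [Finset.coe_insert, Set.insert_eq, Subgroup.closure_union, hS2, sup_comm,
          ← Subgroup.zpowers_eq_closure]
      · rw [pow_succ]
        omega

/-- The number of generators of a group of odd order. -/
theorem gen_log {G : Type} [Group G] [Finite G] (H : Subgroup G) (ho : Odd (Nat.card H)) :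
    Gen H (Nat.log 3 (Nat.card H)) := by
  refine gen_log_aux H ho _ ⊥ 0 bot_le ⟨∅, le_rfl, ?_⟩ ?_ rfl
  · rw [Finset.coe_empty, Subgroup.closure_empty]
  · rw [Subgroup.card_bot, pow_zero]

end Pool.Agent.NilS
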