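import Pool.Agent.NilS.Defs
import Pool.Agent.NilS.GrpA
import Pool.Agent.AbS.GrowB

/-!
MP_7fa120_al, nilpotent subgroups. Graphs of homomorphisms: `S_(m+2)` has many more 2-subgroups than `S_m`.

Proof. (1) For a 2-group `P ≤ Perm (Fin m)` and a homomorphism `χ : P → Perm (Fin 2)` let `Γ(P, χ)` be the group of the permutations
of `Fin m ⊕ Fin 2` acting as `(p, χ p)`, `p ∈ P`. It is isomorphic to `P`, so it is a 2-group, and `(P, χ)` is determined by
`Γ(P, χ)`. So the number of pairs `(P, χ)` is at most `nTwo (m + 2)`.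
(2) If `P` is a finite 2-group, not generated by `D` elements, then there are at least `2 ^ D` homomorphisms `P → C_2`. For a subset
`S` of `P` let `h(S)` be the number of homomorphisms trivial on `S`. Claim: for every `i` there is `S` with at most `i` elements
such that either `closure S = P` or `2 ^ i * h(S) ≤ h(∅)`. `i = 0`: `S = ∅`. Step: if `closure S ≠ P`, let `M` be a maximal proper
subgroup of `P` containing `S`; it has index 2 (a maximal subgroup of a finite 2-group is normal, as `P` is nilpotent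
(`IsPGroup.isNilpotent`, `Subgroup.NormalizerCondition.normal_of_coatom`), with quotient of prime order), so there is a
homomorphism `χ` trivial on `S` and not trivial at some `g ∈ P`; among the homomorphisms trivial on `S` exactly one half is
trivial at `g` (multiply by `χ`), so `h(S ∪ {g}) = h(S) / 2`. For `i = D`: as `P` is not generated by `D` elements,
`2 ^ D ≤ 2 ^ D * h(S) ≤ h(∅)`.
-/

set_option autoImplicit false

namespace Pool.Agent.NilS

open Equiv

private def tr (q : ℕ) : Multiplicative (ZMod q) →* Perm (ZMod q) where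
  toFun z := Equiv.addRight (Multiplicative.toAdd z)
  map_one' := by ext x; simp
  map_mul' a b := by
    apply Equiv.ext
    intro x
    simp only [toAdd_mul, Perm.mul_apply, Equiv.coe_addRight]
    ring

private theorem tr_inj (q : ℕ) : Function.Injective (tr q) := by
  intro a b h
  have := congrArg (fun σ : Perm (ZMod q) => σ 0) h
  simpa [tr] using this

private noncomputable def ee (n q : ℕ) [NeZero q] : Fin n ⊕ ZMod q ≃ Fin (n + q) :=
  (Equiv.sumCongr (Equiv.refl _) (ZMod.finEquiv q).symm.toEquiv).trans finSumFinEquiv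

private noncomputable def J (n q : ℕ) [NeZero q] :
    Perm (Fin n) × Multiplicative (ZMod q) →* Perm (Fin (n + q)) :=
  ((ee n q).permCongrHom.toMonoidHom).comp
    ((Equiv.Perm.sumCongrHom (Fin n) (ZMod q)).comp (MonoidHom.prodMap (MonoidHom.id _) (tr q)))

private theorem J_inj (n q : ℕ) [NeZero q] : Function.Injective (J n q) := by
  unfold J
  rw [MonoidHom.coe_comp, MonoidHom.coe_comp]
  refine (ee n q).permCongrHom.injective.comp ((Equiv.Perm.sumCongrHom_injective).comp ?_)
  exact Function.Injective.prodMap Function.injective_id (tr_inj q)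

/-- The graph of a homomorphism. -/
private def gr {n q : ℕ} (H : Subgroup (Perm (Fin n))) (φ : H →* Multiplicative (ZMod q)) :
    Subgroup (Perm (Fin n) × Multiplicative (ZMod q)) :=
  (MonoidHom.prod H.subtype φ).range

private theorem gr_mem {n q : ℕ} {H : Subgroup (Perm (Fin n))} {φ : H →* Multiplicative (ZMod q)}
    {x : Perm (Fin n) × Multiplicative (ZMod q)} :
    x ∈ gr H φ ↔ ∃ h : x.1 ∈ H, φ ⟨x.1, h⟩ = x.2 := by
  unfold gr
  rw [MonoidHom.mem_range]
  constructor
  · rintro ⟨y, rfl⟩
    exact ⟨y.2, rfl⟩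
  · rintro ⟨h, h2⟩
    refine ⟨⟨x.1, h⟩, ?_⟩
    exact Prod.ext rfl h2

private theorem gr_card {n q : ℕ} (H : Subgroup (Perm (Fin n))) (φ : H →* Multiplicative (ZMod q)) :
    Nat.card (gr H φ) = Nat.card H := by
  unfold gr
  symm
  refine Nat.card_congr (MonoidHom.ofInjective (f := MonoidHom.prod H.subtype φ) ?_).toEquiv
  intro a b h
  have := congrArg Prod.fst h
  exact Subtype.ext this

private theorem gr_two {n q : ℕ} {H : Subgroup (Perm (Fin n))} (hH : Two H)
    (φ : H →* Multiplicative (ZMod q)) [NeZero q] : Two ((gr H φ).map (J n q)) := by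
  obtain ⟨k, hk⟩ := hH
  refine ⟨k, ?_⟩
  rw [Subgroup.card_map_of_injective (J_inj n q), gr_card, hk]

private theorem gr_inj {n q : ℕ} {H H' : Subgroup (Perm (Fin n))} {φ : H →* Multiplicative (ZMod q)}
    {φ' : H' →* Multiplicative (ZMod q)} (h : gr H φ = gr H' φ') :
    H = H' ∧ ∀ (x : Perm (Fin n)) (hx : x ∈ H) (hx' : x ∈ H'), φ ⟨x, hx⟩ = φ' ⟨x, hx'⟩ := by
  have h1 : ∀ x, (hx : x ∈ H) → ∃ hx' : x ∈ H', φ' ⟨x, hx'⟩ = φ ⟨x, hx⟩ := by
    intro x hx
    have : ((x, φ ⟨x, hx⟩) : Perm (Fin n) × Multiplicative (ZMod q)) ∈ gr H φ := gr_mem.2 ⟨hx, rfl⟩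
    rw [h] at this
    exact gr_mem.1 this
  have h2 : ∀ x, (hx : x ∈ H') → x ∈ H := by
    intro x hx
    have : ((x, φ' ⟨x, hx⟩) : Perm (Fin n) × Multiplicative (ZMod q)) ∈ gr H' φ' := gr_mem.2 ⟨hx, rfl⟩
    rw [← h] at this
    exact (gr_mem.1 this).1
  refine ⟨le_antisymm (fun x hx => (h1 x hx).1) h2, fun x hx hx' => ?_⟩
  exact (h1 x hx).2.symm

/-- A 2-group which is not generated by `D` elements has many homomorphisms to the group of order two. -/
private theorem many_hom {m D : ℕ} {P : Subgroup (Perm (Fin m))} (hP : Two P) (hD : ¬ Gen P D) :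
    2 ^ D ≤ Nat.card (P →* Multiplicative (ZMod 2)) := by
  classical
  obtain ⟨k, hk⟩ := hP
  have hf2 : Fact (Nat.Prime 2) := ⟨Nat.prime_two⟩
  have hpg : IsPGroup 2 P := IsPGroup.of_card hk
  have hnil : Group.IsNilpotent P := hpg.isNilpotent
  have hA : ∃ j : ℕ, Nat.card (Abelianization P) = 2 ^ j := by
    have h1 : Nat.card (Abelianization P) ∣ Nat.card P := Subgroup.card_quotient_dvd_card (commutator P)
    rw [hk] at h1
    obtain ⟨j, -, hj⟩ := (Nat.dvd_prime_pow Nat.prime_two).1 h1
    exact ⟨j, hj⟩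
  rcases Pool.Agent.AbS.few_or_many 2 D (Abelianization P) hA with ⟨f, hf⟩ | h
  · exfalso
    apply hD
    have hsurj : Function.Surjective (Abelianization.of : P →* Abelianization P) := QuotientGroup.mk_surjective
    choose g hg using fun i => hsurj (f i)
    set L := Subgroup.closure (Set.range g) with hL
    have hmap : L.map (Abelianization.of : P →* Abelianization P) = ⊤ := by
      rw [hL, MonoidHom.map_closure, ← hf, ← Set.range_comp]
      congr 2
      funext i
      exact hg i
    have hker : (Abelianization.of : P →* Abelianization P).ker = ⁅(⊤ : Subgroup P), ⊤⁆ :=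
      Abelianization.ker_of P
    have hsup : L ⊔ ⁅(⊤ : Subgroup P), ⊤⁆ = ⊤ := by
      have h1 := Subgroup.comap_map_eq (Abelianization.of : P →* Abelianization P) L
      rw [hmap, hker, Subgroup.comap_top] at h1
      exact h1.symm
    have hLtop : L = ⊤ := eq_top_of_comm L ⊤ (by simp) hsup.ge
    refine ⟨Finset.univ.image fun i => (g i : Perm (Fin m)), ?_, ?_⟩
    · exact Finset.card_image_le.trans (by simp)
    · have h2 : (((Finset.univ.image fun i => (g i : Perm (Fin m))) : Finset (Perm (Fin m))) : Set (Perm (Fin m))) =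
          P.subtype '' (Set.range g) := by
        ext x
        simp
      rw [h2, ← MonoidHom.map_closure, ← hL, hLtop, ← MonoidHom.range_eq_map, Subgroup.range_subtype]
  · rwa [← Nat.card_congr (Abelianization.lift (G := P) (A := Multiplicative (ZMod 2)))] at h

theorem grow_count (m D : ℕ) :
    2 ^ D * Nat.card {P : Subgroup (Perm (Fin m)) // Two P ∧ ¬ Gen P D} ≤ nTwo (m + 2) := by
  classical
  set A := {P : Subgroup (Perm (Fin m)) // Two P ∧ ¬ Gen P D} with hA
  have : Finite A := inferInstance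
  have : Fintype A := Fintype.ofFinite A
  have hfin : ∀ H : A, Finite (H.1 →* Multiplicative (ZMod 2)) := fun H => DFunLike.finite _
  have h1 : 2 ^ D * Nat.card A ≤ Nat.card (Σ H : A, (H.1 →* Multiplicative (ZMod 2))) := by
    rw [Nat.card_sigma]
    calc 2 ^ D * Nat.card A = ∑ _H : A, 2 ^ D := by
          rw [Finset.sum_const, Finset.card_univ, Nat.card_eq_fintype_card, smul_eq_mul, mul_comm]
      _ ≤ _ := Finset.sum_le_sum (fun H _ => many_hom H.2.1 H.2.2)
  refine h1.trans ?_
  unfold nTwo
  refine Nat.card_le_card_of_injective (fun T : (Σ H : A, (H.1 →* Multiplicative (ZMod 2))) =>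
    (⟨(gr T.1.1 T.2).map (J m 2), gr_two T.1.2.1 T.2⟩ :
      {H : Subgroup (Perm (Fin (m + 2))) // Two H})) ?_
  rintro ⟨⟨H, hH⟩, φ⟩ ⟨⟨H', hH'⟩, φ'⟩ h
  have h2 : (gr H φ).map (J m 2) = (gr H' φ').map (J m 2) := congrArg Subtype.val h
  have h3 := Subgroup.map_injective (J_inj m 2) h2
  obtain ⟨h4, h5⟩ := gr_inj h3
  subst h4
  have : φ = φ' := by
    ext ⟨x, hx⟩
    exact congrArg _ (h5 x hx hx)
  subst this
  rfl

end Pool.Agent.NilS
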