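import Pool.Agent.NilS.Defs
import Pool.Agent.AbS.HatC

/-!
MP_7fa120_al, nilpotent subgroups. A trivial bound for the number of all subgroups of `S_s`, and for families generated by
few elements.

`nSub_le`: a subgroup of `Perm (Fin s)` has order at most `s ! < 2 ^ (s ^ 2)` (for `s ≥ 1`), so it is generated by `s ^ 2` elements
(`Pool.Agent.AbS.exists_fin_closure` applied to the subgroup, or a chain argument), which can be chosen in at most
`(s !) ^ (s ^ 2) ≤ 2 ^ (s ^ 4)` ways. `s = 0`: one subgroup.
`gen_count`: a group with `Gen P D` is the closure of the range of a map `Fin D → Perm (Fin m)` (pad with `1`).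
-/

set_option autoImplicit false

namespace Pool.Agent.NilS

open Equiv

private theorem gen_count' (m D : ℕ) : Nat.card {P : Subgroup (Perm (Fin m)) // Gen P D} ≤ m.factorial ^ D := by
  classical
  have hf : ∀ P : {P : Subgroup (Perm (Fin m)) // Gen P D}, ∃ f : Fin D → Perm (Fin m),
      Subgroup.closure (Set.range f) = P.1 := by
    rintro ⟨P, S, hS, hcl⟩
    refine ⟨fun i => if h : i.1 < S.card then (S.equivFin.symm ⟨i.1, h⟩ : Perm (Fin m)) else 1, ?_⟩
    apply le_antisymm
    · rw [Subgroup.closure_le]
      rintro _ ⟨i, rfl⟩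
      dsimp only
      split_ifs with h
      · rw [← hcl]
        exact Subgroup.subset_closure (S.equivFin.symm ⟨i.1, h⟩).2
      · exact P.one_mem
    · change P ≤ _
      rw [← hcl, Subgroup.closure_le]
      intro x hx
      apply Subgroup.subset_closure
      have hx' : x ∈ S := hx
      refine ⟨⟨(S.equivFin ⟨x, hx'⟩).1, (S.equivFin ⟨x, hx'⟩).2.trans_le hS⟩, ?_⟩
      dsimp only
      rw [dif_pos (S.equivFin ⟨x, hx'⟩).2]
      simp
  choose f hf using hf
  have hinj : Function.Injective f := by
    intro P Q h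
    apply Subtype.ext
    rw [← hf P, ← hf Q, h]
  have h1 := Nat.card_le_card_of_injective f hinj
  refine h1.trans (le_of_eq ?_)
  rw [Nat.card_fun, Nat.card_fin, Nat.card_eq_fintype_card (α := Perm (Fin m)), Fintype.card_perm, Fintype.card_fin]

theorem nSub_le (s : ℕ) : nSub s ≤ 2 ^ (s ^ 4) := by
  classical
  rcases Nat.eq_zero_or_pos s with rfl | hs
  · have : Subsingleton (Subgroup (Perm (Fin 0))) := by
      refine ⟨fun a b => ?_⟩
      ext x
      have hx : x = 1 := Subsingleton.elim _ _
      rw [hx]
      exact ⟨fun _ => b.one_mem, fun _ => a.one_mem⟩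
    exact (Finite.card_le_one_iff_subsingleton.2 this).trans (Nat.one_le_two_pow)
  · have hfac : s.factorial < 2 ^ (s ^ 2) := by
      calc s.factorial ≤ s ^ s := Nat.factorial_le_pow s
        _ < (2 ^ s) ^ s := Nat.pow_lt_pow_left Nat.lt_two_pow_self hs.ne'
        _ = 2 ^ (s ^ 2) := by rw [← pow_mul, pow_two]
    have hgen : ∀ H : Subgroup (Perm (Fin s)), Gen H (s ^ 2) := by
      intro H
      have hc : Nat.card H < 2 ^ (s ^ 2) := by
        have h1 := Subgroup.card_le_card_group H
        rw [Nat.card_eq_fintype_card (α := Perm (Fin s)), Fintype.card_perm, Fintype.card_fin] at h1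
        omega
      obtain ⟨f, hf⟩ := Pool.Agent.AbS.exists_fin_closure H (s ^ 2) hc
      refine ⟨Finset.univ.image fun i => (f i : Perm (Fin s)), ?_, ?_⟩
      · exact Finset.card_image_le.trans (by simp)
      · have h2 : (((Finset.univ.image fun i => (f i : Perm (Fin s))) : Finset (Perm (Fin s))) : Set (Perm (Fin s))) =
            H.subtype '' (Set.range f) := by
          ext x
          simp
        rw [h2, ← MonoidHom.map_closure, hf, ← MonoidHom.range_eq_map, Subgroup.range_subtype]
    have h3 : nSub s ≤ Nat.card {P : Subgroup (Perm (Fin s)) // Gen P (s ^ 2)} :=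
      Nat.card_le_card_of_injective (fun H => (⟨H, hgen H⟩ : {P : Subgroup (Perm (Fin s)) // Gen P (s ^ 2)}))
        fun a b h => congrArg Subtype.val h
    calc nSub s ≤ s.factorial ^ (s ^ 2) := h3.trans (gen_count' s (s ^ 2))
      _ ≤ (2 ^ (s ^ 2)) ^ (s ^ 2) := Nat.pow_le_pow_left hfac.le _
      _ = 2 ^ (s ^ 4) := by rw [← pow_mul, ← pow_add]

theorem gen_count (m D : ℕ) : Nat.card {P : Subgroup (Perm (Fin m)) // Gen P D} ≤ m.factorial ^ D :=
  gen_count' m D

end Pool.Agent.NilS
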