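import Mathlib

/-!
MP_7fa120_al, nilpotent subgroups. Real analysis: the terms with large `s`.

Proof. Let `2 ≤ s ≤ n`, `n < s ^ 8`, `n` large (so `s ≥ m₁` is large too). `N n ≥ N (n - s) * N s` and
`N s ≥ 2 ^ ((s / 2 / 2) * (s / 2 - s / 2 / 2)) ≥ exp (log 2 * (s ^ 2 / 16 - s))` (natural division: the exponent is at least
`s ^ 2 / 16 - s`). So the term divided by `N n` is at most
`n ^ (5 s) * exp (log 2 * s ^ 2 / 17 - log 2 * (s ^ 2 / 16 - s)) = exp (5 s log n + log 2 * s - log 2 * s ^ 2 / 272)`, and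
`log n ≤ 8 log s`, so it is at most `exp (40 s log s + s - log 2 * s ^ 2 / 272) ≤ exp (- s ^ 2 / 1000)` for large `s`. With
`s ^ 2 > n ^ (1 / 4)` and at most `n` terms the sum is at most `n * exp (- n ^ (1 / 4) / 1000) → 0`.
-/

set_option autoImplicit false

namespace Pool.Agent.NilS

open Filter

private theorem low_aux (s : ℕ) : s ^ 2 ≤ 16 * ((s / 2 / 2) * (s / 2 - s / 2 / 2)) + 16 * s := by
  obtain ⟨k, r, hr, hs⟩ : ∃ k r, r < 4 ∧ s = 4 * k + r :=
    ⟨s / 4, s % 4, Nat.mod_lt _ (by norm_num), (Nat.div_add_mod s 4).symm⟩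
  subst hs
  have h1 : (4 * k + r) / 2 / 2 = k := by omega
  have h2 : k ≤ (4 * k + r) / 2 - k := by omega
  rw [h1]
  have h3 : k * k ≤ k * ((4 * k + r) / 2 - k) := Nat.mul_le_mul_left k h2
  have h4 : (4 * k + r) ^ 2 ≤ 16 * (k * k) + 16 * (4 * k + r) := by
    interval_cases r <;> nlinarith
  omega

private theorem low_real (N : ℕ → ℕ) (hlow : ∀ n, 2 ^ ((n / 2 / 2) * (n / 2 - n / 2 / 2)) ≤ N n) (s : ℕ) :
    Real.exp (Real.log 2 * ((s : ℝ) ^ 2 / 16 - s)) ≤ N s := by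
  have h1 : ((2 : ℝ) ^ ((s / 2 / 2) * (s / 2 - s / 2 / 2)) : ℝ) ≤ N s := by exact_mod_cast hlow s
  refine le_trans ?_ h1
  have h2 : ((2 : ℝ) ^ ((s / 2 / 2) * (s / 2 - s / 2 / 2)) : ℝ) =
      Real.exp (Real.log 2 * (((s / 2 / 2) * (s / 2 - s / 2 / 2) : ℕ) : ℝ)) := by
    rw [mul_comm (Real.log 2), ← Real.log_pow, Real.exp_log (by positivity)]
  rw [h2, Real.exp_le_exp]
  refine mul_le_mul_of_nonneg_left ?_ (Real.log_nonneg (by norm_num))
  have h3 : ((s : ℝ) ^ 2) ≤ 16 * (((s / 2 / 2) * (s / 2 - s / 2 / 2) : ℕ) : ℝ) + 16 * s := by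
    exact_mod_cast low_aux s
  linarith

private theorem term_le (N O : ℕ → ℕ) (hmul : ∀ a b, N a * N b ≤ N (a + b))
    (hlow : ∀ n, 2 ^ ((n / 2 / 2) * (n / 2 - n / 2 / 2)) ≤ N n) {n s : ℕ} (hs : s ≤ n) (hn : n < s ^ 8)
    (hs1 : 1 ≤ s) (hO : (O s : ℝ) ≤ Real.exp (Real.log 2 / 17 * (s : ℝ) ^ 2))
    (hs2 : 56 * Real.log s + 1 ≤ 0.0025 * (s : ℝ)) :
    ((n ^ (5 * s) * N (n - s) * O s : ℕ) : ℝ) ≤ (N n : ℝ) * Real.exp (-(2 * Real.log n)) := by
  have hsr : (1 : ℝ) ≤ s := by exact_mod_cast hs1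
  have hnr : (1 : ℝ) ≤ n := by exact_mod_cast hs1.trans hs
  have hlogs : 0 ≤ Real.log s := Real.log_nonneg hsr
  have hlogn : Real.log n ≤ 8 * Real.log s := by
    have h1 : (n : ℝ) ≤ (s : ℝ) ^ 8 := by exact_mod_cast hn.le
    have h2 := Real.log_le_log (by linarith) h1
    rw [Real.log_pow] at h2
    exact_mod_cast h2
  have hmul' : (N (n - s) : ℝ) * N s ≤ N n := by
    have := hmul (n - s) s
    rw [Nat.sub_add_cancel hs] at this
    exact_mod_cast this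
  have hpow : ((n : ℝ) ^ (5 * s)) = Real.exp (5 * s * Real.log n) := by
    have h1 : (5 * s * Real.log n : ℝ) = ((5 * s : ℕ) : ℝ) * Real.log n := by push_cast; ring
    rw [h1, ← Real.log_pow, Real.exp_log (by positivity)]
  have hkey : 5 * s * Real.log n + Real.log 2 / 17 * (s : ℝ) ^ 2 ≤
      Real.log 2 * ((s : ℝ) ^ 2 / 16 - s) + -(2 * Real.log n) := by
    have hl1 : (0.6931 : ℝ) < Real.log 2 := lt_trans (by norm_num) Real.log_two_gt_d9
    have hl2 : Real.log 2 < 1 := lt_trans Real.log_two_lt_d9 (by norm_num)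
    have h1 : (5 * s + 2) * Real.log n ≤ (5 * s + 2) * (8 * Real.log s) :=
      mul_le_mul_of_nonneg_left hlogn (by positivity)
    have h2 : (5 * s + 2) * (8 * Real.log s) ≤ s * (56 * Real.log s) := by nlinarith
    have h3 : (s : ℝ) * (56 * Real.log s + 1) ≤ s * (0.0025 * (s : ℝ)) :=
      mul_le_mul_of_nonneg_left hs2 (by positivity)
    have h4 : Real.log 2 * s ≤ s := by nlinarith
    have h5 : 0.0025 * (s : ℝ) ^ 2 ≤ Real.log 2 * (s : ℝ) ^ 2 / 272 := by nlinarith [sq_nonneg (s : ℝ)]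
    nlinarith
  push_cast
  calc (n : ℝ) ^ (5 * s) * N (n - s) * O s
      ≤ (n : ℝ) ^ (5 * s) * N (n - s) * Real.exp (Real.log 2 / 17 * (s : ℝ) ^ 2) :=
        mul_le_mul_of_nonneg_left hO (by positivity)
    _ = N (n - s) * Real.exp (5 * s * Real.log n + Real.log 2 / 17 * (s : ℝ) ^ 2) := by
        rw [hpow, Real.exp_add]; ring
    _ ≤ N (n - s) * Real.exp (Real.log 2 * ((s : ℝ) ^ 2 / 16 - s) + -(2 * Real.log n)) :=
        mul_le_mul_of_nonneg_left (Real.exp_le_exp.2 hkey) (by positivity)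
    _ = N (n - s) * Real.exp (Real.log 2 * ((s : ℝ) ^ 2 / 16 - s)) * Real.exp (-(2 * Real.log n)) := by
        rw [Real.exp_add]; ring
    _ ≤ N (n - s) * N s * Real.exp (-(2 * Real.log n)) :=
        mul_le_mul_of_nonneg_right (mul_le_mul_of_nonneg_left (low_real N hlow s) (by positivity)) (by positivity)
    _ ≤ N n * Real.exp (-(2 * Real.log n)) := mul_le_mul_of_nonneg_right hmul' (by positivity)

private theorem log_small : ∃ m₂ : ℕ, ∀ s : ℕ, m₂ ≤ s → 56 * Real.log s + 1 ≤ 0.0025 * (s : ℝ) := by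
  have h1 := Real.isLittleO_log_id_atTop.bound (show (0 : ℝ) < 0.00004 by norm_num)
  rw [Filter.eventually_atTop] at h1
  obtain ⟨a, ha⟩ := h1
  obtain ⟨m, hm⟩ := exists_nat_ge (max a 10000)
  refine ⟨m, fun s hs => ?_⟩
  have hsm : (m : ℝ) ≤ s := by exact_mod_cast hs
  have h2 : a ≤ s := (le_max_left _ _).trans (hm.trans hsm)
  have h3 : (10000 : ℝ) ≤ s := (le_max_right _ _).trans (hm.trans hsm)
  have h4 := ha s h2
  simp only [Real.norm_eq_abs, id] at h4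
  rw [abs_of_nonneg (Real.log_nonneg (by linarith)), abs_of_nonneg (by linarith)] at h4
  linarith

theorem anaL (N O : ℕ → ℕ) (hN : ∀ n, 1 ≤ N n) (hmul : ∀ a b, N a * N b ≤ N (a + b))
    (hlow : ∀ n, 2 ^ ((n / 2 / 2) * (n / 2 - n / 2 / 2)) ≤ N n)
    (hO : ∃ m₁ : ℕ, ∀ m : ℕ, m₁ ≤ m → (O m : ℝ) ≤ Real.exp (Real.log 2 / 17 * (m : ℝ) ^ 2)) :
    Tendsto (fun n : ℕ => (∑ s ∈ (Finset.Icc 2 n).filter (fun s => ¬ s ^ 8 ≤ n),
      ((n ^ (5 * s) * N (n - s) * O s : ℕ) : ℝ)) / (N n : ℝ)) atTop (nhds 0) := by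
  obtain ⟨m₁, h₁⟩ := hO
  obtain ⟨m₂, h₂⟩ := log_small
  have hNpos : ∀ n, (0 : ℝ) < N n := fun n => by exact_mod_cast hN n
  refine squeeze_zero' (g := fun n : ℕ => 1 / (n : ℝ)) ?_ ?_ tendsto_one_div_atTop_nhds_zero_nat
  · exact Filter.Eventually.of_forall fun n =>
      div_nonneg (Finset.sum_nonneg fun s _ => Nat.cast_nonneg _) (hNpos n).le
  · filter_upwards [eventually_ge_atTop ((max m₁ m₂) ^ 8 + 1)] with n hn
    have hn1 : (1 : ℝ) ≤ n := by exact_mod_cast (by omega : 1 ≤ n)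
    rw [div_le_iff₀ (hNpos n)]
    have hterm : ∀ s ∈ (Finset.Icc 2 n).filter (fun s => ¬ s ^ 8 ≤ n),
        ((n ^ (5 * s) * N (n - s) * O s : ℕ) : ℝ) ≤ (N n : ℝ) * Real.exp (-(2 * Real.log n)) := by
      intro s hs
      rw [Finset.mem_filter, Finset.mem_Icc] at hs
      obtain ⟨⟨hs2, hsn⟩, hs8⟩ := hs
      push Not at hs8
      have hlt : max m₁ m₂ < s := by
        by_contra hc
        push Not at hc
        have := Nat.pow_le_pow_left hc 8
        omega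
      exact term_le N O hmul hlow hsn hs8 (by omega) (h₁ s ((le_max_left _ _).trans hlt.le))
        (h₂ s ((le_max_right _ _).trans hlt.le))
    refine (Finset.sum_le_sum hterm).trans ?_
    rw [Finset.sum_const, nsmul_eq_mul]
    have hcard : (((Finset.Icc 2 n).filter (fun s => ¬ s ^ 8 ≤ n)).card : ℝ) ≤ n := by
      have h3 : ((Finset.Icc 2 n).filter (fun s => ¬ s ^ 8 ≤ n)).card ≤ n := by
        refine (Finset.card_filter_le _ _).trans ?_
        rw [Nat.card_Icc]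
        omega
      exact_mod_cast h3
    have hexp : Real.exp (-(2 * Real.log n)) = 1 / (n : ℝ) ^ 2 := by
      rw [Real.exp_neg, mul_comm, Real.exp_mul, Real.exp_log (by linarith)]
      norm_num
    rw [hexp]
    calc (((Finset.Icc 2 n).filter (fun s => ¬ s ^ 8 ≤ n)).card : ℝ) * ((N n : ℝ) * (1 / (n : ℝ) ^ 2))
        ≤ n * ((N n : ℝ) * (1 / (n : ℝ) ^ 2)) := mul_le_mul_of_nonneg_right hcard (by positivity)
      _ = 1 / (n : ℝ) * N n := by
        field_simp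

end Pool.Agent.NilS
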