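import Mathlib

/-!
MP_7fa120_al, nilpotent subgroups. Real analysis: the terms with small `s`.

Proof. Let `2 ≤ s`, `s ^ 8 ≤ n`, `n` large. `⌊s / 2⌋ ≥ s / 3` steps of the growth inequality from `n - s` give, with
`Nat.sqrt m ≥ Nat.sqrt (n - s) ≥ √n / 2` for all `m ≥ n - s` (`s ≤ n ^ (1 / 8)`),
`N n ≥ N (n - s) * 2 ^ ((√n / 2 - 1) * s / 3) ≥ N (n - s) * 2 ^ (s √n / 8)` for large `n` (if `s` is odd use monotonicity for the last
step). So the term is at most `n ^ (5 s) * 2 ^ (s ^ 4) * 2 ^ (- s √n / 8) = 2 ^ (s (5 log_2 n + s ^ 3 - √n / 8)) ≤ 2 ^ (- s √n / 16)` for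
large `n`, because `s ^ 3 ≤ n ^ (3 / 8)`. There are at most `n` terms, each at most `2 ^ (- √n / 8)`; the sum is at most
`n * 2 ^ (- √n / 8) → 0`.
-/

set_option autoImplicit false

namespace Pool.Agent.NilS

open Filter

private theorem log_bound : ∀ a : ℕ, 30 ≤ a → 4 * (867 * (a + 1) ^ 2) ≤ 2 ^ a := by
  intro a ha
  induction a, ha using Nat.le_induction with
  | base => norm_num
  | succ a ha ih =>
    have h : (a + 1 + 1) ^ 2 ≤ 2 * (a + 1) ^ 2 := by nlinarith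
    calc 4 * (867 * (a + 1 + 1) ^ 2) ≤ 2 * (4 * (867 * (a + 1) ^ 2)) := by nlinarith
      _ ≤ 2 * 2 ^ a := Nat.mul_le_mul_left 2 ih
      _ = 2 ^ (a + 1) := by rw [pow_succ, mul_comm]

private theorem six_bound {n s : ℕ} (hn : 2 ^ 30 ≤ n) (h8 : s ^ 8 ≤ n) : 108 * s ^ 6 ≤ n := by
  rcases le_or_gt s 10 with h | h
  · calc 108 * s ^ 6 ≤ 108 * 10 ^ 6 := Nat.mul_le_mul_left _ (Nat.pow_le_pow_left h 6)
      _ ≤ 2 ^ 30 := by norm_num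
      _ ≤ n := hn
  · calc 108 * s ^ 6 ≤ s ^ 2 * s ^ 6 := Nat.mul_le_mul_right _ (by nlinarith)
      _ = s ^ 8 := by ring
      _ ≤ n := h8

private theorem one_bound {n s : ℕ} (hs : 2 ≤ s) (h8 : s ^ 8 ≤ n) : 128 * s ≤ n := by
  calc 128 * s ≤ s ^ 7 * s := by
        refine Nat.mul_le_mul_right s ?_
        calc 128 = 2 ^ 7 := by norm_num
          _ ≤ s ^ 7 := Nat.pow_le_pow_left hs 7
    _ = s ^ 8 := by ring
    _ ≤ n := h8

private theorem sqrt_bound {n s : ℕ} (hn : 2 ^ 30 ≤ n) (hs : 2 ≤ s) (h8 : s ^ 8 ≤ n) :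
    17 * (Nat.log 2 n + 1) + 3 * s ^ 3 + 1 ≤ Nat.sqrt (n - s) := by
  rw [Nat.le_sqrt']
  have ha : 30 ≤ Nat.log 2 n := by
    rw [← Nat.log_pow (b := 2) (by norm_num) 30]
    exact Nat.log_mono_right hn
  have h1 : 4 * (867 * (Nat.log 2 n + 1) ^ 2) ≤ n :=
    (log_bound _ ha).trans (Nat.pow_log_le_self 2 (by omega))
  have h2 := six_bound hn h8
  have h3 := one_bound hs h8
  have h4 : (17 * (Nat.log 2 n + 1) + 3 * s ^ 3 + 1) ^ 2 ≤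
      3 * (17 * (Nat.log 2 n + 1)) ^ 2 + 3 * (3 * s ^ 3) ^ 2 + 3 * 1 ^ 2 := by
    generalize 17 * (Nat.log 2 n + 1) = x
    generalize 3 * s ^ 3 = y
    zify
    nlinarith [sq_nonneg ((x : ℤ) - y), sq_nonneg ((x : ℤ) - 1), sq_nonneg ((y : ℤ) - 1)]
  have h5 : (3 * s ^ 3) ^ 2 = 9 * s ^ 6 := by ring
  have h6 : (17 * (Nat.log 2 n + 1)) ^ 2 = 289 * (Nat.log 2 n + 1) ^ 2 := by ring
  rw [h5, h6] at h4
  omega

private theorem growth {N : ℕ → ℕ} {m₀ : ℕ} (hg : ∀ m : ℕ, m₀ ≤ m → 2 ^ Nat.sqrt m * N m ≤ 2 * N (m + 2)) {m : ℕ}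
    (hm : m₀ ≤ m) (j : ℕ) : 2 ^ (Nat.sqrt m * j) * N m ≤ 2 ^ j * N (m + 2 * j) := by
  induction j with
  | zero => simp
  | succ j ih =>
    have h1 : 2 ^ Nat.sqrt m ≤ 2 ^ Nat.sqrt (m + 2 * j) :=
      Nat.pow_le_pow_right (by norm_num) (Nat.sqrt_le_sqrt (by omega))
    have h2 := hg (m + 2 * j) (by omega)
    calc 2 ^ (Nat.sqrt m * (j + 1)) * N m = 2 ^ Nat.sqrt m * (2 ^ (Nat.sqrt m * j) * N m) := by ring
      _ ≤ 2 ^ Nat.sqrt (m + 2 * j) * (2 ^ j * N (m + 2 * j)) := Nat.mul_le_mul h1 ih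
      _ = 2 ^ j * (2 ^ Nat.sqrt (m + 2 * j) * N (m + 2 * j)) := by ring
      _ ≤ 2 ^ j * (2 * N (m + 2 * j + 2)) := Nat.mul_le_mul_left _ h2
      _ = 2 ^ (j + 1) * N (m + 2 * (j + 1)) := by
        rw [show m + 2 * (j + 1) = m + 2 * j + 2 by ring]
        ring

private theorem term_bound {N O : ℕ → ℕ} (hm : Monotone N) {m₀ : ℕ}
    (hg : ∀ m : ℕ, m₀ ≤ m → 2 ^ Nat.sqrt m * N m ≤ 2 * N (m + 2)) (hO : ∀ s, O s ≤ 2 ^ (s ^ 4)) {n s : ℕ}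
    (hn : 2 ^ 30 ≤ n) (hn2 : 2 * m₀ ≤ n) (hs : 2 ≤ s) (h8 : s ^ 8 ≤ n) :
    n ^ 2 * (n ^ (5 * s) * N (n - s) * O s) ≤ N n := by
  have hsn := one_bound hs h8
  have hr := sqrt_bound hn hs h8
  have hL : n ≤ 2 ^ (Nat.log 2 n + 1) := (Nat.lt_pow_succ_log_self (by norm_num) n).le
  obtain ⟨L, hLd⟩ : ∃ L, L = Nat.log 2 n + 1 := ⟨_, rfl⟩
  obtain ⟨r, hrd⟩ : ∃ r, r = Nat.sqrt (n - s) := ⟨_, rfl⟩
  obtain ⟨j, hjd⟩ : ∃ j, j = s / 2 := ⟨_, rfl⟩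
  rw [← hLd, ← hrd] at hr
  rw [← hLd] at hL
  have hgr := growth hg (m := n - s) (by omega) j
  rw [← hrd] at hgr
  have hN : N (n - s + 2 * j) ≤ N n := hm (by omega)
  have hj1 : 1 ≤ j := by omega
  have hj3 : s ≤ 3 * j := by omega
  have hexp : 2 * L + 5 * s * L + s ^ 4 + j ≤ r * j := by
    calc 2 * L + 5 * s * L + s ^ 4 + j = 2 * (L * 1) + 5 * (s * L) + s * s ^ 3 + j := by ring
      _ ≤ 2 * (L * j) + 5 * (3 * j * L) + 3 * j * s ^ 3 + j := by gcongr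
      _ = (17 * L + 3 * s ^ 3 + 1) * j := by ring
      _ ≤ r * j := Nat.mul_le_mul_right _ hr
  have h2 : n ^ 2 * (n ^ (5 * s) * N (n - s) * O s) ≤ 2 ^ (2 * L + 5 * s * L + s ^ 4) * N (n - s) := by
    calc n ^ 2 * (n ^ (5 * s) * N (n - s) * O s)
        ≤ (2 ^ L) ^ 2 * ((2 ^ L) ^ (5 * s) * N (n - s) * 2 ^ (s ^ 4)) := by
          gcongr
          exact hO s
      _ = 2 ^ (2 * L + 5 * s * L + s ^ 4) * N (n - s) := by
        rw [← pow_mul, ← pow_mul, pow_add, pow_add]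
        ring_nf
  have h3 : 2 ^ j * (n ^ 2 * (n ^ (5 * s) * N (n - s) * O s)) ≤ 2 ^ j * N n := by
    calc 2 ^ j * (n ^ 2 * (n ^ (5 * s) * N (n - s) * O s))
        ≤ 2 ^ j * (2 ^ (2 * L + 5 * s * L + s ^ 4) * N (n - s)) := Nat.mul_le_mul_left _ h2
      _ = 2 ^ (2 * L + 5 * s * L + s ^ 4 + j) * N (n - s) := by rw [pow_add _ _ j]; ring
      _ ≤ 2 ^ (r * j) * N (n - s) := Nat.mul_le_mul_right _ (Nat.pow_le_pow_right (by norm_num) hexp)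
      _ ≤ 2 ^ j * N (n - s + 2 * j) := hgr
      _ ≤ 2 ^ j * N n := Nat.mul_le_mul_left _ hN
  exact Nat.le_of_mul_le_mul_left h3 (by positivity)

theorem anaS (N O : ℕ → ℕ) (hN : ∀ n, 1 ≤ N n) (hm : Monotone N)
    (hg : ∃ m₀ : ℕ, ∀ m : ℕ, m₀ ≤ m → 2 ^ Nat.sqrt m * N m ≤ 2 * N (m + 2)) (hO : ∀ s, O s ≤ 2 ^ (s ^ 4)) :
    Tendsto (fun n : ℕ => (∑ s ∈ (Finset.Icc 2 n).filter (fun s => s ^ 8 ≤ n),
      ((n ^ (5 * s) * N (n - s) * O s : ℕ) : ℝ)) / (N n : ℝ)) atTop (nhds 0) := by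
  obtain ⟨m₀, hg⟩ := hg
  refine squeeze_zero' (Eventually.of_forall fun n => by positivity) ?_ tendsto_one_div_atTop_nhds_zero_nat
  filter_upwards [eventually_ge_atTop (2 ^ 30), eventually_ge_atTop (2 * m₀)] with n hn hn2
  have hn0 : (0 : ℝ) < n := by
    have : 0 < n := by omega
    exact_mod_cast this
  have hNn : (0 : ℝ) < N n := by
    have := hN n
    exact_mod_cast this
  rw [div_le_div_iff₀ hNn hn0, one_mul]
  have h1 : ∀ s ∈ (Finset.Icc 2 n).filter (fun s => s ^ 8 ≤ n),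
      ((n ^ (5 * s) * N (n - s) * O s : ℕ) : ℝ) ≤ (N n : ℝ) / (n : ℝ) ^ 2 := by
    intro s hs
    rw [Finset.mem_filter, Finset.mem_Icc] at hs
    rw [le_div_iff₀ (by positivity)]
    have h2 := term_bound hm hg hO hn hn2 hs.1.1 hs.2
    rw [mul_comm] at h2
    exact_mod_cast h2
  have h2 := Finset.sum_le_card_nsmul _ _ _ h1
  have h3 : (((Finset.Icc 2 n).filter (fun s => s ^ 8 ≤ n)).card : ℝ) ≤ n := by
    have : ((Finset.Icc 2 n).filter (fun s => s ^ 8 ≤ n)).card ≤ n := by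
      refine (Finset.card_filter_le _ _).trans ?_
      rw [Nat.card_Icc]
      omega
    exact_mod_cast this
  rw [nsmul_eq_mul] at h2
  calc (∑ s ∈ (Finset.Icc 2 n).filter (fun s => s ^ 8 ≤ n), ((n ^ (5 * s) * N (n - s) * O s : ℕ) : ℝ)) * n
      ≤ (n * ((N n : ℝ) / (n : ℝ) ^ 2)) * n := by
        refine mul_le_mul_of_nonneg_right (h2.trans ?_) hn0.le
        exact mul_le_mul_of_nonneg_right h3 (by positivity)
    _ = N n := by field_simp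

end Pool.Agent.NilS
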