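import Pool.Agent.NilS.GrowT
import Pool.Agent.NilS.NSub
import Pool.Agent.NilS.SupT

/-!
MP_7fa120_al, nilpotent subgroups. Growth of the number of 2-subgroups.

Proof. Let `D = Nat.sqrt m`. By `gen_count` at most `(m !) ^ D` groups have `Gen P D`, so by `grow_count`
`2 ^ D * nTwo m ≤ nTwo (m + 2) + 2 ^ D * (m !) ^ D`. For large `m` one has `2 * (m !) ^ D ≤ nTwo m`, because
`(m !) ^ D ≤ (m ^ m) ^ D`, `m * D * log m = o (m ^ 2)` and `nTwo m ≥ 2 ^ ((m / 2 / 2) * (m / 2 - m / 2 / 2))` (`nTwo_lower`) with exponent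
at least `m ^ 2 / 16 - m`. Hence `2 ^ D * (m !) ^ D ≤ 2 ^ D * nTwo m / 2`, and the claim follows.
-/

set_option autoImplicit false

namespace Pool.Agent.NilS

open Equiv

private theorem growN_pow (L : ℕ) (h : 24 ≤ L) : 16384 * (L + 1) ^ 2 ≤ 2 ^ L := by
  induction L, h using Nat.le_induction with
  | base => norm_num
  | succ n hn ih =>
    have h1 : (n + 1 + 1) ^ 2 ≤ 2 * (n + 1) ^ 2 := by nlinarith
    have h2 : 2 ^ (n + 1) = 2 * 2 ^ n := by ring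
    rw [h2]
    omega

private theorem growN_exp (m : ℕ) (h : 2 ^ 24 ≤ m) :
    1 + (Nat.log 2 m + 1) * m * Nat.sqrt m ≤ (m / 2 / 2) * (m / 2 - m / 2 / 2) := by
  set L := Nat.log 2 m with hL
  set D := Nat.sqrt m with hD
  have hm0 : m ≠ 0 := by
    have : 0 < 2 ^ 24 := by positivity
    omega
  have hL24 : 24 ≤ L := by
    rw [hL]
    exact Nat.le_log_of_pow_le (by norm_num) h
  have h1 : 16384 * (L + 1) ^ 2 ≤ m := (growN_pow L hL24).trans (Nat.pow_log_le_self 2 hm0)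
  have h2 : 128 * (L + 1) ≤ D := by
    rw [hD, Nat.le_sqrt]
    nlinarith
  have h3 : D * D ≤ m := Nat.sqrt_le m
  have h4 : 128 * (L + 1) * D ≤ m := (Nat.mul_le_mul_right D h2).trans h3
  have hbig : 16777216 ≤ m := by
    have : (2 : ℕ) ^ 24 = 16777216 := by norm_num
    omega
  have h5 : m ≤ 8 * (m / 2 / 2) := by omega
  have h6 : m ≤ 8 * (m / 2 - m / 2 / 2) := by omega
  have h7 : m * m ≤ 64 * ((m / 2 / 2) * (m / 2 - m / 2 / 2)) := by
    have := Nat.mul_le_mul h5 h6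
    nlinarith
  have h8 : 128 * ((L + 1) * m * D) ≤ m * m := by
    have := Nat.mul_le_mul_right m h4
    nlinarith
  have h9 : 1 ≤ (L + 1) * m * D := by
    have hD1 : 1 ≤ D := by omega
    have : 1 ≤ (L + 1) * m := Nat.one_le_iff_ne_zero.mpr (by positivity)
    exact Nat.mul_le_mul this hD1
  omega

private theorem growN_fac (m : ℕ) (h : 2 ^ 24 ≤ m) : 2 * m.factorial ^ Nat.sqrt m ≤ nTwo m := by
  have h1 : m.factorial ≤ m ^ m := Nat.factorial_le_pow m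
  have h2 : m ≤ 2 ^ (Nat.log 2 m + 1) := (Nat.lt_pow_succ_log_self (by norm_num) m).le
  have h3 : m.factorial ^ Nat.sqrt m ≤ 2 ^ ((Nat.log 2 m + 1) * m * Nat.sqrt m) := by
    rw [pow_mul, pow_mul]
    exact Nat.pow_le_pow_left (h1.trans (Nat.pow_le_pow_left h2 m)) _
  calc 2 * m.factorial ^ Nat.sqrt m ≤ 2 * 2 ^ ((Nat.log 2 m + 1) * m * Nat.sqrt m) := Nat.mul_le_mul_left 2 h3
    _ = 2 ^ (1 + (Nat.log 2 m + 1) * m * Nat.sqrt m) := by rw [pow_add, pow_one]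
    _ ≤ 2 ^ ((m / 2 / 2) * (m / 2 - m / 2 / 2)) := Nat.pow_le_pow_right (by norm_num) (growN_exp m h)
    _ ≤ nTwo m := nTwo_lower m

private theorem growN_split (m D : ℕ) :
    nTwo m ≤ Nat.card {P : Subgroup (Perm (Fin m)) // Two P ∧ ¬ Gen P D} +
      Nat.card {P : Subgroup (Perm (Fin m)) // Gen P D} := by
  classical
  rw [← Nat.card_sum]
  refine Nat.card_le_card_of_injective
    (fun P : {P : Subgroup (Perm (Fin m)) // Two P} =>
      if h : Gen P.1 D then (Sum.inr ⟨P.1, h⟩ : {P : Subgroup (Perm (Fin m)) // Two P ∧ ¬ Gen P D} ⊕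
        {P : Subgroup (Perm (Fin m)) // Gen P D}) else Sum.inl ⟨P.1, P.2, h⟩) ?_
  rintro ⟨P, hP⟩ ⟨Q, hQ⟩ hPQ
  dsimp only at hPQ
  split_ifs at hPQ with h1 h2 h2
  · simpa using hPQ
  · simpa using hPQ

theorem grow_nTwo : ∃ m₀ : ℕ, ∀ m : ℕ, m₀ ≤ m → 2 ^ Nat.sqrt m * nTwo m ≤ 2 * nTwo (m + 2) := by
  refine ⟨2 ^ 24, fun m hm => ?_⟩
  have h1 := growN_fac m hm
  have h2 := growN_split m (Nat.sqrt m)
  have h3 := grow_count m (Nat.sqrt m)
  have h4 := gen_count m (Nat.sqrt m)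
  set D := Nat.sqrt m
  set A := Nat.card {P : Subgroup (Perm (Fin m)) // Two P ∧ ¬ Gen P D}
  set B := Nat.card {P : Subgroup (Perm (Fin m)) // Gen P D}
  set T := nTwo m
  have h5 : 2 * B ≤ T := (Nat.mul_le_mul_left 2 h4).trans h1
  have h6 : T ≤ 2 * A := by omega
  calc 2 ^ D * T ≤ 2 ^ D * (2 * A) := Nat.mul_le_mul_left _ h6
    _ = 2 * (2 ^ D * A) := by ring
    _ ≤ 2 * nTwo (m + 2) := Nat.mul_le_mul_left 2 h3

end Pool.Agent.NilS
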