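import Pool.Agent.NilS.Red

/-!
MP_7fa120_al, nilpotent subgroups. Counting with `exists_red`.

Proof. `H` is determined by `L` (with `Odn L`, `Small L θ`; `odn_le`) and by the set `S` of at most `J` elements, which is the
range of a map `Fin J → Perm (Fin n)` or becomes it after adding the element `1` (which does not change the closure). So the number
of `H` is at most the number of pairs (map, `L`).
-/

set_option autoImplicit false

namespace Pool.Agent.NilS

open Equiv

private theorem exists_map {G : Type} [Group G] (L : Subgroup G) (S : Finset G) {J : ℕ} (h : S.card ≤ J) :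
    ∃ w : Fin J → G, Subgroup.closure ((L : Set G) ∪ Set.range w) = Subgroup.closure ((L : Set G) ∪ S) := by
  classical
  refine ⟨fun i => if hi : (i : ℕ) < S.card then (S.equivFin.symm ⟨i, hi⟩ : G) else 1, ?_⟩
  apply le_antisymm
  · rw [Subgroup.closure_le]
    rintro x (hx | ⟨i, rfl⟩)
    · exact Subgroup.subset_closure (Or.inl hx)
    · simp only
      split_ifs with hi
      · exact Subgroup.subset_closure (Or.inr (Subtype.prop _))
      · exact one_mem _
  · rw [Subgroup.closure_le]
    rintro x (hx | hx)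
    · exact Subgroup.subset_closure (Or.inl hx)
    · refine Subgroup.subset_closure (Or.inr ?_)
      have hx' : x ∈ S := hx
      have h1 : ((S.equivFin ⟨x, hx'⟩ : Fin S.card) : ℕ) < S.card := (S.equivFin ⟨x, hx'⟩).2
      refine ⟨⟨S.equivFin ⟨x, hx'⟩, lt_of_lt_of_le h1 h⟩, ?_⟩
      simp only
      rw [dif_pos h1]
      simp

theorem nOdn_le {n θ : ℕ} (hθ : 1 ≤ θ) (J : ℕ) (hJ : (n : ℝ) * Real.logb 3 n ≤ θ * J) :
    nOdn n ≤ n.factorial ^ J * nSm n θ := by
  classical
  have key : ∀ H : {H : Subgroup (Perm (Fin n)) // Odn H},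
      ∃ q : (Fin J → Perm (Fin n)) × {L : Subgroup (Perm (Fin n)) // Odn L ∧ Small L θ},
        Subgroup.closure (((q.2 : Subgroup (Perm (Fin n))) : Set (Perm (Fin n))) ∪ Set.range q.1) = H := by
    rintro ⟨H, ho⟩
    obtain ⟨L, S, hL, hs, hc, he⟩ := exists_red hθ H ho
    have hθ0 : (0 : ℝ) < θ := by exact_mod_cast hθ
    have h1 : (S.card : ℝ) ≤ J := le_of_mul_le_mul_left (hc.trans hJ) hθ0
    obtain ⟨w, hw⟩ := exists_map L S (J := J) (by exact_mod_cast h1)
    exact ⟨(w, ⟨L, odn_le ho hL, hs⟩), hw.trans he⟩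
  choose f hf using key
  have hinj : Function.Injective f := by
    intro H H' h
    apply Subtype.ext
    rw [← hf H, ← hf H', h]
  have h2 := Nat.card_le_card_of_injective f hinj
  rw [Nat.card_prod] at h2
  unfold nOdn nSm
  refine h2.trans (Nat.mul_le_mul_right _ ?_)
  rw [Nat.card_eq_fintype_card, Fintype.card_fun, Fintype.card_perm, Fintype.card_fin, Fintype.card_fin]

end Pool.Agent.NilS
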