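import Pool.Agent.NilS.OBd
import Pool.Agent.NilS.RedC

/-!
MP_7fa120_al, nilpotent subgroups. The number of nilpotent subgroups of odd order.

Proof. Take `θ = Nat.sqrt (Nat.sqrt m)` (so `θ ^ 4 ≤ m < (θ + 1) ^ 4`) and `J = ⌈m logb 3 m / θ⌉₊`. Then by `nOdn_le` and `nSm_le`
`log (nOdn m) ≤ J m log m + (2 m + 1) log (m + 1) + 2 log 2 θ ^ 3 m + log 3 (8 / 243 m ^ 2 + θ m + θ ^ 2)`,
and all terms except `log 3 * 8 / 243 * m ^ 2` are at most `C m ^ 2 log (θ + 1) ^ 2 / θ`. Numerically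
`log 3 * 8 / 243 < log 2 / 17` (from `3 ^ 5 < 2 ^ 8`: `log 3 < 1.6 log 2` and `1.6 * 8 / 243 < 1 / 17`).
-/

set_option autoImplicit false

namespace Pool.Agent.NilS

namespace OFin

/-- `log (θ + 1) ^ 2` is small compared with `θ`. -/
theorem log_small : ∃ t₀ : ℕ, ∀ t : ℕ, t₀ ≤ t → Real.log ((t : ℝ) + 1) ^ 2 ≤ (1 / 10000) * (t : ℝ) := by
  have h := (Real.isLittleO_pow_log_id_atTop (n := 2)).bound (by norm_num : (0 : ℝ) < 1 / 20000)
  rw [Filter.eventually_atTop] at h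
  obtain ⟨a, ha⟩ := h
  refine ⟨max 1 ⌈a⌉₊, fun t ht => ?_⟩
  rw [max_le_iff] at ht
  have h1 : (1 : ℝ) ≤ t := by exact_mod_cast ht.1
  have h2 : a ≤ (t : ℝ) + 1 := by
    have : a ≤ t := (Nat.le_ceil a).trans (by exact_mod_cast ht.2)
    linarith
  have h3 := ha _ h2
  simp only [id, Real.norm_eq_abs] at h3
  rw [abs_of_nonneg (by positivity), abs_of_nonneg (by positivity)] at h3
  linarith

theorem num : Real.log 3 * (8 / 243) + 4 / 1000 ≤ Real.log 2 / 17 := by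
  have h1 : 5 * Real.log 3 ≤ 8 * Real.log 2 := by
    have h2 : Real.log ((3 : ℝ) ^ 5) ≤ Real.log ((2 : ℝ) ^ 8) := by
      apply Real.log_le_log (by norm_num) (by norm_num)
    rw [Real.log_pow, Real.log_pow] at h2
    push_cast at h2
    exact h2
  have h3 := Real.log_two_gt_d9
  linarith

theorem l3 : 1 ≤ Real.log 3 ∧ Real.log 3 ≤ 3 / 2 := by
  constructor
  · rw [Real.le_log_iff_exp_le (by norm_num)]
    have := Real.exp_one_lt_d9
    linarith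
  · have h4 : 5 * Real.log 3 ≤ 8 * Real.log 2 := by
      have h2 : Real.log ((3 : ℝ) ^ 5) ≤ Real.log ((2 : ℝ) ^ 8) := by
        apply Real.log_le_log (by norm_num) (by norm_num)
      rw [Real.log_pow, Real.log_pow] at h2
      push_cast at h2
      exact h2
    have := Real.log_two_lt_d9
    linarith

/-- The real inequality. -/
theorem ineq {x t L lx lx1 l2 lb y J : ℝ} (l3' l3'' : ℝ) (ht2 : 2 ≤ t) (hx4 : t ^ 4 ≤ x) (hL1 : 1 ≤ L)
    (hlog1 : lx1 ≤ 4 * L) (hlog : lx ≤ 4 * L) (hlog0 : 0 ≤ lx) (hlx1 : 0 ≤ lx1)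
    (hl3 : 0 ≤ l3') (hl3' : l3' ≤ 3 / 2) (hl2 : l2 ≤ 1) (hl20 : 0 ≤ l2)
    (hy : y = x * lb / t) (hlb0 : 0 ≤ lb) (hlb1 : lb ≤ 4 * L) (hJ0 : 0 ≤ J) (hJ2 : J ≤ y + 1)
    (hnum : l3' * (8 / 243) + 4 / 1000 ≤ l3'') (hs : L ^ 2 ≤ (1 / 10000) * t) :
    J * (x * lx) + ((2 * x + 1) * lx1 +
      (2 * l2 * t ^ 3 * x + l3' * (8 / 243 * x ^ 2 + t * x + t ^ 2))) ≤ l3'' * x ^ 2 := by
  have ht0 : (0 : ℝ) < t := by linarith
  have ht4 : (8 : ℝ) * t ≤ t ^ 4 := by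
    have h3 : (2 : ℝ) ^ 3 ≤ t ^ 3 := pow_le_pow_left₀ (by norm_num) ht2 3
    calc (8 : ℝ) * t = 2 ^ 3 * t := by norm_num
      _ ≤ t ^ 3 * t := by gcongr
      _ = t ^ 4 := by ring
  have htx : 8 * t ≤ x := ht4.trans hx4
  have hx0 : 0 < x := by linarith
  have hx16 : 16 ≤ x := by linarith
  have hL0 : 0 < L := by linarith
  have hLL : L ≤ L ^ 2 := by
    calc L = L * 1 := by ring
      _ ≤ L * L := by gcongr
      _ = L ^ 2 := by ring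
  set w : ℝ := L ^ 2 / t with hw
  have hw0 : 0 < w := by positivity
  have hwL : L / t ≤ w := by
    rw [hw]
    gcongr
  have hw1 : 1 / t ≤ w := by
    rw [hw]
    gcongr
    linarith
  have hws : w ≤ 1 / 10000 := by
    rw [hw, div_le_iff₀ ht0]
    exact hs
  have hxt : x ≤ x ^ 2 / t := by
    rw [le_div_iff₀ ht0]
    calc x * t ≤ x * x := by gcongr; linarith
      _ = x ^ 2 := by ring
  have hxL : x * L ≤ x ^ 2 * w := by
    calc x * L ≤ x ^ 2 / t * L := by gcongr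
      _ = x ^ 2 * (L / t) := by ring
      _ ≤ _ := by gcongr
  have T1 : J * (x * lx) ≤ 20 * (x ^ 2 * w) := by
    have hy0 : 0 ≤ y := by rw [hy]; positivity
    have e2 : y ≤ x * (4 * L) / t := by rw [hy]; gcongr
    have e1 : J * (x * lx) ≤ (x * (4 * L) / t + 1) * (x * (4 * L)) := by
      apply mul_le_mul (by linarith) _ (by positivity) (by positivity)
      gcongr
    have e4 : (x * (4 * L) / t + 1) * (x * (4 * L)) = 16 * (x ^ 2 * w) + 4 * (x * L) := by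
      rw [hw]
      field_simp
      ring
    linarith
  have T2 : (2 * x + 1) * lx1 ≤ 12 * (x ^ 2 * w) := by
    have e1 : (2 * x + 1) * lx1 ≤ (3 * x) * (4 * L) :=
      mul_le_mul (by linarith) hlog1 hlx1 (by positivity)
    have e2 : (3 * x) * (4 * L) = 12 * (x * L) := by ring
    linarith
  have ht3 : t ^ 3 ≤ x / t := by
    rw [le_div_iff₀ ht0]
    calc t ^ 3 * t = t ^ 4 := by ring
      _ ≤ x := hx4
  have T3 : 2 * l2 * t ^ 3 * x ≤ 2 * (x ^ 2 * w) := by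
    calc 2 * l2 * t ^ 3 * x ≤ 2 * 1 * (x / t) * x := by gcongr
      _ = 2 * (x ^ 2 * (1 / t)) := by ring
      _ ≤ _ := by gcongr
  have htt : t * t ≤ x := by
    have h1 : (1 : ℝ) ≤ t * t := by nlinarith
    calc t * t = t * t * 1 := by ring
      _ ≤ t * t * (t * t) := by gcongr
      _ = t ^ 4 := by ring
      _ ≤ x := hx4
  have hx2t : t * x ≤ x ^ 2 / t := by
    rw [le_div_iff₀ ht0]
    calc t * x * t = (t * t) * x := by ring
      _ ≤ x * x := by gcongr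
      _ = x ^ 2 := by ring
  have ht2t : t ^ 2 ≤ x ^ 2 / t := by
    calc t ^ 2 = t * t := by ring
      _ ≤ x := htt
      _ ≤ _ := hxt
  have T4 : l3' * (t * x + t ^ 2) ≤ 3 * (x ^ 2 * w) := by
    calc l3' * (t * x + t ^ 2) ≤ 3 / 2 * (2 * (x ^ 2 / t)) :=
          mul_le_mul hl3' (by linarith) (by positivity) (by norm_num)
      _ = 3 * (x ^ 2 * (1 / t)) := by ring
      _ ≤ _ := by gcongr
  have hfin : 37 * (x ^ 2 * w) ≤ 4 / 1000 * x ^ 2 := by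
    calc 37 * (x ^ 2 * w) ≤ 37 * (x ^ 2 * (1 / 10000)) := by gcongr
      _ ≤ 4 / 1000 * x ^ 2 := by
        have : 0 ≤ x ^ 2 := by positivity
        linarith
  have hn2 : (l3' * (8 / 243) + 4 / 1000) * x ^ 2 ≤ l3'' * x ^ 2 := by
    gcongr
  have e5 : l3' * (8 / 243 * x ^ 2 + t * x + t ^ 2) =
      l3' * (8 / 243) * x ^ 2 + l3' * (t * x + t ^ 2) := by ring
  have e6 : (l3' * (8 / 243) + 4 / 1000) * x ^ 2 = l3' * (8 / 243) * x ^ 2 + 4 / 1000 * x ^ 2 := by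
    ring
  linarith

theorem main {m θ : ℕ} (hθ : 2 ≤ θ) (h1 : θ ^ 4 ≤ m) (h2 : m + 1 ≤ (θ + 1) ^ 4)
    (hs : Real.log ((θ : ℝ) + 1) ^ 2 ≤ (1 / 10000) * (θ : ℝ)) :
    (nOdn m : ℝ) ≤ Real.exp (Real.log 2 / 17 * (m : ℝ) ^ 2) := by
  have ht2 : (2 : ℝ) ≤ (θ : ℝ) := by exact_mod_cast hθ
  have hx4 : (θ : ℝ) ^ 4 ≤ (m : ℝ) := by exact_mod_cast h1
  have hx5 : (m : ℝ) + 1 ≤ ((θ : ℝ) + 1) ^ 4 := by exact_mod_cast h2
  have hm1 : 1 ≤ m := le_trans (Nat.one_le_pow _ _ (by omega)) h1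
  have hx0 : (0 : ℝ) < (m : ℝ) := by exact_mod_cast hm1
  have hx1 : (1 : ℝ) ≤ (m : ℝ) := by exact_mod_cast hm1
  have hL1 : 1 ≤ Real.log ((θ : ℝ) + 1) := by
    rw [Real.le_log_iff_exp_le (by positivity)]
    have := Real.exp_one_lt_d9
    linarith
  have hlog1 : Real.log ((m : ℝ) + 1) ≤ 4 * Real.log ((θ : ℝ) + 1) := by
    have h3 := Real.log_le_log (by positivity) hx5
    rw [Real.log_pow] at h3
    push_cast at h3
    exact h3
  have hlog : Real.log (m : ℝ) ≤ 4 * Real.log ((θ : ℝ) + 1) :=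
    (Real.log_le_log hx0 (by linarith)).trans hlog1
  have hlog0 : 0 ≤ Real.log (m : ℝ) := Real.log_nonneg hx1
  have hlogb0 : 0 ≤ Real.logb 3 (m : ℝ) := Real.logb_nonneg (by norm_num) hx1
  have hlogb1 : Real.logb 3 (m : ℝ) ≤ 4 * Real.log ((θ : ℝ) + 1) :=
    (div_le_self hlog0 l3.1).trans hlog
  have hy0 : 0 ≤ (m : ℝ) * Real.logb 3 (m : ℝ) / (θ : ℝ) := by positivity
  obtain ⟨J, hJ1, hJ2⟩ : ∃ J : ℕ, (m : ℝ) * Real.logb 3 (m : ℝ) / (θ : ℝ) ≤ J ∧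
      (J : ℝ) ≤ (m : ℝ) * Real.logb 3 (m : ℝ) / (θ : ℝ) + 1 :=
    ⟨_, Nat.le_ceil _, (Nat.ceil_lt_add_one hy0).le⟩
  have hJ : (m : ℝ) * Real.logb 3 m ≤ (θ : ℝ) * J := by
    rw [div_le_iff₀ (by linarith)] at hJ1
    linarith
  have hA := nOdn_le (n := m) (θ := θ) (by omega) J hJ
  have hB := nSm_le m θ
  have hA' : (nOdn m : ℝ) ≤ (m.factorial : ℝ) ^ J * (nSm m θ : ℝ) := by exact_mod_cast hA
  have hfac : (m.factorial : ℝ) ≤ Real.exp ((m : ℝ) * Real.log m) := by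
    have h3 : (m.factorial : ℝ) ≤ (m : ℝ) ^ m := by exact_mod_cast Nat.factorial_le_pow m
    refine h3.trans_eq ?_
    rw [mul_comm, ← Real.rpow_def_of_pos hx0, Real.rpow_natCast]
  have hfJ : (m.factorial : ℝ) ^ J ≤ Real.exp ((J : ℝ) * ((m : ℝ) * Real.log m)) := by
    rw [Real.exp_nat_mul]
    exact pow_le_pow_left₀ (by positivity) hfac J
  have hp : ((m : ℝ) + 1) ^ (2 * m + 1) = Real.exp ((2 * (m : ℝ) + 1) * Real.log ((m : ℝ) + 1)) := by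
    have h3 : Real.exp ((2 * (m : ℝ) + 1) * Real.log ((m : ℝ) + 1)) =
        ((m : ℝ) + 1) ^ (2 * (m : ℝ) + 1) := by
      rw [Real.rpow_def_of_pos (by positivity)]
      congr 1
      ring
    rw [h3, ← Real.rpow_natCast]
    congr 1
    push_cast
    rfl
  rw [hp] at hB
  have hC : (nOdn m : ℝ) ≤ Real.exp ((J : ℝ) * ((m : ℝ) * Real.log m)) *
      (Real.exp ((2 * (m : ℝ) + 1) * Real.log ((m : ℝ) + 1)) *
      Real.exp (2 * Real.log 2 * (θ : ℝ) ^ 3 * m +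
      Real.log 3 * (8 / 243 * (m : ℝ) ^ 2 + θ * m + (θ : ℝ) ^ 2))) :=
    hA'.trans (mul_le_mul hfJ hB (Nat.cast_nonneg _) (Real.exp_nonneg _))
  rw [← Real.exp_add, ← Real.exp_add] at hC
  refine hC.trans (Real.exp_le_exp.2 ?_)
  have hl2 : Real.log 2 ≤ 1 := by
    have := Real.log_two_lt_d9
    linarith
  exact ineq (Real.log 3) (Real.log 2 / 17) ht2 hx4 hL1 hlog1 hlog hlog0
    (Real.log_nonneg (by linarith)) (by linarith [l3.1]) l3.2 hl2 (Real.log_nonneg (by norm_num))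
    rfl hlogb0 hlogb1 (Nat.cast_nonneg J) hJ2 num hs

end OFin

theorem odn_bound : ∃ m₁ : ℕ, ∀ m : ℕ, m₁ ≤ m → (nOdn m : ℝ) ≤ Real.exp (Real.log 2 / 17 * (m : ℝ) ^ 2) := by
  obtain ⟨t₀, ht₀⟩ := OFin.log_small
  refine ⟨((max t₀ 2) ^ 2) ^ 2, fun m hm => ?_⟩
  have h1 : max t₀ 2 ≤ Nat.sqrt (Nat.sqrt m) := by
    rw [Nat.le_sqrt', Nat.le_sqrt']
    exact hm
  rw [max_le_iff] at h1
  apply OFin.main h1.2 _ _ (ht₀ _ h1.1)
  · have h2 := Nat.sqrt_le' (Nat.sqrt m)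
    have h3 := Nat.sqrt_le' m
    calc Nat.sqrt (Nat.sqrt m) ^ 4 = (Nat.sqrt (Nat.sqrt m) ^ 2) ^ 2 := by ring
      _ ≤ (Nat.sqrt m) ^ 2 := Nat.pow_le_pow_left h2 2
      _ ≤ m := h3
  · have h2 := Nat.succ_le_succ_sqrt' (Nat.sqrt m)
    have h3 := Nat.succ_le_succ_sqrt' m
    calc m + 1 ≤ (Nat.sqrt m + 1) ^ 2 := h3
      _ ≤ ((Nat.sqrt (Nat.sqrt m) + 1) ^ 2) ^ 2 := Nat.pow_le_pow_left h2 2
      _ = _ := by ring

end Pool.Agent.NilS
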