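import Pool.Agent.NilS.PStr
import Pool.Agent.NilS.SupT

/-!
MP_7fa120_al, nilpotent subgroups. Counting the commuting pairs.

Proof. If `n ≤ 1` there is no pair (`Q ≠ ⊥`). Let `n ≥ 2`. By `exists_str` every pair `(P, Q)` has data `(Z, B', τ, ρ)`. Let `s = Z.card`,
`2 ≤ s ≤ n`.
(1) `(P, Q)` is determined by `Z`, the restrictions of `τ` and `ρ` to `Z`, `res P (univ \ Z)`, `B'` and `res Q B'`. Let `P₁, P₂` have the
same `Z`, `τ`, `ρ` (on `Z`) and `res P_i (univ \ Z)`. For `p ∈ P₁` there is `p' ∈ P₂` with `p' = p` outside `Z`. For `x ∈ Z` with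
`τ x ∈ Z`: `p x = x = p' x`. For `x ∈ Z` with `τ x ∉ Z`: `ρ (p x) = ρ x = ρ (p' x)` and `τ (p x) = p (τ x) = p' (τ x) = τ (p' x)`, so
`p x = p' x`. So `p = p' ∈ P₂`, and `P₁ ≤ P₂`; by symmetry `P₁ = P₂`. Let `(P, Q₁)`, `(P, Q₂)` have the same `B'` and `res Q_i B'`. For
`q ∈ Q₁` there is `q' ∈ Q₂` with `q' = q` on `B'`. If `x` is moved by `Q₁` or `Q₂` there is `p ∈ P` with `p x ∈ B'`, and
`q x = p⁻¹ q p x = p⁻¹ q' p x = q' x`; other points are fixed by both. So `q = q' ∈ Q₂`.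
(2) For given `s`: at most `n ^ s` sets `Z` (ranges of maps `Fin s → Fin n`), `n ^ s` maps `τ` on `Z` and `n ^ s` maps `ρ` on `Z`, at most
`(n + 1) ^ s ≤ n ^ (2 s)` sets `B'` with at most `s` elements, at most `nTwo (n - s)` groups `res P (univ \ Z)` (`two_res`,
`two_support`), at most `nOdn B'.card ≤ nOdn s` groups `res Q B'` (`odn_res`, `odn_support`, `nOdn_mono`).
-/

set_option autoImplicit false

namespace Pool.Agent.NilS

open Equiv

namespace PCnt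

/-- An element of `H` agrees on `U` with an element of a group with a larger restriction. -/
theorem lift_res {n : ℕ} {H K : Subgroup (Perm (Fin n))} {U : Finset (Fin n)} (hU : Inv H U)
    (h : res H U ≤ res K U) {p : Perm (Fin n)} (hp : p ∈ H) : ∃ p' ∈ K, ∀ x ∈ U, p x = p' x := by
  obtain ⟨f, hf1, hf2, hf3, _⟩ := exists_resHom H U hU
  have h1 : f ⟨p, hp⟩ ∈ res H U := by
    rw [← hf1]
    exact ⟨⟨p, hp⟩, rfl⟩
  obtain ⟨-, p', hp', h2⟩ := mem_res.1 (h h1)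
  refine ⟨p', hp', fun x hx => ?_⟩
  rw [← h2 x hx, hf2 _ x hx]

theorem inv_compl {n : ℕ} {H : Subgroup (Perm (Fin n))} {U : Finset (Fin n)} (hU : Inv H U) :
    Inv H (Finset.univ \ U) := by
  intro h hh x hx
  rw [Finset.mem_sdiff] at hx ⊢
  refine ⟨Finset.mem_univ _, fun h1 => hx.2 ?_⟩
  have h2 := hU h⁻¹ (inv_mem hh) (h x) h1
  rwa [← Perm.mul_apply, inv_mul_cancel, Perm.one_apply] at h2

theorem det_P {n : ℕ} {P₁ P₂ : Subgroup (Perm (Fin n))} {Z : Finset (Fin n)}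
    {τ₁ ρ₁ τ₂ ρ₂ : Fin n → Fin n} (hZ1 : Inv P₁ Z) (hZ2 : Inv P₂ Z)
    (c1 : ∀ p ∈ P₁, ∀ x ∈ Z, ρ₁ (p x) = ρ₁ x ∧ (τ₁ x ∉ Z → τ₁ (p x) = p (τ₁ x)) ∧
      (τ₁ x ∈ Z → p x = x))
    (c2 : ∀ p ∈ P₂, ∀ x ∈ Z, ρ₂ (p x) = ρ₂ x ∧ (τ₂ x ∉ Z → τ₂ (p x) = p (τ₂ x)) ∧
      (τ₂ x ∈ Z → p x = x))
    (hsep : ∀ x ∈ Z, ∀ y ∈ Z, τ₁ x = τ₁ y → ρ₁ x = ρ₁ y → x = y)
    (hτ : ∀ x ∈ Z, τ₁ x = τ₂ x) (hρ : ∀ x ∈ Z, ρ₁ x = ρ₂ x)
    (hres : res P₁ (Finset.univ \ Z) ≤ res P₂ (Finset.univ \ Z)) : P₁ ≤ P₂ := by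
  intro p hp
  obtain ⟨p', hp', h1⟩ := lift_res (inv_compl hZ1) hres hp
  have h2 : p = p' := by
    apply Equiv.ext
    intro x
    by_cases hx : x ∈ Z
    · obtain ⟨a1, a2, a3⟩ := c1 p hp x hx
      obtain ⟨b1, b2, b3⟩ := c2 p' hp' x hx
      have hpx := hZ1 p hp x hx
      have hpx' := hZ2 p' hp' x hx
      by_cases ht : τ₁ x ∈ Z
      · rw [a3 ht, b3 (by rw [← hτ x hx]; exact ht)]
      · have ht' : τ₂ x ∉ Z := by rw [← hτ x hx]; exact ht
        apply hsep _ hpx _ hpx'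
        · rw [a2 ht, hτ _ hpx', b2 ht', ← hτ x hx]
          exact h1 _ (by rw [Finset.mem_sdiff]; exact ⟨Finset.mem_univ _, ht⟩)
        · rw [a1, hρ _ hpx', b1, hρ x hx]
    · exact h1 x (by rw [Finset.mem_sdiff]; exact ⟨Finset.mem_univ _, hx⟩)
  rw [h2]
  exact hp'

theorem det_Q {n : ℕ} {P Q₁ Q₂ : Subgroup (Perm (Fin n))} {B : Finset (Fin n)}
    (k1 : ∀ p ∈ P, ∀ q ∈ Q₁, p * q = q * p) (k2 : ∀ p ∈ P, ∀ q ∈ Q₂, p * q = q * p)
    (hB : Inv Q₁ B) (m1 : ∀ x, (∃ q ∈ Q₁, q x ≠ x) → ∃ p ∈ P, p x ∈ B)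
    (m2 : ∀ x, (∃ q ∈ Q₂, q x ≠ x) → ∃ p ∈ P, p x ∈ B)
    (hres : res Q₁ B ≤ res Q₂ B) : Q₁ ≤ Q₂ := by
  intro q hq
  obtain ⟨q', hq', h1⟩ := lift_res hB hres hq
  have h2 : q = q' := by
    apply Equiv.ext
    intro x
    by_cases hx : q x = x ∧ q' x = x
    · rw [hx.1, hx.2]
    · have h3 : ∃ p ∈ P, p x ∈ B := by
        rw [not_and_or] at hx
        rcases hx with hx | hx
        · exact m1 x ⟨q, hq, hx⟩
        · exact m2 x ⟨q', hq', hx⟩
      obtain ⟨p, hp, hpx⟩ := h3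
      have h4 := h1 _ hpx
      have h5 : p (q x) = q (p x) := by
        rw [← Perm.mul_apply, k1 p hp q hq, Perm.mul_apply]
      have h6 : p (q' x) = q' (p x) := by
        rw [← Perm.mul_apply, k2 p hp q' hq', Perm.mul_apply]
      rw [← h5, ← h6] at h4
      exact p.injective h4
  rw [h2]
  exact hq'

/-- A set with at most `s` elements is coded by a map. -/
theorem exists_code {α : Type} (S : Finset α) {s : ℕ} (h : S.card ≤ s) :
    ∃ b : Fin s → Option α, ∀ x, x ∈ S ↔ ∃ i, b i = some x := by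
  classical
  refine ⟨fun i => if hi : (i : ℕ) < S.card then some (S.equivFin.symm ⟨i, hi⟩ : α) else none,
    fun x => ?_⟩
  constructor
  · intro hx
    have h1 : ((S.equivFin ⟨x, hx⟩ : Fin S.card) : ℕ) < S.card := (S.equivFin ⟨x, hx⟩).2
    refine ⟨⟨S.equivFin ⟨x, hx⟩, lt_of_lt_of_le h1 h⟩, ?_⟩
    simp only
    rw [dif_pos h1]
    simp
  · rintro ⟨i, hi⟩
    simp only at hi
    split_ifs at hi with h1
    rw [Option.some_inj] at hi
    rw [← hi]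
    exact Subtype.prop _

theorem exists_enum {α : Type} (S : Finset α) {s : ℕ} (h : S.card = s) :
    ∃ z : Fin s → α, ∀ x, x ∈ S ↔ ∃ i, z i = x := by
  subst h
  refine ⟨fun i => (S.equivFin.symm i : α), fun x => ?_⟩
  constructor
  · intro hx
    refine ⟨S.equivFin ⟨x, hx⟩, ?_⟩
    simp
  · rintro ⟨i, hi⟩
    rw [← hi]
    exact Subtype.prop _

/-- The data. -/
abbrev Da (n : ℕ) : Type := Finset (Fin n) × Finset (Fin n) × (Fin n → Fin n) × (Fin n → Fin n)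

open Classical in
/-- The data with `s` points. -/
noncomputable def Ds (n s : ℕ) : Finset (Da n) :=
  Finset.univ.filter fun d => d.1.card = s ∧ d.2.1.card ≤ s ∧ (∀ x, x ∉ d.1 → d.2.2.1 x = x) ∧
    ∀ x, x ∉ d.1 → d.2.2.2 x = x

theorem mem_Ds {n s : ℕ} {d : Da n} : d ∈ Ds n s ↔ d.1.card = s ∧ d.2.1.card ≤ s ∧
    (∀ x, x ∉ d.1 → d.2.2.1 x = x) ∧ ∀ x, x ∉ d.1 → d.2.2.2 x = x := by
  unfold Ds
  rw [Finset.mem_filter]
  exact ⟨fun h => h.2, fun h => ⟨Finset.mem_univ _, h⟩⟩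

theorem card_Ds {n : ℕ} (hn : 2 ≤ n) (s : ℕ) : (Ds n s).card ≤ n ^ (5 * s) := by
  classical
  have key : ∀ d : Da n, d ∈ Ds n s → ∃ w : (Fin s → Fin n) × (Fin s → Fin n) × (Fin s → Fin n) ×
      (Fin s → Option (Fin n)), (∀ x, x ∈ d.1 ↔ ∃ i, w.1 i = x) ∧
      (∀ i, w.2.1 i = d.2.2.1 (w.1 i)) ∧ (∀ i, w.2.2.1 i = d.2.2.2 (w.1 i)) ∧
      ∀ x, x ∈ d.2.1 ↔ ∃ i, w.2.2.2 i = some x := by
    intro d hd
    rw [mem_Ds] at hd
    obtain ⟨h1, h2, _, _⟩ := hd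
    obtain ⟨z, hz⟩ := exists_enum d.1 h1
    obtain ⟨b, hb⟩ := exists_code d.2.1 h2
    exact ⟨(z, fun i => d.2.2.1 (z i), fun i => d.2.2.2 (z i), b), hz, fun i => rfl, fun i => rfl, hb⟩
  choose f hf using key
  have h1 : (Ds n s).card ≤ (Finset.univ : Finset ((Fin s → Fin n) × (Fin s → Fin n) ×
      (Fin s → Fin n) × (Fin s → Option (Fin n)))).card := by
    refine Finset.card_le_card_of_injOn (fun d => if hd : d ∈ Ds n s then f d hd else
      (fun _ => ⟨0, by omega⟩, fun _ => ⟨0, by omega⟩, fun _ => ⟨0, by omega⟩, fun _ => none))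
      (fun d _ => Finset.mem_coe.2 (Finset.mem_univ _)) ?_
    intro d hd d' hd' he
    rw [Finset.mem_coe] at hd hd'
    simp only [dif_pos hd, dif_pos hd'] at he
    obtain ⟨a1, a2, a3, a4⟩ := hf d hd
    obtain ⟨b1, b2, b3, b4⟩ := hf d' hd'
    rw [← he] at b1 b2 b3 b4
    obtain ⟨-, -, c3, c4⟩ := mem_Ds.1 hd
    obtain ⟨-, -, e3, e4⟩ := mem_Ds.1 hd'
    have g1 : d.1 = d'.1 := by
      ext x
      rw [a1, b1]
    have g2 : d.2.1 = d'.2.1 := by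
      ext x
      rw [a4, b4]
    have g3 : d.2.2.1 = d'.2.2.1 := by
      funext x
      by_cases hx : x ∈ d.1
      · obtain ⟨i, hi⟩ := (a1 x).1 hx
        rw [← hi, ← a2, b2]
      · rw [c3 x hx, e3 x (by rw [← g1]; exact hx)]
    have g4 : d.2.2.2 = d'.2.2.2 := by
      funext x
      by_cases hx : x ∈ d.1
      · obtain ⟨i, hi⟩ := (a1 x).1 hx
        rw [← hi, ← a3, b3]
      · rw [c4 x hx, e4 x (by rw [← g1]; exact hx)]
    exact Prod.ext g1 (Prod.ext g2 (Prod.ext g3 g4))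
  refine h1.trans ?_
  rw [Finset.card_univ, Fintype.card_prod, Fintype.card_prod, Fintype.card_prod, Fintype.card_fun,
    Fintype.card_fun, Fintype.card_option, Fintype.card_fin, Fintype.card_fin]
  have h2 : (n + 1) ^ s ≤ n ^ (2 * s) := by
    rw [pow_mul]
    apply Nat.pow_le_pow_left
    nlinarith
  calc n ^ s * (n ^ s * (n ^ s * (n + 1) ^ s)) ≤ n ^ s * (n ^ s * (n ^ s * n ^ (2 * s))) := by gcongr
    _ = n ^ (5 * s) := by
      rw [← pow_add, ← pow_add, ← pow_add]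
      congr 1
      omega

end PCnt

open PCnt

theorem pair_count (n : ℕ) :
    Nat.card {PQ : Subgroup (Perm (Fin n)) × Subgroup (Perm (Fin n)) // CP PQ.1 PQ.2 ∧ PQ.2 ≠ ⊥} ≤
      ∑ s ∈ Finset.Icc 2 n, n ^ (5 * s) * nTwo (n - s) * nOdn s := by
  classical
  have _ : Fintype (Subgroup (Perm (Fin n))) := Fintype.ofFinite _
  -- the groups
  let TS : Finset (Fin n) → Finset (Subgroup (Perm (Fin n))) := fun D =>
    Finset.univ.filter fun H => Two H ∧ ∀ h ∈ H, ∀ x, x ∉ D → h x = x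
  let OS : Finset (Fin n) → Finset (Subgroup (Perm (Fin n))) := fun D =>
    Finset.univ.filter fun H => Odn H ∧ ∀ h ∈ H, ∀ x, x ∉ D → h x = x
  have hTS : ∀ D, (TS D).card ≤ nTwo D.card := by
    intro D
    refine le_trans (le_of_eq ?_) (two_support n D)
    rw [Nat.card_eq_fintype_card, Fintype.card_subtype]
  have hOS : ∀ D, (OS D).card ≤ nOdn D.card := by
    intro D
    refine le_trans (le_of_eq ?_) (odn_support n D)
    rw [Nat.card_eq_fintype_card, Fintype.card_subtype]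
  let W : Finset (Da n × Subgroup (Perm (Fin n)) × Subgroup (Perm (Fin n))) :=
    (Finset.Icc 2 n).biUnion fun s => (Ds n s).biUnion fun d =>
      ({d} : Finset (Da n)) ×ˢ (TS (Finset.univ \ d.1) ×ˢ OS d.2.1)
  have hW : W.card ≤ ∑ s ∈ Finset.Icc 2 n, n ^ (5 * s) * nTwo (n - s) * nOdn s := by
    refine Finset.card_biUnion_le.trans (Finset.sum_le_sum fun s hs => ?_)
    rw [Finset.mem_Icc] at hs
    have h1 : ((Ds n s).biUnion fun d =>
        ({d} : Finset (Da n)) ×ˢ (TS (Finset.univ \ d.1) ×ˢ OS d.2.1)).card ≤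
        (Ds n s).card * (nTwo (n - s) * nOdn s) := by
      refine Finset.card_biUnion_le.trans ?_
      rw [← smul_eq_mul, ← Finset.sum_const]
      refine Finset.sum_le_sum fun d hd => ?_
      obtain ⟨c1, c2, -, -⟩ := mem_Ds.1 hd
      rw [Finset.card_product, Finset.card_product, Finset.card_singleton, one_mul]
      refine Nat.mul_le_mul ?_ ?_
      · refine (hTS _).trans (le_of_eq ?_)
        rw [Finset.card_sdiff_of_subset (Finset.subset_univ _), Finset.card_univ, Fintype.card_fin, c1]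
      · exact (hOS _).trans (nOdn_mono c2)
    refine h1.trans ?_
    rw [mul_assoc]
    exact Nat.mul_le_mul_right _ (card_Ds (by omega) s)
  refine le_trans ?_ hW
  -- the data of a pair
  have key : ∀ q : Subgroup (Perm (Fin n)) × Subgroup (Perm (Fin n)), CP q.1 q.2 ∧ q.2 ≠ ⊥ →
      ∃ (Z B' : Finset (Fin n)) (τ ρ : Fin n → Fin n), 2 ≤ Z.card ∧ B'.card ≤ Z.card ∧ Inv q.1 Z ∧
      Inv q.2 B' ∧
      (∀ p ∈ q.1, ∀ x ∈ Z, ρ (p x) = ρ x ∧ (τ x ∉ Z → τ (p x) = p (τ x)) ∧ (τ x ∈ Z → p x = x)) ∧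
      (∀ x ∈ Z, ∀ y ∈ Z, τ x = τ y → ρ x = ρ y → x = y) ∧
      ∀ x, (∃ p ∈ q.2, p x ≠ x) → ∃ p ∈ q.1, p x ∈ B' := fun q hq => exists_str q.1 q.2 hq.1 hq.2
  choose Z B τ ρ k1 k2 k3 k4 k5 k6 k7 using key
  let cut : Finset (Fin n) → (Fin n → Fin n) → Fin n → Fin n := fun D f x => if x ∈ D then f x else x
  let F : {PQ : Subgroup (Perm (Fin n)) × Subgroup (Perm (Fin n)) // CP PQ.1 PQ.2 ∧ PQ.2 ≠ ⊥} →
      Da n × Subgroup (Perm (Fin n)) × Subgroup (Perm (Fin n)) := fun q =>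
    ((Z q.1 q.2, B q.1 q.2, cut (Z q.1 q.2) (τ q.1 q.2), cut (Z q.1 q.2) (ρ q.1 q.2)),
      (res q.1.1 (Finset.univ \ Z q.1 q.2), res q.1.2 (B q.1 q.2)))
  have hFW : ∀ q, F q ∈ W := by
    rintro ⟨q, hq⟩
    have e1 : (Z q hq).card ≤ n := by
      have := Finset.card_le_univ (Z q hq)
      rwa [Fintype.card_fin] at this
    refine Finset.mem_biUnion.2 ⟨(Z q hq).card, Finset.mem_Icc.2 ⟨k1 q hq, e1⟩, ?_⟩
    refine Finset.mem_biUnion.2 ⟨(Z q hq, B q hq, cut (Z q hq) (τ q hq), cut (Z q hq) (ρ q hq)), ?_, ?_⟩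
    · rw [mem_Ds]
      exact ⟨rfl, k2 q hq, fun x hx => if_neg hx, fun x hx => if_neg hx⟩
    · rw [Finset.mem_product, Finset.mem_product]
      refine ⟨Finset.mem_singleton.2 rfl, ?_, ?_⟩
      · refine Finset.mem_filter.2 ⟨Finset.mem_univ _, two_res hq.1.1 (inv_compl (k3 q hq)), ?_⟩
        exact fun h hh x hx => (mem_res.1 hh).1 x hx
      · refine Finset.mem_filter.2 ⟨Finset.mem_univ _, odn_res hq.1.2.1 (k4 q hq), ?_⟩
        exact fun h hh x hx => (mem_res.1 hh).1 x hx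
  have hFinj : Function.Injective F := by
    rintro ⟨⟨P₁, Q₁⟩, hq⟩ ⟨⟨P₂, Q₂⟩, hq'⟩ he
    simp only [F, Prod.mk.injEq] at he
    obtain ⟨⟨eZ, eB, eτ, eρ⟩, eP, eQ⟩ := he
    have hτ : ∀ x ∈ Z (P₁, Q₁) hq, τ (P₁, Q₁) hq x = τ (P₂, Q₂) hq' x := by
      intro x hx
      have h1 := congrFun eτ x
      simp only [cut] at h1
      rwa [if_pos hx, if_pos (by rw [← eZ]; exact hx)] at h1
    have hρ : ∀ x ∈ Z (P₁, Q₁) hq, ρ (P₁, Q₁) hq x = ρ (P₂, Q₂) hq' x := by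
      intro x hx
      have h1 := congrFun eρ x
      simp only [cut] at h1
      rwa [if_pos hx, if_pos (by rw [← eZ]; exact hx)] at h1
    have a3 := k3 _ hq
    have a4 := k4 _ hq
    have a5 := k5 _ hq
    have a6 := k6 _ hq
    have a7 := k7 _ hq
    have b3 := k3 _ hq'
    have b4 := k4 _ hq'
    have b5 := k5 _ hq'
    have b6 := k6 _ hq'
    have b7 := k7 _ hq'
    rw [← eZ] at b3 b5 b6 eP
    rw [← eB] at b4 b7 eQ
    have hP : P₁ = P₂ := by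
      apply le_antisymm
      · exact det_P a3 b3 a5 b5 a6 hτ hρ eP.le
      · exact det_P b3 a3 b5 a5 b6 (fun x hx => (hτ x hx).symm) (fun x hx => (hρ x hx).symm) eP.ge
    subst hP
    have hQ : Q₁ = Q₂ := by
      apply le_antisymm
      · exact det_Q hq.1.2.2 hq'.1.2.2 a4 a7 b7 eQ.le
      · exact det_Q hq'.1.2.2 hq.1.2.2 b4 b7 a7 eQ.ge
    subst hQ
    rfl
  rw [Nat.card_eq_fintype_card, ← Finset.card_univ]
  exact Finset.card_le_card_of_injOn F (fun q _ => Finset.mem_coe.2 (hFW q)) hFinj.injOn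

end Pool.Agent.NilS
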