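import Pool.Agent.NilS.PairS
import Pool.Agent.NilS.PCnt
import Pool.Agent.NilS.OFin
import Pool.Agent.NilS.GrowN
import Pool.Agent.NilS.AnaS
import Pool.Agent.NilS.AnaL
import Pool.Agent.AbS.Main

/-!
MP_7fa120_al, nilpotent subgroups. The main theorem.
-/

set_option autoImplicit false

namespace Pool.Agent.NilS

open Equiv Filter Topology

theorem pairs_tendsto : Tendsto (fun n : ℕ =>
    (Nat.card {PQ : Subgroup (Perm (Fin n)) × Subgroup (Perm (Fin n)) // CP PQ.1 PQ.2 ∧ PQ.2 ≠ ⊥} : ℝ) / (nTwo n : ℝ))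
    atTop (𝓝 0) := by
  have h1 := anaS nTwo nOdn one_le_nTwo nTwo_mono grow_nTwo (fun s => by
    have : nOdn s ≤ nSub s := by
      unfold nOdn nSub
      exact Nat.card_le_card_of_injective Subtype.val Subtype.val_injective
    exact this.trans (nSub_le s))
  have h2 := anaL nTwo nOdn one_le_nTwo nTwo_mul nTwo_lower odn_bound
  have h3 := h1.add h2
  rw [add_zero] at h3
  refine squeeze_zero (fun n => by positivity) (fun n => ?_) h3
  rw [← add_div]
  have h4 : (0 : ℝ) ≤ (nTwo n : ℝ) := by positivity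
  refine div_le_div_of_nonneg_right ?_ h4
  rw [Finset.sum_filter_add_sum_filter_not]
  exact_mod_cast pair_count n

/-- The nilpotent subgroups that are not 2-groups. -/
theorem card_bad_le (n : ℕ) : Nat.card {H : Subgroup (Perm (Fin n)) // Group.IsNilpotent H ∧ ¬ Two H} ≤
    Nat.card {PQ : Subgroup (Perm (Fin n)) × Subgroup (Perm (Fin n)) // CP PQ.1 PQ.2 ∧ PQ.2 ≠ ⊥} := by
  classical
  have hex : ∀ H : {H : Subgroup (Perm (Fin n)) // Group.IsNilpotent H ∧ ¬ Two H},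
      ∃ PQ : {PQ : Subgroup (Perm (Fin n)) × Subgroup (Perm (Fin n)) // CP PQ.1 PQ.2 ∧ PQ.2 ≠ ⊥},
        PQ.1.1 ⊔ PQ.1.2 = H.1 := by
    rintro ⟨H, hn, h2⟩
    obtain ⟨P, Q, hc, hPQ⟩ := exists_pair H hn
    refine ⟨⟨(P, Q), hc, ?_⟩, hPQ⟩
    rintro rfl
    apply h2
    rw [sup_bot_eq] at hPQ
    rw [← hPQ]
    exact hc.1
  choose f hf using hex
  refine Nat.card_le_card_of_injective f fun H K hHK => ?_
  apply Subtype.ext
  rw [← hf H, ← hf K, hHK]

theorem nNil_eq (n : ℕ) : nNil n =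
    nTwo n + Nat.card {H : Subgroup (Perm (Fin n)) // Group.IsNilpotent H ∧ ¬ Two H} := by
  classical
  unfold nNil nTwo
  have e : {H : Subgroup (Perm (Fin n)) // Group.IsNilpotent H} ≃
      {H : Subgroup (Perm (Fin n)) // Two H} ⊕ {H : Subgroup (Perm (Fin n)) // Group.IsNilpotent H ∧ ¬ Two H} := by
    refine
      { toFun := fun H => if h : Two H.1 then Sum.inl ⟨H.1, h⟩ else Sum.inr ⟨H.1, H.2, h⟩
        invFun := fun x => Sum.elim (fun H => ⟨H.1, two_nil H.2⟩) (fun H => ⟨H.1, H.2.1⟩) x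
        left_inv := ?_
        right_inv := ?_ }
    · intro H
      by_cases h : Two H.1 <;> simp [h]
    · rintro (H | H)
      · simp [H.2]
      · simp [H.2.2]
  rw [Nat.card_congr e, Nat.card_sum]

theorem bad_tendsto : Tendsto (fun n : ℕ =>
    (Nat.card {H : Subgroup (Perm (Fin n)) // Group.IsNilpotent H ∧ ¬ Two H} : ℝ) / (nTwo n : ℝ)) atTop (𝓝 0) := by
  refine squeeze_zero (fun n => by positivity) (fun n => ?_) pairs_tendsto
  have h4 : (0 : ℝ) ≤ (nTwo n : ℝ) := by positivity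
  exact div_le_div_of_nonneg_right (by exact_mod_cast card_bad_le n) h4

theorem ratio_tendsto : Tendsto (fun n : ℕ => (nTwo n : ℝ) / (nNil n : ℝ)) atTop (𝓝 1) := by
  have h1 := bad_tendsto.const_add 1
  rw [add_zero] at h1
  have h2 := h1.inv₀ one_ne_zero
  rw [inv_one] at h2
  refine h2.congr fun n => ?_
  have h3 : (1 : ℝ) ≤ (nTwo n : ℝ) := by exact_mod_cast one_le_nTwo n
  have h4 : (nTwo n : ℝ) ≠ 0 := by linarith
  rw [nNil_eq n]
  push_cast
  rw [one_add_div h4, inv_div]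

theorem nQ_le_nTwo (n : ℕ) : AbS.nQ 2 n ≤ nTwo n := by
  unfold AbS.nQ nTwo
  refine Nat.card_le_card_of_injective (fun H => ⟨H.1, H.2.2⟩) fun H K hHK => ?_
  exact Subtype.ext (Subtype.mk.inj hHK)

theorem small_tendsto' (Q : ℕ) : Tendsto (fun n : ℕ => (n.factorial : ℝ) ^ Q / (nTwo n : ℝ)) atTop (𝓝 0) := by
  obtain ⟨C, _, hC⟩ := AbS.lowerN 2 Nat.prime_two
  have hl : (0 : ℝ) < Real.log (2 : ℕ) := Real.log_pos (by norm_num)
  refine AbS.small_tendsto (fun n => (nTwo n : ℝ)) (Real.log (2 : ℕ) / (4 * ((2 : ℕ) : ℝ) ^ 2)) C (by positivity)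
    (fun n => (hC n).trans ?_) Q
  exact_mod_cast nQ_le_nTwo n

theorem dens_two (a : ℕ) : Tendsto (fun n : ℕ => dens n (2 ^ a)) atTop (𝓝 1) := by
  -- the lower bound nTwo / nNil - n! ^ (2 ^ a) / nTwo
  have h1 := ratio_tendsto.sub (small_tendsto' (2 ^ a))
  rw [sub_zero] at h1
  refine tendsto_of_tendsto_of_tendsto_of_le_of_le h1 tendsto_const_nhds (fun n => ?_) (fun n => ?_)
  · have h3 : (1 : ℝ) ≤ (nTwo n : ℝ) := by exact_mod_cast one_le_nTwo n
    have h5 : (nTwo n : ℝ) ≤ (nNil n : ℝ) := by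
      rw [nNil_eq n]
      push_cast
      have : (0 : ℝ) ≤ (Nat.card {H : Subgroup (Perm (Fin n)) // Group.IsNilpotent H ∧ ¬ Two H} : ℝ) := by positivity
      linarith
    have h6 : (nTwo n : ℝ) ≤
        (Nat.card {H : Subgroup (Perm (Fin n)) // Group.IsNilpotent H ∧ 2 ^ a ∣ Nat.card H} : ℝ) +
          (n.factorial : ℝ) ^ (2 ^ a) := by
      have g1 := AbS.card_small_le n (2 ^ a)
      have g2 : nTwo n ≤ Nat.card {H : Subgroup (Perm (Fin n)) // Group.IsNilpotent H ∧ 2 ^ a ∣ Nat.card H} +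
          Nat.card {H : Subgroup (Perm (Fin n)) // Nat.card H ≤ 2 ^ a} := by
        classical
        rw [← Nat.card_sum]
        unfold nTwo
        refine Nat.card_le_card_of_injective (fun H => if h : 2 ^ a ∣ Nat.card H.1 then
          Sum.inl ⟨H.1, two_nil H.2, h⟩ else Sum.inr ⟨H.1, ?_⟩) ?_
        · obtain ⟨k, hk⟩ := H.2
          by_contra hlt
          apply h
          rw [hk] at hlt ⊢
          apply pow_dvd_pow
          by_contra hka
          exact hlt (Nat.pow_le_pow_right (by norm_num) (by omega))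
        · intro H K hHK
          dsimp only at hHK
          apply Subtype.ext
          by_cases h : 2 ^ a ∣ Nat.card H.1 <;> by_cases h' : 2 ^ a ∣ Nat.card K.1
          · rw [dif_pos h, dif_pos h'] at hHK
            exact Subtype.mk.inj (Sum.inl.inj hHK)
          · rw [dif_pos h, dif_neg h'] at hHK
            cases hHK
          · rw [dif_neg h, dif_pos h'] at hHK
            cases hHK
          · rw [dif_neg h, dif_neg h'] at hHK
            exact Subtype.mk.inj (Sum.inr.inj hHK)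
      exact_mod_cast g2.trans (Nat.add_le_add_left g1 _)
    have h0 : (0 : ℝ) < (nTwo n : ℝ) := by linarith
    have h0' : (0 : ℝ) < (nNil n : ℝ) := by linarith
    change (nTwo n : ℝ) / (nNil n : ℝ) - (n.factorial : ℝ) ^ (2 ^ a) / (nTwo n : ℝ) ≤
      (Nat.card {H : Subgroup (Perm (Fin n)) // Group.IsNilpotent H ∧ 2 ^ a ∣ Nat.card H} : ℝ) / (nNil n : ℝ)
    have h7 : (n.factorial : ℝ) ^ (2 ^ a) / (nNil n : ℝ) ≤ (n.factorial : ℝ) ^ (2 ^ a) / (nTwo n : ℝ) :=
      div_le_div_of_nonneg_left (by positivity) h0 h5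
    have h8 : (nTwo n : ℝ) / (nNil n : ℝ) ≤
        (Nat.card {H : Subgroup (Perm (Fin n)) // Group.IsNilpotent H ∧ 2 ^ a ∣ Nat.card H} : ℝ) / (nNil n : ℝ) +
          (n.factorial : ℝ) ^ (2 ^ a) / (nNil n : ℝ) := by
      rw [← add_div]
      exact div_le_div_of_nonneg_right h6 h0'.le
    linarith
  · unfold dens
    refine div_le_one_of_le₀ ?_ (by positivity)
    have : Nat.card {H : Subgroup (Perm (Fin n)) // Group.IsNilpotent H ∧ 2 ^ a ∣ Nat.card H} ≤
        Nat.card {H : Subgroup (Perm (Fin n)) // Group.IsNilpotent H} := by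
      refine Nat.card_le_card_of_injective (fun H => ⟨H.1, H.2.1⟩) fun H K hHK => ?_
      exact Subtype.ext (Subtype.mk.inj hHK)
    exact Nat.cast_le.2 this

theorem dens_other (m : ℕ) (hm : ¬ ∃ a : ℕ, m = 2 ^ a) : Tendsto (fun n : ℕ => dens n m) atTop (𝓝 0) := by
  have h1 := ratio_tendsto.const_sub 1
  rw [sub_self] at h1
  refine squeeze_zero (fun n => by unfold dens; positivity) (fun n => ?_) h1
  have h3 : (1 : ℝ) ≤ (nTwo n : ℝ) := by exact_mod_cast one_le_nTwo n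
  have h5 : (nTwo n : ℝ) ≤ (nNil n : ℝ) := by
    rw [nNil_eq n]
    push_cast
    have : (0 : ℝ) ≤ (Nat.card {H : Subgroup (Perm (Fin n)) // Group.IsNilpotent H ∧ ¬ Two H} : ℝ) := by positivity
    linarith
  have h0' : (0 : ℝ) < (nNil n : ℝ) := by linarith
  have h6 : Nat.card {H : Subgroup (Perm (Fin n)) // Group.IsNilpotent H ∧ m ∣ Nat.card H} ≤
      Nat.card {H : Subgroup (Perm (Fin n)) // Group.IsNilpotent H ∧ ¬ Two H} := by
    refine Nat.card_le_card_of_injective (fun H => ⟨H.1, H.2.1, ?_⟩) fun H K hHK => ?_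
    · rintro ⟨k, hk⟩
      have h7 := H.2.2
      rw [hk, Nat.dvd_prime_pow Nat.prime_two] at h7
      obtain ⟨a, _, ha⟩ := h7
      exact hm ⟨a, ha⟩
    · exact Subtype.ext (Subtype.mk.inj hHK)
  have h6' : (Nat.card {H : Subgroup (Perm (Fin n)) // Group.IsNilpotent H ∧ m ∣ Nat.card H} : ℝ) ≤
      (nNil n : ℝ) - nTwo n := by
    rw [nNil_eq n]
    push_cast
    have : (Nat.card {H : Subgroup (Perm (Fin n)) // Group.IsNilpotent H ∧ m ∣ Nat.card H} : ℝ) ≤
      (Nat.card {H : Subgroup (Perm (Fin n)) // Group.IsNilpotent H ∧ ¬ Two H} : ℝ) := by exact_mod_cast h6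
    linarith
  change (Nat.card {H : Subgroup (Perm (Fin n)) // Group.IsNilpotent H ∧ m ∣ Nat.card H} : ℝ) / (nNil n : ℝ) ≤ _
  have h8 : 1 - (nTwo n : ℝ) / (nNil n : ℝ) = ((nNil n : ℝ) - nTwo n) / (nNil n : ℝ) := by
    field_simp
  rw [h8]
  exact div_le_div_of_nonneg_right h6' h0'.le

/-- Almost all nilpotent subgroups of the symmetric groups are 2-groups, and the limiting densities. -/
theorem main : Tendsto (fun n : ℕ => (nTwo n : ℝ) / (nNil n : ℝ)) atTop (𝓝 1) ∧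
    (∀ m : ℕ, (∃ a : ℕ, m = 2 ^ a) → Tendsto (fun n : ℕ => dens n m) atTop (𝓝 1)) ∧
    ∀ m : ℕ, (¬ ∃ a : ℕ, m = 2 ^ a) → Tendsto (fun n : ℕ => dens n m) atTop (𝓝 0) := by
  refine ⟨ratio_tendsto, ?_, dens_other⟩
  rintro m ⟨a, rfl⟩
  exact dens_two a

end Pool.Agent.NilS
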