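import Pool.Agent.NilS.Defs

/-!
MP_7fa120_al, nilpotent subgroups. A finite nilpotent group is the product of a 2-group and a group of odd order which
commute; 2-groups are nilpotent.

Proof of `exists_pair`. A finite nilpotent group `G` is the direct product of its Sylow subgroups (`isNilpotent_of_finite_tfae`,
`Sylow.directProductOfNormal`, ...). Let `P` be the Sylow 2-subgroup and `Q` the kernel of the projection of `G` onto `P`; both are
normal, `P ⊓ Q = ⊥`, `P ⊔ Q = ⊤`, so they commute elementwise, the order of `P` is a power of two and the order of `Q` is odd;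
`Q` is nilpotent as a subgroup of `G`. Apply this to the group `H` and map into `Perm Ω`.
`two_nil`: `IsPGroup.isNilpotent`.
-/

set_option autoImplicit false

namespace Pool.Agent.NilS

open Equiv

private theorem pairG {G : Type} [Group G] [Finite G] (h : Group.IsNilpotent G) :
    ∃ P Q : Subgroup G, (∃ k : ℕ, Nat.card P = 2 ^ k) ∧ Odd (Nat.card Q) ∧
      (∀ p ∈ P, ∀ q ∈ Q, p * q = q * p) ∧ P ⊔ Q = ⊤ := by
  classical
  by_cases h2 : 2 ∈ (Nat.card G).primeFactors
  · obtain ⟨e⟩ := (Group.isNilpotent_of_finite_tfae (G := G).out 0 4 rfl rfl).mp h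
    set i0 : (Nat.card G).primeFactors := ⟨2, h2⟩ with hi0
    let M : (Nat.card G).primeFactors → Type := fun p => ∀ P : Sylow p G, (P : Subgroup G)
    let P' : Subgroup (∀ i, M i) := (MonoidHom.mulSingle M i0).range
    let Q' : Subgroup (∀ i, M i) := (Pi.evalMonoidHom M i0).ker
    have hfin : Finite (∀ i, M i) := Finite.of_equiv G e.toEquiv.symm
    have hcomm : ∀ p ∈ P', ∀ q ∈ Q', p * q = q * p := by
      rintro p ⟨x, rfl⟩ q hq
      have hq1 : q i0 = 1 := hq
      funext i
      by_cases hi : i = i0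
      · subst hi
        rw [Pi.mul_apply, Pi.mul_apply, hq1, mul_one, one_mul]
      · have h3 : (MonoidHom.mulSingle M i0) x i = 1 := by
          rw [MonoidHom.mulSingle_apply, Pi.mulSingle_eq_of_ne hi]
        rw [Pi.mul_apply, Pi.mul_apply, h3, mul_one, one_mul]
    have hsup : P' ⊔ Q' = ⊤ := by
      rw [eq_top_iff]
      intro g _
      have h3 : g = (MonoidHom.mulSingle M i0) (g i0) * ((MonoidHom.mulSingle M i0) (g i0))⁻¹ * g := by
        rw [mul_inv_cancel, one_mul]
      rw [h3, mul_assoc]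
      refine Subgroup.mul_mem _ (Subgroup.mem_sup_left ⟨_, rfl⟩) (Subgroup.mem_sup_right ?_)
      change (((MonoidHom.mulSingle M i0) (g i0))⁻¹ * g) i0 = 1
      rw [Pi.mul_apply, Pi.inv_apply, MonoidHom.mulSingle_apply, Pi.mulSingle_eq_same, inv_mul_cancel]
    have hP2 : IsPGroup 2 P' := by
      have h4 : IsPGroup 2 (M i0) := by
        intro x
        have h5 : ∀ P : Sylow 2 G, ∃ k : ℕ, (x P) ^ 2 ^ k = 1 := fun P => P.2 (x P)
        choose k hk using h5
        have h6 : Finite (Sylow 2 G) := inferInstance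
        have h7 := Fintype.ofFinite (Sylow 2 G)
        refine ⟨∑ P, k P, ?_⟩
        funext P
        rw [Pi.pow_apply, Pi.one_apply]
        have h8 : k P ≤ ∑ P, k P := Finset.single_le_sum (fun _ _ => Nat.zero_le _) (Finset.mem_univ P)
        obtain ⟨c, hc⟩ := Nat.exists_eq_add_of_le h8
        rw [hc, pow_add, pow_mul, hk P, one_pow]
      have h5 : IsPGroup 2 (⊤ : Subgroup (M i0)) := h4.to_subgroup _
      have h6 := h5.map (MonoidHom.mulSingle M i0)
      rwa [← MonoidHom.range_eq_map] at h6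
    have hQ2 : Odd (Nat.card Q') := by
      by_contra hc
      rw [Nat.not_odd_iff_even] at hc
      have h3 : 2 ∣ Nat.card Q' := hc.two_dvd
      obtain ⟨q, hq⟩ := exists_prime_orderOf_dvd_card' 2 h3
      have hq2 : (q : ∀ i, M i) ^ 2 = 1 := by
        have := pow_orderOf_eq_one q
        rw [hq] at this
        exact congrArg Subtype.val this
      have hq1 : (q : ∀ i, M i) i0 = 1 := q.2
      have hq3 : (q : ∀ i, M i) = 1 := by
        funext i
        by_cases hi : i = i0
        · subst hi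
          exact hq1
        · have hi2 : (i : ℕ) ≠ 2 := fun h4 => hi (Subtype.ext h4)
          have hip : (i : ℕ).Prime := Nat.prime_of_mem_primeFactors i.2
          funext P
          have h5 : ((q : ∀ i, M i) i P) ^ 2 = 1 := congrFun (congrFun hq2 i) P
          obtain ⟨k, hk⟩ := P.2 ((q : ∀ i, M i) i P)
          have h6 : Nat.Coprime 2 ((i : ℕ) ^ k) :=
            Nat.Coprime.pow_right _ ((Nat.coprime_primes Nat.prime_two hip).mpr (Ne.symm hi2))
          have h7 : orderOf ((q : ∀ i, M i) i P) ∣ Nat.gcd 2 ((i : ℕ) ^ k) :=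
            Nat.dvd_gcd (orderOf_dvd_of_pow_eq_one h5) (orderOf_dvd_of_pow_eq_one hk)
          rw [h6, Nat.dvd_one, orderOf_eq_one_iff] at h7
          exact h7
      have hq4 : q = 1 := Subtype.ext hq3
      rw [hq4, orderOf_one] at hq
      exact absurd hq (by norm_num)
    refine ⟨P'.map e.toMonoidHom, Q'.map e.toMonoidHom, ?_, ?_, ?_, ?_⟩
    · obtain ⟨k, hk⟩ := IsPGroup.iff_card.mp hP2
      exact ⟨k, by rw [← hk, Subgroup.card_map_of_injective e.injective]⟩
    · rw [Subgroup.card_map_of_injective e.injective]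
      exact hQ2
    · rintro _ ⟨p, hp, rfl⟩ _ ⟨q, hq, rfl⟩
      rw [← map_mul, ← map_mul, hcomm p hp q hq]
    · rw [← Subgroup.map_sup, hsup, ← MonoidHom.range_eq_map]
      exact MonoidHom.range_eq_top.mpr e.surjective
  · refine ⟨⊥, ⊤, ⟨0, by simp⟩, ?_, ?_, by simp⟩
    · rw [Subgroup.card_top]
      by_contra hc
      rw [Nat.not_odd_iff_even] at hc
      exact h2 (Nat.mem_primeFactors.mpr ⟨Nat.prime_two, hc.two_dvd, Nat.card_pos.ne'⟩)
    · intro p hp q _
      rw [Subgroup.mem_bot.mp hp, one_mul, mul_one]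

theorem exists_pair {Ω : Type} [Finite Ω] (H : Subgroup (Perm Ω)) (h : Group.IsNilpotent H) :
    ∃ P Q : Subgroup (Perm Ω), CP P Q ∧ P ⊔ Q = H := by
  obtain ⟨P, Q, ⟨k, hk⟩, hQ, hc, hs⟩ := pairG h
  have hinj : Function.Injective H.subtype := H.subtype_injective
  refine ⟨P.map H.subtype, Q.map H.subtype, ⟨⟨k, ?_⟩, ⟨?_, ?_⟩, ?_⟩, ?_⟩
  · rw [Subgroup.card_map_of_injective hinj, hk]
  · have h1 : Group.IsNilpotent Q := inferInstance
    exact Group.nilpotent_of_mulEquiv (Q.equivMapOfInjective H.subtype hinj)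
  · rw [Subgroup.card_map_of_injective hinj]
    exact hQ
  · rintro _ ⟨p, hp, rfl⟩ _ ⟨q, hq, rfl⟩
    rw [← map_mul, ← map_mul, hc p hp q hq]
  · rw [← Subgroup.map_sup, hs, ← MonoidHom.range_eq_map, Subgroup.range_subtype]

theorem two_nil {Ω : Type} [Finite Ω] {H : Subgroup (Perm Ω)} (h : Two H) : Group.IsNilpotent H := by
  obtain ⟨k, hk⟩ := h
  have h1 : IsPGroup 2 H := IsPGroup.iff_card.mpr ⟨k, hk⟩
  exact h1.isNilpotent

end Pool.Agent.NilS
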