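import Pool.Agent.NilS.Defs

/-!
MP_7fa120_al, nilpotent subgroups. Restriction of a permutation group to an invariant set: elementary facts.

`exists_resHom`: for `h ∈ H` put `f h x = h x` if `x ∈ U` and `f h x = x` otherwise (a permutation because `U` is finite and
invariant under `h` and `h⁻¹`). Its range is `res H U` and its kernel `fx H U`, which gives `card_res`, `odn_res`, `fx_normal`.
`odn_le`: subgroups of nilpotent groups are nilpotent, and the order of a subgroup divides the order of the group.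
-/

set_option autoImplicit false

namespace Pool.Agent.NilS

open Equiv

theorem odn_le {Ω : Type} [Finite Ω] {H K : Subgroup (Perm Ω)} (h : Odn H) (hK : K ≤ H) : Odn K := by
  obtain ⟨h1, h2⟩ := h
  refine ⟨?_, ?_⟩
  · have h3 : Group.IsNilpotent (K.subgroupOf H) := inferInstance
    exact (Group.isNilpotent_congr (Subgroup.subgroupOfEquivOfLe hK)).1 h3
  · obtain ⟨m, hm⟩ := Subgroup.card_dvd_of_le hK
    rw [hm] at h2
    exact (Nat.odd_mul.1 h2).1

/-- An invariant set is invariant in both directions. -/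
private lemma inv_iff {Ω : Type} {H : Subgroup (Perm Ω)} {U : Finset Ω} (hU : Inv H U) {h : Perm Ω}
    (hh : h ∈ H) (x : Ω) : h x ∈ U ↔ x ∈ U := by
  refine ⟨fun hx => ?_, hU h hh x⟩
  have h1 := hU h⁻¹ (H.inv_mem hh) _ hx
  have h2 : h⁻¹ (h x) = x := by
    rw [← Perm.mul_apply, inv_mul_cancel, Perm.one_apply]
  rwa [h2] at h1

theorem exists_resHom {Ω : Type} [Finite Ω] (H : Subgroup (Perm Ω)) (U : Finset Ω) (hU : Inv H U) :
    ∃ f : H →* Perm Ω, f.range = res H U ∧ (∀ (h : H) (x : Ω), x ∈ U → f h x = (h : Perm Ω) x) ∧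
      (∀ (h : H) (x : Ω), x ∉ U → f h x = x) ∧ ∀ h : H, f h = 1 ↔ (h : Perm Ω) ∈ fx H U := by
  classical
  let f₀ : H → Perm {x // x ∈ U} := fun h => Perm.subtypePerm (h : Perm Ω) (inv_iff hU h.2)
  have hmul : ∀ h k : H, f₀ (h * k) = f₀ h * f₀ k := by
    intro h k
    ext x
    rfl
  let f₁ : H →* Perm {x // x ∈ U} := MonoidHom.mk' f₀ hmul
  let f : H →* Perm Ω := Perm.ofSubtype.comp f₁
  have h1 : ∀ (h : H) (x : Ω), x ∈ U → f h x = (h : Perm Ω) x := by
    intro h x hx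
    show Perm.ofSubtype (f₀ h) x = _
    rw [Perm.ofSubtype_apply_of_mem _ hx]
    rfl
  have h2 : ∀ (h : H) (x : Ω), x ∉ U → f h x = x := by
    intro h x hx
    show Perm.ofSubtype (f₀ h) x = _
    rw [Perm.ofSubtype_apply_of_not_mem _ hx]
  refine ⟨f, ?_, h1, h2, ?_⟩
  · ext σ
    rw [MonoidHom.mem_range, mem_res]
    constructor
    · rintro ⟨h, rfl⟩
      exact ⟨h2 h, h.1, h.2, h1 h⟩
    · rintro ⟨h3, h, hh, h4⟩
      refine ⟨⟨h, hh⟩, ?_⟩
      ext x
      by_cases hx : x ∈ U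
      · rw [h1 _ x hx, h4 x hx]
      · rw [h2 _ x hx, h3 x hx]
  · intro h
    rw [mem_fx]
    constructor
    · intro h3
      refine ⟨h.2, fun x hx => ?_⟩
      rw [← h1 h x hx, h3, Perm.one_apply]
    · rintro ⟨-, h3⟩
      ext x
      by_cases hx : x ∈ U
      · rw [h1 _ x hx, h3 x hx, Perm.one_apply]
      · rw [h2 _ x hx, Perm.one_apply]

theorem card_res {Ω : Type} [Finite Ω] (H : Subgroup (Perm Ω)) (U : Finset Ω) (hU : Inv H U) :
    Nat.card H = Nat.card (res H U) * Nat.card (fx H U) := by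
  obtain ⟨f, h1, -, -, h4⟩ := exists_resHom H U hU
  have h5 := Subgroup.card_eq_card_quotient_mul_card_subgroup f.ker
  have h6 : Nat.card (H ⧸ f.ker) = Nat.card (res H U) := by
    rw [← h1]
    exact Nat.card_congr (QuotientGroup.quotientKerEquivRange f).toEquiv
  have h7 : Nat.card f.ker = Nat.card (fx H U) :=
    Nat.card_congr
      { toFun := fun h => ⟨h.1.1, (h4 h.1).1 (MonoidHom.mem_ker.1 h.2)⟩
        invFun := fun h => ⟨⟨h.1, h.2.1⟩, MonoidHom.mem_ker.2 ((h4 ⟨h.1, h.2.1⟩).2 h.2)⟩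
        left_inv := fun _ => rfl
        right_inv := fun _ => rfl }
  rw [h5, h6, h7]

theorem odn_res {Ω : Type} [Finite Ω] {H : Subgroup (Perm Ω)} {U : Finset Ω} (h : Odn H) (hU : Inv H U) :
    Odn (res H U) := by
  obtain ⟨h1, h2⟩ := h
  refine ⟨?_, ?_⟩
  · obtain ⟨f, h3, -, -, -⟩ := exists_resHom H U hU
    rw [← h3]
    exact Group.nilpotent_of_surjective f.rangeRestrict f.rangeRestrict_surjective
  · rw [card_res H U hU] at h2
    exact (Nat.odd_mul.1 h2).1

theorem fx_normal {Ω : Type} [Finite Ω] {H : Subgroup (Perm Ω)} {U : Finset Ω} (hU : Inv H U) :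
    ((fx H U).subgroupOf H).Normal := by
  obtain ⟨f, -, -, -, h4⟩ := exists_resHom H U hU
  have h5 : (fx H U).subgroupOf H = f.ker := by
    ext h
    rw [Subgroup.mem_subgroupOf, MonoidHom.mem_ker, h4]
  rw [h5]
  infer_instance

theorem inv_res {Ω : Type} [Finite Ω] {H : Subgroup (Perm Ω)} {U V : Finset Ω} (hV : Inv H V) (h : V ⊆ U) :
    Inv (res H U) V := by
  rintro σ ⟨-, k, hk, hσ⟩ x hx
  rw [hσ x (h hx)]
  exact hV k hk x hx

theorem orb_res {Ω : Type} [Finite Ω] {H : Subgroup (Perm Ω)} {U V : Finset Ω} (hU : Inv H U) (hV : Orb H V)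
    (h : V ⊆ U) : Orb (res H U) V := by
  obtain ⟨f, h1, h2, -, -⟩ := exists_resHom H U hU
  refine ⟨inv_res hV.1 h, hV.2.1, fun x hx y hy => ?_⟩
  obtain ⟨k, hk, hkx⟩ := hV.2.2 x hx y hy
  refine ⟨f ⟨k, hk⟩, ?_, ?_⟩
  · rw [← h1]
    exact ⟨_, rfl⟩
  · rw [h2 _ x (h hx)]
    exact hkx

theorem res_res {Ω : Type} [Finite Ω] {H : Subgroup (Perm Ω)} {U V : Finset Ω} (hU : Inv H U) (hV : Inv H V)
    (h : V ⊆ U) : res (res H U) V = res H V := by
  obtain ⟨f, h1, h2, -, -⟩ := exists_resHom H U hU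
  ext σ
  rw [mem_res, mem_res]
  constructor
  · rintro ⟨h3, τ, ⟨-, k, hk, hτ⟩, h4⟩
    exact ⟨h3, k, hk, fun x hx => by rw [h4 x hx, hτ x (h hx)]⟩
  · rintro ⟨h3, k, hk, h4⟩
    refine ⟨h3, f ⟨k, hk⟩, ?_, fun x hx => ?_⟩
    · rw [← h1]
      exact ⟨_, rfl⟩
    · rw [h2 _ x (h hx)]
      exact h4 x hx

/-- A subgroup which moves no point outside `U` is its restriction. -/
theorem res_self {Ω : Type} [Finite Ω] {H : Subgroup (Perm Ω)} {U : Finset Ω} (hs : ∀ h ∈ H, ∀ x, x ∉ U → h x = x) :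
    res H U = H := by
  ext σ
  rw [mem_res]
  constructor
  · rintro ⟨h1, k, hk, h2⟩
    have h3 : σ = k := by
      ext x
      by_cases hx : x ∈ U
      · exact h2 x hx
      · rw [h1 x hx, hs k hk x hx]
    rw [h3]
    exact hk
  · intro h1
    exact ⟨hs σ h1, σ, h1, fun x _ => rfl⟩

end Pool.Agent.NilS
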