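import Pool.Agent.NilS.Cen

/-!
MP_7fa120_al, nilpotent subgroups. A block system with blocks of prime size `p` on which the kernel acts by a power of `C_p`.

Proof. Take `z`, `p = q` from `exists_central G X hX`. Let `Y` be the set of orbits of `Subgroup.zpowers z` on `X` (a quotient type;
all orbits have exactly `p` elements because `z ^ p` acts trivially, `p` is prime and `z` has no fixed point, so
`Nat.card X = p * Nat.card Y`). `G` acts on `Y` because its elements commute with `z` on `X`; the action is transitive and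
an element which acts trivially on `X` acts trivially on `Y`. If `n` acts trivially on `Y` then for every `x` there is
`c` with `n • x = z ^ c • x`, `c` is unique modulo `p`, and it is the same for `z • x`, so it depends only on the orbit `y`
of `x`; put `ψ n y = c`. It is additive (`n n' • x = n • z ^ c' • x = z ^ c' • n • x = z ^ (c + c') • x`), it is zero
if and only if `n` acts trivially on `X`, and if `b = g a g⁻¹`, `x ∈ y` then
`b • x = g • a • (g⁻¹ • x) = g • z ^ c • g⁻¹ • x = z ^ c • x` with `c = ψ a (g⁻¹ • y)`.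
-/

set_option autoImplicit false

namespace Pool.Agent.NilS

section BlkAux

variable {G : Type} [Group G] {X : Type} [MulAction G X] {ζ : Equiv.Perm X}

theorem blk_comm (hc : ∀ (g : G) (x : X), g • ζ x = ζ (g • x)) (g : G) (i : ℤ) (x : X) :
    g • (ζ ^ i) x = (ζ ^ i) (g • x) := by
  have h : Commute (MulAction.toPermHom G X g) ζ := Equiv.ext fun x => hc g x
  exact congrArg (fun σ : Equiv.Perm X => σ x) (h.zpow_right i).eq

/-- the action on the cycles of a permutation which commutes with the group -/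
@[reducible] def blkAct (hc : ∀ (g : G) (x : X), g • ζ x = ζ (g • x)) :
    MulAction G (Quotient (Equiv.Perm.SameCycle.setoid ζ)) where
  smul g := Quotient.map (fun x => g • x) (fun x y h => by
    obtain ⟨i, hi⟩ := h
    exact ⟨i, by rw [← blk_comm hc, hi]⟩)
  one_smul := by
    rintro ⟨x⟩
    exact congrArg (Quotient.mk (Equiv.Perm.SameCycle.setoid ζ)) (one_smul G x)
  mul_smul := by
    rintro g h ⟨x⟩
    exact congrArg (Quotient.mk (Equiv.Perm.SameCycle.setoid ζ)) (mul_smul g h x)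

variable {p : ℕ}

theorem blk_free (hp : p.Prime) (hzp : ζ ^ p = 1) (hzx : ∀ x, ζ x ≠ x) {i : ℤ} {x : X}
    (h : (ζ ^ i) x = x) : (i : ZMod p) = 0 := by
  rw [ZMod.intCast_zmod_eq_zero_iff_dvd]
  by_contra hcon
  have hco : IsCoprime i (p : ℤ) := by
    have h1 : IsCoprime (p : ℤ) i := (Prime.coprime_iff_not_dvd (Nat.prime_iff_prime_int.mp hp)).mpr hcon
    exact h1.symm
  obtain ⟨u, v, huv⟩ := hco
  apply hzx x
  have h2 : ζ = ζ ^ (u * i + v * (p : ℤ)) := by rw [huv, zpow_one]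
  have h3 : ζ ^ (u * i + v * (p : ℤ)) = (ζ ^ i) ^ u := by
    rw [zpow_add, mul_comm u i, zpow_mul, mul_comm v (p : ℤ), zpow_mul, zpow_natCast, hzp, one_zpow,
      mul_one]
  have h4 : ((ζ ^ i) ^ u) x = x := Equiv.Perm.zpow_apply_eq_self_of_apply_eq_self h u
  rw [← h3, ← h2] at h4
  exact h4

theorem blk_eq (hzp : ζ ^ p = 1) {i j : ℤ} (h : (i : ZMod p) = (j : ZMod p)) : ζ ^ i = ζ ^ j := by
  obtain ⟨c, hc⟩ := (ZMod.intCast_eq_intCast_iff_dvd_sub i j p).mp h
  have h1 : j = i + (p : ℤ) * c := by linarith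
  rw [h1, zpow_add, zpow_mul, zpow_natCast, hzp, one_zpow, mul_one]

theorem blk_inj (hp : p.Prime) (hzp : ζ ^ p = 1) (hzx : ∀ x, ζ x ≠ x) {i j : ℤ} {x : X}
    (h : (ζ ^ i) x = (ζ ^ j) x) : (i : ZMod p) = (j : ZMod p) := by
  have h1 : (ζ ^ (i - j)) x = x := by
    have h2 : ζ ^ (i - j) = ζ ^ (-j) * ζ ^ i := by rw [← zpow_add]; congr 1; ring
    rw [h2, Equiv.Perm.mul_apply, h, ← Equiv.Perm.mul_apply, ← zpow_add, neg_add_cancel, zpow_zero]
    rfl
  have h3 := blk_free hp hzp hzx h1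
  rw [Int.cast_sub] at h3
  exact sub_eq_zero.mp h3

theorem blk_card [Finite X] (hp : p.Prime) (hzp : ζ ^ p = 1) (hzx : ∀ x, ζ x ≠ x) :
    Nat.card X = p * Nat.card (Quotient (Equiv.Perm.SameCycle.setoid ζ)) := by
  have : Fact p.Prime := ⟨hp⟩
  have : NeZero p := ⟨hp.ne_zero⟩
  let f : ZMod p × Quotient (Equiv.Perm.SameCycle.setoid ζ) → X := fun cy => (ζ ^ ((cy.1.val : ℕ) : ℤ)) cy.2.out
  have hf : Function.Bijective f := by
    constructor
    · rintro ⟨c, y⟩ ⟨c', y'⟩ h
      have h : (ζ ^ ((c.val : ℕ) : ℤ)) y.out = (ζ ^ ((c'.val : ℕ) : ℤ)) y'.out := h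
      have h1 : y = y' := by
        rw [← Quotient.out_eq y, ← Quotient.out_eq y']
        apply Quotient.sound
        refine ⟨((c.val : ℕ) : ℤ) - ((c'.val : ℕ) : ℤ), ?_⟩
        have h2 : ζ ^ (((c.val : ℕ) : ℤ) - ((c'.val : ℕ) : ℤ)) =
            ζ ^ (-((c'.val : ℕ) : ℤ)) * ζ ^ ((c.val : ℕ) : ℤ) := by rw [← zpow_add]; congr 1; ring
        rw [h2, Equiv.Perm.mul_apply, h, ← Equiv.Perm.mul_apply, ← zpow_add, neg_add_cancel, zpow_zero]
        rfl
      subst h1
      have h3 := blk_inj hp hzp hzx h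
      rw [Int.cast_natCast, Int.cast_natCast, ZMod.natCast_zmod_val, ZMod.natCast_zmod_val] at h3
      rw [h3]
    · intro x
      obtain ⟨i, hi⟩ : Equiv.Perm.SameCycle ζ (Quotient.mk (Equiv.Perm.SameCycle.setoid ζ) x).out x :=
        Quotient.exact (Quotient.out_eq (Quotient.mk (Equiv.Perm.SameCycle.setoid ζ) x))
      refine ⟨((i : ZMod p), Quotient.mk (Equiv.Perm.SameCycle.setoid ζ) x), ?_⟩
      show (ζ ^ ((((i : ZMod p)).val : ℕ) : ℤ)) (Quotient.mk (Equiv.Perm.SameCycle.setoid ζ) x).out = x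
      have h1 : ζ ^ ((((i : ZMod p)).val : ℕ) : ℤ) = ζ ^ i := by
        apply blk_eq hzp
        rw [Int.cast_natCast, ZMod.natCast_zmod_val]
      rw [h1]
      exact hi
  rw [← Nat.card_congr (Equiv.ofBijective f hf), Nat.card_prod, Nat.card_zmod]

end BlkAux

theorem exists_block (G : Type) [Group G] [Finite G] [Group.IsNilpotent G] (X : Type) [Finite X] [MulAction G X]
    [MulAction.IsPretransitive G X] (hX : 1 < Nat.card X) :
    ∃ (p : ℕ) (Y : Type) (_ : Finite Y) (_ : MulAction G Y), p.Prime ∧ p ∣ Nat.card G ∧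
      Nat.card X = p * Nat.card Y ∧ MulAction.IsPretransitive G Y ∧
      (MulAction.toPermHom G X).ker ≤ (MulAction.toPermHom G Y).ker ∧
      ∃ ψ : (MulAction.toPermHom G Y).ker → (Y → ZMod p), (∀ a b, ψ (a * b) = ψ a + ψ b) ∧
        (∀ a, ψ a = 0 ↔ (a : G) ∈ (MulAction.toPermHom G X).ker) ∧
        ∀ (g : G) (a b : (MulAction.toPermHom G Y).ker), (b : G) = g * a * g⁻¹ → ∀ y : Y, ψ b y = ψ a (g⁻¹ • y) := by
  obtain ⟨z, p, hp, hpG, hcomm, hzp', hzx'⟩ := exists_central G X hX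
  obtain ⟨ζ, hζ⟩ : ∃ ζ : Equiv.Perm X, ∀ x, ζ x = z • x := ⟨MulAction.toPermHom G X z, fun x => rfl⟩
  have hc : ∀ (g : G) (x : X), g • ζ x = ζ (g • x) := fun g x => by rw [hζ, hζ, hcomm]
  have hζp : ∀ (k : ℕ) (x : X), (ζ ^ k) x = z ^ k • x := by
    intro k
    induction k with
    | zero => intro x; rw [pow_zero, pow_zero, one_smul]; rfl
    | succ k ih => intro x; rw [pow_succ, Equiv.Perm.mul_apply, ih, hζ, pow_succ, mul_smul]
  have hzp : ζ ^ p = 1 := Equiv.ext fun x => by rw [hζp, hzp']; rfl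
  have hzx : ∀ x, ζ x ≠ x := fun x => by rw [hζ]; exact hzx' x
  let act : MulAction G (Quotient (Equiv.Perm.SameCycle.setoid ζ)) := blkAct hc
  have hsm : ∀ (g : G) (x : X), g • (Quotient.mk (Equiv.Perm.SameCycle.setoid ζ) x) =
      Quotient.mk (Equiv.Perm.SameCycle.setoid ζ) (g • x) := fun g x => rfl
  have hex : ∀ (a : (MulAction.toPermHom G (Quotient (Equiv.Perm.SameCycle.setoid ζ))).ker) (x : X),
      ∃ i : ℤ, (a : G) • x = (ζ ^ i) x := by
    intro a x
    have h1 : (a : G) • (Quotient.mk (Equiv.Perm.SameCycle.setoid ζ) x) =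
        Quotient.mk (Equiv.Perm.SameCycle.setoid ζ) x := by
      have h2 := MonoidHom.mem_ker.mp a.2
      exact congrArg (fun σ : Equiv.Perm (Quotient (Equiv.Perm.SameCycle.setoid ζ)) =>
        σ (Quotient.mk (Equiv.Perm.SameCycle.setoid ζ) x)) h2
    rw [hsm] at h1
    obtain ⟨i, hi⟩ : Equiv.Perm.SameCycle ζ x ((a : G) • x) := Quotient.exact h1.symm
    exact ⟨i, hi.symm⟩
  choose e he using hex
  let ψ : (MulAction.toPermHom G (Quotient (Equiv.Perm.SameCycle.setoid ζ))).ker →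
      (Quotient (Equiv.Perm.SameCycle.setoid ζ) → ZMod p) := fun a y => (e a y.out : ZMod p)
  have hψ : ∀ (a : (MulAction.toPermHom G (Quotient (Equiv.Perm.SameCycle.setoid ζ))).ker) (x : X) (i : ℤ),
      (a : G) • x = (ζ ^ i) x → ψ a (Quotient.mk (Equiv.Perm.SameCycle.setoid ζ) x) = (i : ZMod p) := by
    intro a x i h
    obtain ⟨j, hj⟩ : Equiv.Perm.SameCycle ζ (Quotient.mk (Equiv.Perm.SameCycle.setoid ζ) x).out x :=
      Quotient.exact (Quotient.out_eq (Quotient.mk (Equiv.Perm.SameCycle.setoid ζ) x))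
    show (e a (Quotient.mk (Equiv.Perm.SameCycle.setoid ζ) x).out : ZMod p) = (i : ZMod p)
    have h1 := he a (Quotient.mk (Equiv.Perm.SameCycle.setoid ζ) x).out
    generalize (Quotient.mk (Equiv.Perm.SameCycle.setoid ζ) x).out = x₀ at hj h1
    apply blk_inj hp hzp hzx (x := x)
    rw [← h, ← hj, blk_comm hc, h1, ← Equiv.Perm.mul_apply, ← Equiv.Perm.mul_apply, ← zpow_add, ← zpow_add,
      add_comm]
  refine ⟨p, Quotient (Equiv.Perm.SameCycle.setoid ζ), inferInstance, act, hp, hpG, blk_card hp hzp hzx, ?_, ?_, ψ, ?_, ?_, ?_⟩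
  · constructor
    rintro ⟨x⟩ ⟨y⟩
    obtain ⟨g, hg⟩ := MulAction.exists_smul_eq G x y
    exact ⟨g, (hsm g x).trans (congrArg _ hg)⟩
  · intro g hg
    rw [MonoidHom.mem_ker] at hg ⊢
    ext y
    obtain ⟨x⟩ := y
    have h1 : g • x = x := congrArg (fun σ : Equiv.Perm X => σ x) hg
    exact (hsm g x).trans (congrArg _ h1)
  · intro a b
    funext y
    obtain ⟨x⟩ := y
    have ha := he a x
    have hb := he b x
    have hab : ((a * b : (MulAction.toPermHom G (Quotient (Equiv.Perm.SameCycle.setoid ζ))).ker) : G) • x =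
        (ζ ^ (e a x + e b x)) x := by
      rw [Subgroup.coe_mul, mul_smul, hb, blk_comm hc, ha, ← Equiv.Perm.mul_apply, ← zpow_add, add_comm]
    have h1 := hψ (a * b) x _ hab
    have h2 := hψ a x _ ha
    have h3 := hψ b x _ hb
    show ψ (a * b) (Quotient.mk (Equiv.Perm.SameCycle.setoid ζ) x) =
      ψ a (Quotient.mk (Equiv.Perm.SameCycle.setoid ζ) x) + ψ b (Quotient.mk (Equiv.Perm.SameCycle.setoid ζ) x)
    rw [h1, h2, h3, Int.cast_add]
  · intro a
    constructor
    · intro h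
      rw [MonoidHom.mem_ker]
      ext x
      have ha := he a x
      have h2 := hψ a x _ ha
      rw [h] at h2
      have h3 : ζ ^ (e a x) = ζ ^ (0 : ℤ) := by
        apply blk_eq hzp
        rw [← h2, Int.cast_zero]
        rfl
      rw [h3, zpow_zero] at ha
      exact ha
    · intro h
      funext y
      obtain ⟨x⟩ := y
      have h1 : (a : G) • x = (ζ ^ (0 : ℤ)) x := by
        rw [zpow_zero]
        exact congrArg (fun σ : Equiv.Perm X => σ x) (MonoidHom.mem_ker.mp h)
      have h2 := hψ a x _ h1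
      rw [Int.cast_zero] at h2
      exact h2
  · intro g a b hb y
    obtain ⟨x⟩ := y
    have ha := he a (g⁻¹ • x)
    have h1 : (b : G) • x = (ζ ^ (e a (g⁻¹ • x))) x := by
      rw [hb, mul_smul, mul_smul, ha, blk_comm hc, smul_inv_smul]
    have h2 := hψ b x _ h1
    have h3 := hψ a (g⁻¹ • x) _ ha
    exact h2.trans h3.symm

end Pool.Agent.NilS
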