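import Pool.Agent.NilS.Defs

/-!
MP_7fa120_al, nilpotent subgroups. A transitive nilpotent group has an element which acts as a fixed-point-free central
permutation of prime order.

Proof. Let `R = (MulAction.toPermHom G X).range`, a quotient of `G`, so nilpotent and finite, and nontrivial because `G` is
transitive and `1 < Nat.card X`. Its centre is nontrivial (`Group.IsNilpotent.center_ne_bot`), so it contains an
element `ζ` of prime order `q` (Cauchy, `exists_prime_orderOf_dvd_card'`), and `q ∣ Nat.card R`, which divides `Nat.card G`.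
Let `z` be a preimage of `ζ`. Then `g • z • x = z • g • x` and `z ^ q • x = x`. If `z • x = x` for some `x`, then
`z • g • x = g • x` for all `g`, so `ζ = 1` by transitivity, a contradiction.
-/

set_option autoImplicit false

namespace Pool.Agent.NilS

theorem exists_central (G : Type) [Group G] [Finite G] [Group.IsNilpotent G] (X : Type) [Finite X] [MulAction G X]
    [MulAction.IsPretransitive G X] (hX : 1 < Nat.card X) :
    ∃ (z : G) (q : ℕ), q.Prime ∧ q ∣ Nat.card G ∧ (∀ (g : G) (x : X), g • z • x = z • g • x) ∧
      (∀ x : X, z ^ q • x = x) ∧ ∀ x : X, z • x ≠ x := by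
  classical
  set R := (MulAction.toPermHom G X).range with hR
  have hRn : Group.IsNilpotent R :=
    Group.nilpotent_of_surjective (MulAction.toPermHom G X).rangeRestrict
      (MulAction.toPermHom G X).rangeRestrict_surjective
  have hfin : Finite R := inferInstance
  have hRnt : Nontrivial R := by
    have : Nontrivial X := Finite.one_lt_card_iff_nontrivial.mp hX
    obtain ⟨x, y, hxy⟩ := exists_pair_ne X
    obtain ⟨g, hg⟩ := MulAction.exists_smul_eq G x y
    refine ⟨⟨(MulAction.toPermHom G X).rangeRestrict g, 1, fun h => hxy ?_⟩⟩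
    have h2 := congrArg (fun σ : R => (σ : Equiv.Perm X) x) h
    have h3 : g • x = x := h2
    rw [← hg, h3]
  have hc := Group.IsNilpotent.center_ne_bot (G := R)
  have hc1 : 1 < Nat.card (Subgroup.center R) := (Subgroup.one_lt_card_iff_ne_bot _).mpr hc
  obtain ⟨q, hq, hqd⟩ := Nat.exists_prime_and_dvd (ne_of_gt hc1)
  have : Fact q.Prime := ⟨hq⟩
  obtain ⟨ζ, hζ⟩ := exists_prime_orderOf_dvd_card' (G := Subgroup.center R) q hqd
  obtain ⟨z, hz⟩ := (MulAction.toPermHom G X).rangeRestrict_surjective (ζ : R)
  have hzx : ∀ x : X, ((ζ : R) : Equiv.Perm X) x = z • x := by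
    intro x
    rw [← hz]
    rfl
  have hcomm : ∀ (g : G) (x : X), g • z • x = z • g • x := by
    intro g x
    have h1 := Subgroup.mem_center_iff.mp ζ.2 ((MulAction.toPermHom G X).rangeRestrict g)
    have h2 := congrArg (fun σ : R => (σ : Equiv.Perm X) x) h1
    rw [← hz] at h2
    exact h2
  refine ⟨z, q, hq, ?_, hcomm, ?_, ?_⟩
  · exact (hqd.trans (Subgroup.card_subgroup_dvd_card (Subgroup.center R))).trans
      (Subgroup.card_range_dvd (MulAction.toPermHom G X))
  · intro x
    have h1 : (ζ : R) ^ q = 1 := by
      have h2 : ζ ^ q = 1 := by rw [← hζ]; exact pow_orderOf_eq_one ζ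
      have h3 := congrArg (fun t : Subgroup.center R => (t : R)) h2
      simpa using h3
    rw [← hz, ← map_pow] at h1
    have h2 := congrArg (fun σ : R => (σ : Equiv.Perm X) x) h1
    exact h2
  · intro x hx
    have h1 : ζ = 1 := by
      apply Subtype.ext
      apply Subtype.ext
      ext y
      obtain ⟨g, rfl⟩ := MulAction.exists_smul_eq G x y
      rw [hzx, ← hcomm, hx]
      rfl
    rw [h1, orderOf_one] at hζ
    exact hq.one_lt.ne hζ

end Pool.Agent.NilS
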