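import Mathlib

/-!
MP_7fa120_al: the nilpotent subgroups of `S_n` are almost all 2-groups. Definitions and overview.

Theorem (`Main.lean`): `nTwo n / nNil n → 1`; among the nilpotent subgroups of `S_n` the proportion of those whose order is a
multiple of `m` tends to `1` if `m` is a power of two and to `0` otherwise.

Proof. (A) Let `H` be nilpotent of odd order on `m` points. An index `p ≥ 3` subgroup which contains a point stabiliser splits
an orbit into `p` parts; so `H` is generated by a subgroup `L` with all orbits of length at most `θ` and by at most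
`m log_3 m / θ` elements (`Red`). For `L` add the orbits `Δ_0, Δ_1, …` (sizes `s_0 ≥ s_1 ≥ …`) one after the other
(`Tow`): with `d_i` generators of the group `H_i` on the first `i` orbits and `K_i` the kernel of `H_{i+1} → H_i` there are at
most (bounded number) `· (|T_i| / |K_i|) ^ d_i` groups `H_{i+1}` over `H_i` (`StepC`), where `T_i` is the group on `Δ_i`,
`|T_i| ^ 2 ≤ 3 ^ (s_i - 1)` (`OrdT`), and `d_{i+1} ≤ d_i + min (log_3 |K_i|) ((s_i + 3) / 6)` (`RankT`, `StepG`). The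
inequality `SI` gives `log (number) ≤ (8 / 243) log 3 m ^ 2 + o (m ^ 2)`, and `(8 / 243) log 3 < (1 / 17) log 2` (`OFin`).
(B) 2-groups: `nTwo (a + b) ≥ nTwo a * nTwo b`, `nTwo s ≥ 2 ^ (s ^ 2 / 16 - s)`, and `nTwo (m + 2) ≥ 2 ^ (√m) nTwo m / 2`, because
few groups have few generators and a 2-group with `d` generators (not fewer) has `2 ^ d` homomorphisms to `C_2`.
(C) A nilpotent `H` is `P × Q`, `P` a 2-group, `Q` of odd order. There are a set `Z` of `s ≥ 2` points such that `P` acts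
faithfully on the complement and a `Q`-invariant set `B'` of at most `s` points which determines `Q` (`PStr`); so at most
`∑_s n ^ (5 s) nTwo (n - s) nOdn s` nilpotent subgroups are not 2-groups (`PCnt`), and this is `o (nTwo n)` (`Ana`).
-/

set_option autoImplicit false

namespace Pool.Agent.NilS

open Equiv

/-- The number of nilpotent subgroups of `S_n`. -/
noncomputable def nNil (n : ℕ) : ℕ := Nat.card {H : Subgroup (Perm (Fin n)) // Group.IsNilpotent H}

/-- The order of `H` is a power of two. -/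
def Two {Ω : Type} (H : Subgroup (Perm Ω)) : Prop := ∃ k : ℕ, Nat.card H = 2 ^ k

/-- The number of subgroups of `S_n` whose order is a power of two. -/
noncomputable def nTwo (n : ℕ) : ℕ := Nat.card {H : Subgroup (Perm (Fin n)) // Two H}

/-- The proportion of the nilpotent subgroups of `S_n` whose order is a multiple of `m`. -/
noncomputable def dens (n m : ℕ) : ℝ :=
  (Nat.card {H : Subgroup (Perm (Fin n)) // Group.IsNilpotent H ∧ m ∣ Nat.card H} : ℝ) /
    (Nat.card {H : Subgroup (Perm (Fin n)) // Group.IsNilpotent H} : ℝ)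

/-- Nilpotent of odd order. -/
def Odn {Ω : Type} (H : Subgroup (Perm Ω)) : Prop := Group.IsNilpotent H ∧ Odd (Nat.card H)

/-- The number of nilpotent subgroups of odd order. -/
noncomputable def nOdn (n : ℕ) : ℕ := Nat.card {H : Subgroup (Perm (Fin n)) // Odn H}

/-- The number of all subgroups. -/
noncomputable def nSub (n : ℕ) : ℕ := Nat.card (Subgroup (Perm (Fin n)))

/-- `H` is generated by at most `d` elements. -/
def Gen {G : Type} [Group G] (H : Subgroup G) (d : ℕ) : Prop :=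
  ∃ S : Finset G, S.card ≤ d ∧ Subgroup.closure (S : Set G) = H

/-- The restrictions to `U` of the elements of `H` (extended by the identity) which are permutations of `U`. -/
def res {Ω : Type} (H : Subgroup (Perm Ω)) (U : Finset Ω) : Subgroup (Perm Ω) where
  carrier := {σ | (∀ x, x ∉ U → σ x = x) ∧ ∃ h ∈ H, ∀ x ∈ U, σ x = h x}
  mul_mem' := by
    rintro σ τ ⟨hσ, h, hh, h1⟩ ⟨hτ, k, hk, h2⟩
    refine ⟨fun x hx => by rw [Perm.mul_apply, hτ x hx, hσ x hx], h * k, H.mul_mem hh hk, fun x hx => ?_⟩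
    have hτx : τ x ∈ U := by
      by_contra hc
      have := hτ (τ x) hc
      exact hc (by rw [τ.injective this]; exact hx)
    rw [Perm.mul_apply, Perm.mul_apply, h1 _ hτx, h2 x hx]
  one_mem' := ⟨fun x _ => rfl, 1, H.one_mem, fun x _ => rfl⟩
  inv_mem' := by
    rintro σ ⟨hσ, h, hh, h1⟩
    have h3 : ∀ x, x ∉ U → σ⁻¹ x = x := fun x hx => by rw [Perm.inv_eq_iff_eq, hσ x hx]
    refine ⟨h3, h⁻¹, H.inv_mem hh, fun x hx => ?_⟩
    have hx2 : σ⁻¹ x ∈ U := by
      by_contra hc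
      have := h3 (σ⁻¹ x) hc
      exact hc (by rw [σ⁻¹.injective this]; exact hx)
    rw [Perm.eq_inv_iff_eq, ← h1 _ hx2]
    simp

theorem mem_res {Ω : Type} {H : Subgroup (Perm Ω)} {U : Finset Ω} {σ : Perm Ω} :
    σ ∈ res H U ↔ (∀ x, x ∉ U → σ x = x) ∧ ∃ h ∈ H, ∀ x ∈ U, σ x = h x := Iff.rfl

/-- The elements of `H` which fix `U` pointwise. -/
def fx {Ω : Type} (H : Subgroup (Perm Ω)) (U : Finset Ω) : Subgroup (Perm Ω) where
  carrier := {h | h ∈ H ∧ ∀ x ∈ U, h x = x}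
  mul_mem' := by
    rintro σ τ ⟨h1, h2⟩ ⟨h3, h4⟩
    exact ⟨H.mul_mem h1 h3, fun x hx => by rw [Perm.mul_apply, h4 x hx, h2 x hx]⟩
  one_mem' := ⟨H.one_mem, fun x _ => rfl⟩
  inv_mem' := by
    rintro σ ⟨h1, h2⟩
    exact ⟨H.inv_mem h1, fun x hx => by rw [Perm.inv_eq_iff_eq, h2 x hx]⟩

theorem mem_fx {Ω : Type} {H : Subgroup (Perm Ω)} {U : Finset Ω} {σ : Perm Ω} :
    σ ∈ fx H U ↔ σ ∈ H ∧ ∀ x ∈ U, σ x = x := Iff.rfl

/-- `U` is invariant. -/
def Inv {Ω : Type} (H : Subgroup (Perm Ω)) (U : Finset Ω) : Prop := ∀ h ∈ H, ∀ x ∈ U, h x ∈ U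

/-- `Δ` is an orbit. -/
def Orb {Ω : Type} (H : Subgroup (Perm Ω)) (Δ : Finset Ω) : Prop :=
  Inv H Δ ∧ Δ.Nonempty ∧ ∀ x ∈ Δ, ∀ y ∈ Δ, ∃ h ∈ H, h x = y

/-- All orbits have at most `θ` points. -/
def Small {Ω : Type} (H : Subgroup (Perm Ω)) (θ : ℕ) : Prop := ∀ Δ : Finset Ω, Orb H Δ → Δ.card ≤ θ

/-- The union of the first `r` sets. -/
def un {n : ℕ} (Δ : ℕ → Finset (Fin n)) (r : ℕ) : Finset (Fin n) := (Finset.range r).biUnion Δ

/-- The bound for the number of generators needed for the kernel on the orbit `Δ i`. -/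
def gn {n : ℕ} (Δ : ℕ → Finset (Fin n)) (e : ℕ → ℕ) (i : ℕ) : ℕ := min (e i) (((Δ i).card + 3) / 6)

/-- `Tow Δ e r H`: `Δ 0, …, Δ (r - 1)` are the nontrivial orbits of `H`; `e i` is the logarithm to base 3 (rounded down) of the
order of the group of the elements of the restriction to `Δ 0 ∪ … ∪ Δ i` which fix `Δ 0 ∪ … ∪ Δ (i - 1)` pointwise. -/
def Tow {n : ℕ} (Δ : ℕ → Finset (Fin n)) (e : ℕ → ℕ) : ℕ → Subgroup (Perm (Fin n)) → Prop
  | 0, H => H = ⊥
  | r + 1, H => Orb H (Δ r) ∧ 3 ≤ (Δ r).card ∧ Disjoint (Δ r) (un Δ r) ∧ Inv H (un Δ r) ∧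
      (∀ h ∈ H, ∀ x, x ∉ un Δ (r + 1) → h x = x) ∧
      Nat.log 3 (Nat.card (fx H (un Δ r))) = e r ∧ Tow Δ e r (res H (un Δ r))

/-- A commuting pair of a 2-group and a nilpotent group of odd order. -/
def CP {Ω : Type} (P Q : Subgroup (Perm Ω)) : Prop := Two P ∧ Odn Q ∧ ∀ p ∈ P, ∀ q ∈ Q, p * q = q * p

/-- The number of nilpotent subgroups of odd order all of whose orbits have at most `θ` points. -/
noncomputable def nSm (n θ : ℕ) : ℕ := Nat.card {H : Subgroup (Perm (Fin n)) // Odn H ∧ Small H θ}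

/-- The restrictions on the data of a tower. -/
def Valid {n : ℕ} (θ : ℕ) (Δ : ℕ → Finset (Fin n)) (e : ℕ → ℕ) (r : ℕ) : Prop :=
  r ≤ n ∧ (∀ i < r, 3 ≤ (Δ i).card ∧ (Δ i).card ≤ θ ∧ e i ≤ n) ∧
    (∀ i, i + 1 < r → (Δ (i + 1)).card ≤ (Δ i).card) ∧
    (∀ i j, i < r → j < r → i ≠ j → Disjoint (Δ i) (Δ j)) ∧ ∀ i, r ≤ i → Δ i = ∅ ∧ e i = 0

/-- The bound for the number of groups with given data. -/
noncomputable def pr {n : ℕ} (Δ : ℕ → Finset (Fin n)) (e : ℕ → ℕ) (r : ℕ) : ℝ :=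
  ∏ i ∈ Finset.range r, ((nSub (Δ i).card : ℝ) ^ 2 *
    Real.exp (Real.log 3 * ((((Δ i).card : ℝ) - 1) / 2 - e i) * ∑ j ∈ Finset.range i, (gn Δ e j : ℝ)))

end Pool.Agent.NilS
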