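import Pool.Agent.NilS.Defs

/-!
MP_7fa120_al, nilpotent subgroups. Generators of an invariant subspace modulo the image of `t - 1`.

Proof. `U` is a vector space over `ZMod p` (an additive subgroup is a submodule, `AddSubgroup.toZModSubmodule`). Let
`T : U → U`, `T b = b ∘ t - b`. Then `dim (U / T U) = dim (ker T)`, and `ker T` consists of functions which are constant on the
orbits of `t`; every orbit of `t` has exactly `q ≥ 3` elements (`t ^ q = 1`, `q` prime, no fixed point), so the number of
orbits is at most `|Y| / 3` and `dim (ker T)` is at most the number of orbits (restriction to a set of representatives of the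
orbits is injective on `ker T`). Let `S` be a set of lifts of a basis of `U / T U`; then `3 * S.card ≤ Nat.card Y` and every
`u ∈ U` is a combination of the elements of `S` plus an element of `T U`; the coefficients are in `ZMod p`, so the combination is
in `AddSubgroup.closure S`.
-/

set_option autoImplicit false

namespace Pool.Agent.NilS

open Equiv

/-- The map `b ↦ b ∘ t - b`. -/
private def dimT {Y : Type} (t : Perm Y) {p : ℕ} (W : Submodule (ZMod p) (Y → ZMod p))
    (hW : ∀ u ∈ W, (fun y => u (t y)) ∈ W) : W →ₗ[ZMod p] W where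
  toFun b := ⟨(fun y => b.1 (t y)) - b.1, W.sub_mem (hW b.1 b.2) b.2⟩
  map_add' a b := by
    ext y
    simp only [Submodule.coe_add, Pi.add_apply, Pi.sub_apply]
    ring
  map_smul' c b := by
    ext y
    simp only [Submodule.coe_smul, Pi.smul_apply, Pi.sub_apply, smul_eq_mul, RingHom.id_apply]
    ring

private theorem dim_orb (Y : Type) [Finite Y] (t : Perm Y) (q : ℕ) (hq : q.Prime) (hq3 : 3 ≤ q) (ht : t ^ q = 1)
    (hf : ∀ y, t y ≠ y) : Nat.card (Quotient (Perm.SameCycle.setoid t)) * 3 ≤ Nat.card Y := by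
  classical
  have ht2 : ∀ y, t (t y) ≠ y := by
    intro y h
    obtain ⟨k, hk⟩ := hq.odd_of_ne_two (by omega)
    have h2 : (t ^ 2) y = y := by rw [pow_two, Perm.mul_apply, h]
    have h3 : ∀ k : ℕ, ((t ^ 2) ^ k) y = y := by
      intro k
      induction k with
      | zero => simp
      | succ k ih => rw [pow_succ, Perm.mul_apply, h2, ih]
    have h4 : (t ^ q) y = t y := by
      rw [hk, pow_succ', pow_mul, Perm.mul_apply, h3]
    rw [ht] at h4
    exact hf y h4.symm
  let g : Quotient (Perm.SameCycle.setoid t) × Fin 3 → Y := fun c => (t ^ (c.2 : ℕ)) c.1.out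
  have hcyc : ∀ (y : Y) (i : ℕ), t.SameCycle y ((t ^ i) y) := fun y i => ⟨i, by simp⟩
  have hg : Function.Injective g := by
    rintro ⟨c, i⟩ ⟨c', i'⟩ h
    have h1 : (t ^ (i : ℕ)) c.out = (t ^ (i' : ℕ)) c'.out := h
    have hc : c = c' := by
      have h2 : t.SameCycle c.out c'.out :=
        (hcyc c.out i).trans (h1 ▸ (hcyc c'.out i').symm)
      have h3 : (⟦c.out⟧ : Quotient (Perm.SameCycle.setoid t)) = ⟦c'.out⟧ := Quotient.sound h2
      rwa [Quotient.out_eq, Quotient.out_eq] at h3
    subst hc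
    have hi : i = i' := by
      have h0 := hf c.out
      have h1' := hf (t c.out)
      have h2' := ht2 c.out
      fin_cases i <;> fin_cases i' <;> simp_all [pow_succ, eq_comm]
    rw [hi]
  have h5 := Nat.card_le_card_of_injective g hg
  rwa [Nat.card_prod, Nat.card_fin] at h5

private theorem dim_ker (Y : Type) [Finite Y] (t : Perm Y) {p : ℕ} (hp : p.Prime) (W : Submodule (ZMod p) (Y → ZMod p))
    (hW : ∀ u ∈ W, (fun y => u (t y)) ∈ W) :
    Module.finrank (ZMod p) (LinearMap.ker (dimT t W hW)) ≤ Nat.card (Quotient (Perm.SameCycle.setoid t)) := by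
  classical
  have := Fact.mk hp
  have := Fintype.ofFinite (Quotient (Perm.SameCycle.setoid t))
  have hinv : ∀ f : LinearMap.ker (dimT t W hW), ∀ y, f.1.1 (t y) = f.1.1 y := by
    intro f y
    have h := f.2
    rw [LinearMap.mem_ker] at h
    have h2 := congrArg (fun g : W => g.1 y) h
    simp only [dimT, LinearMap.coe_mk, AddHom.coe_mk, Pi.sub_apply, Submodule.coe_zero, Pi.zero_apply] at h2
    exact sub_eq_zero.1 h2
  have hpow : ∀ f : LinearMap.ker (dimT t W hW), ∀ (i : ℤ) y, f.1.1 ((t ^ i) y) = f.1.1 y := by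
    intro f i
    induction i with
    | zero => intro y; simp
    | succ i ih =>
      intro y
      rw [zpow_add_one, Perm.mul_apply, ih, hinv f y]
    | pred i ih =>
      intro y
      rw [zpow_sub_one, Perm.mul_apply, ih]
      have h0 : t (t⁻¹ y) = y := by simp
      have := hinv f (t⁻¹ y)
      rw [h0] at this
      exact this.symm
  let L : LinearMap.ker (dimT t W hW) →ₗ[ZMod p] (Quotient (Perm.SameCycle.setoid t) → ZMod p) :=
    { toFun := fun f c => f.1.1 c.out
      map_add' := fun f g => by ext c; simp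
      map_smul' := fun a f => by ext c; simp }
  have hL : Function.Injective L := by
    intro f g h
    ext y
    have h1 : t.SameCycle (⟦y⟧ : Quotient (Perm.SameCycle.setoid t)).out y := by
      have : (⟦(⟦y⟧ : Quotient (Perm.SameCycle.setoid t)).out⟧ : Quotient (Perm.SameCycle.setoid t)) = ⟦y⟧ :=
        Quotient.out_eq _
      exact Quotient.exact this
    obtain ⟨i, hi⟩ := h1
    have h2 := congrFun h (⟦y⟧ : Quotient (Perm.SameCycle.setoid t))
    have h3 : f.1.1 (⟦y⟧ : Quotient (Perm.SameCycle.setoid t)).out =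
      g.1.1 (⟦y⟧ : Quotient (Perm.SameCycle.setoid t)).out := h2
    rw [← hpow f i, ← hpow g i, hi] at h3
    exact h3
  have h6 := LinearMap.finrank_le_finrank_of_injective hL
  rwa [Module.finrank_fintype_fun_eq_card, ← Nat.card_eq_fintype_card] at h6

theorem inv_dim (Y : Type) [Finite Y] (t : Perm Y) (q : ℕ) (hq : q.Prime) (hq3 : 3 ≤ q) (ht : t ^ q = 1)
    (hf : ∀ y, t y ≠ y) (p : ℕ) (hp : p.Prime) (U : AddSubgroup (Y → ZMod p)) (hU : ∀ u ∈ U, (fun y => u (t y)) ∈ U) :
    ∃ S : Finset (Y → ZMod p), (S : Set (Y → ZMod p)) ⊆ U ∧ 3 * S.card ≤ Nat.card Y ∧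
      ∀ u ∈ U, ∃ a ∈ AddSubgroup.closure (S : Set (Y → ZMod p)), ∃ b ∈ U, u = a + ((fun y => b (t y)) - b) := by
  classical
  have := Fact.mk hp
  obtain ⟨W, hWU⟩ : ∃ W : Submodule (ZMod p) (Y → ZMod p), ∀ u, u ∈ W ↔ u ∈ U :=
    ⟨AddSubgroup.toZModSubmodule p U, fun u => Iff.rfl⟩
  have hW : ∀ u ∈ W, (fun y => u (t y)) ∈ W := fun u hu => (hWU _).2 (hU u ((hWU u).1 hu))
  set R := LinearMap.range (dimT t W hW) with hR
  have hfr : Module.finrank (ZMod p) (W ⧸ R) = Module.finrank (ZMod p) (LinearMap.ker (dimT t W hW)) := by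
    have h1 := Submodule.finrank_quotient_add_finrank R
    have h2 := LinearMap.finrank_range_add_finrank_ker (dimT t W hW)
    rw [← hR] at h2
    omega
  let B := Module.finBasis (ZMod p) (W ⧸ R)
  choose s hs using fun i => Submodule.mkQ_surjective R (B i)
  refine ⟨Finset.univ.image fun i => (s i : Y → ZMod p), ?_, ?_, ?_⟩
  · intro x hx
    simp only [Finset.coe_image, Finset.coe_univ, Set.image_univ, Set.mem_range] at hx
    obtain ⟨i, rfl⟩ := hx
    exact (hWU _).1 (s i).2
  · have h1 : (Finset.univ.image fun i => (s i : Y → ZMod p)).card ≤ Module.finrank (ZMod p) (W ⧸ R) := by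
      refine Finset.card_image_le.trans ?_
      simp
    have h2 := dim_ker Y t hp W hW
    have h3 := dim_orb Y t q hq hq3 ht hf
    omega
  · intro u hu
    have hu' : u ∈ W := (hWU u).2 hu
    have h1 : R.mkQ ⟨u, hu'⟩ = R.mkQ (∑ i, B.repr (R.mkQ ⟨u, hu'⟩) i • s i) := by
      rw [map_sum]
      conv_lhs => rw [← B.sum_repr (R.mkQ ⟨u, hu'⟩)]
      refine Finset.sum_congr rfl fun i _ => ?_
      rw [map_smul, hs]
    have h2 : (⟨u, hu'⟩ : W) - ∑ i, B.repr (R.mkQ ⟨u, hu'⟩) i • s i ∈ R :=
      (Submodule.Quotient.eq R).1 h1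
    obtain ⟨b, hb⟩ := h2
    refine ⟨((∑ i, B.repr (R.mkQ ⟨u, hu'⟩) i • s i : W) : Y → ZMod p), ?_, b.1, (hWU _).1 b.2, ?_⟩
    · rw [Submodule.coe_sum]
      refine sum_mem fun i _ => ?_
      have h3 : (s i : Y → ZMod p) ∈
          AddSubgroup.toZModSubmodule p (AddSubgroup.closure
            ((Finset.univ.image fun i => (s i : Y → ZMod p) : Finset _) : Set (Y → ZMod p))) :=
        AddSubgroup.subset_closure (by simp)
      exact Submodule.smul_mem _ _ h3
    · have h4 := congrArg (fun g : W => (g : Y → ZMod p)) hb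
      have h5 : ((fun y => b.1 (t y)) - b.1 : Y → ZMod p) =
        u - ((∑ i, B.repr (R.mkQ ⟨u, hu'⟩) i • s i : W) : Y → ZMod p) := h4
      rw [h5]
      abel

end Pool.Agent.NilS
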