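import Pool.Agent.NilS.RankT
import Pool.Agent.NilS.GrpA
import Pool.Agent.NilS.Res

/-!
MP_7fa120_al, nilpotent subgroups. Generators: adding one orbit.

Proof. `K = fx H U` is a normal subgroup of `H` and `H / K ≅ res H U` (`exists_resHom`, `fx_normal`); preimages of `d`
generators of `res H U` generate a subgroup `L₀` of `H` with `L₀ K = H`.
(a) `K` is generated by `Nat.log 3 (Nat.card K)` elements (`gen_log`, `odn_le`), so `H` is generated by
`d + Nat.log 3 (Nat.card K)` elements.
(b) `G = H` acts transitively on the subtype `Δ`. `rank_trans` for `K` (as a subgroup of `G`) gives `S ⊆ K` with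
`6 * S.card ≤ Δ.card + 3`, so `S.card ≤ (Δ.card + 3) / 6`, and `K ≤ closure S ⊔ ⁅K, ⊤⁆ ⊔ N`, `N` the kernel of `G` on `Δ`.
An element of `K ⊓ N` fixes the points of `U`, of `Δ` and all others, so it is `1`; since `closure S ⊔ ⁅K, ⊤⁆ ≤ K` and `N` is
normal, every `k ∈ K` is `a * n` with `a ∈ closure S ⊔ ⁅K, ⊤⁆ ≤ K` and `n ∈ N ⊓ K = 1`, so `K ≤ closure S ⊔ ⁅K, ⊤⁆`. With
`L = L₀ ⊔ closure S` this gives `L ⊔ K = ⊤`, `K ≤ L ⊔ ⁅K, ⊤⁆`, so `L = ⊤` by `eq_top_of_comm`, and `H` is
generated by `d + S.card` elements.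
`tow_gen` is by induction on `r` with `gen_step` for `Δ r`, `U = un Δ r` and `odn_res`.
-/

set_option autoImplicit false

namespace Pool.Agent.NilS

open Equiv

/-- generators of the whole group, as a subgroup of the symmetric group -/
private theorem gen_of_top {n : ℕ} (H : Subgroup (Perm (Fin n))) (T : Finset H) {c : ℕ} (hT : T.card ≤ c)
    (h : Subgroup.closure (T : Set H) = ⊤) : Gen H c := by
  classical
  refine ⟨T.image Subtype.val, Finset.card_image_le.trans hT, ?_⟩
  have h1 := congrArg (Subgroup.map H.subtype) h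
  rw [MonoidHom.map_closure] at h1
  rw [Finset.coe_image]
  have h2 : Subgroup.map H.subtype (⊤ : Subgroup H) = H := by
    rw [← MonoidHom.range_eq_map, Subgroup.range_subtype]
  rw [h2] at h1
  exact h1

/-- preimages of the generators of the restriction -/
private theorem exists_low {n : ℕ} (H : Subgroup (Perm (Fin n))) (U : Finset (Fin n))
    (hU : Inv H U) (d : ℕ) (hg : Gen (res H U) d) :
    ∃ T : Finset H, T.card ≤ d ∧ Subgroup.closure (T : Set H) ⊔ (fx H U).subgroupOf H = ⊤ := by
  classical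
  obtain ⟨f, hf1, -, -, hf4⟩ := exists_resHom H U hU
  obtain ⟨S, hS, hcl⟩ := hg
  have hpre : ∀ s ∈ S, ∃ h : H, f h = s := by
    intro s hs
    have h1 : s ∈ res H U := by
      rw [← hcl]
      exact Subgroup.subset_closure hs
    rw [← hf1] at h1
    exact h1
  choose! g hg using hpre
  refine ⟨S.image g, Finset.card_image_le.trans hS, ?_⟩
  have hker : (fx H U).subgroupOf H = f.ker := by
    ext k
    rw [Subgroup.mem_subgroupOf, MonoidHom.mem_ker, hf4]
  have h1 : Subgroup.map f (Subgroup.closure ((S.image g : Finset H) : Set H)) = f.range := by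
    rw [MonoidHom.map_closure, hf1, ← hcl]
    congr 1
    ext x
    constructor
    · rintro ⟨y, hy, rfl⟩
      obtain ⟨s, hs, rfl⟩ := Finset.mem_image.mp (Finset.mem_coe.mp hy)
      rw [hg s hs]
      exact hs
    · intro hx
      exact ⟨g x, Finset.mem_coe.mpr (Finset.mem_image.mpr ⟨x, hx, rfl⟩), hg x hx⟩
  rw [hker, ← Subgroup.comap_map_eq, h1]
  rw [eq_top_iff]
  intro x _
  exact ⟨x, rfl⟩

theorem gen_step {n : ℕ} (H : Subgroup (Perm (Fin n))) (ho : Odn H) (Δ U : Finset (Fin n)) (hΔ : Orb H Δ)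
    (hU : Inv H U) (hs : ∀ h ∈ H, ∀ x, x ∉ Δ → x ∉ U → h x = x) (d : ℕ) (hg : Gen (res H U) d) :
    Gen H (d + min (Nat.log 3 (Nat.card (fx H U))) ((Δ.card + 3) / 6)) := by
  classical
  obtain ⟨T, hT, htop⟩ := exists_low H U hU d hg
  have hfx : fx H U ≤ H := fun x hx => hx.1
  have hK : Nat.card ((fx H U).subgroupOf H) = Nat.card (fx H U) :=
    Nat.card_congr (Subgroup.subgroupOfEquivOfLe hfx).toEquiv
  have hnorm : ((fx H U).subgroupOf H).Normal := fx_normal hU
  rcases le_total (Nat.log 3 (Nat.card (fx H U))) ((Δ.card + 3) / 6) with hle | hle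
  · rw [min_eq_left hle]
    have hodd : Odd (Nat.card ((fx H U).subgroupOf H)) := by
      rw [hK]
      exact (odn_le ho hfx).2
    obtain ⟨S, hS, hcl⟩ := gen_log ((fx H U).subgroupOf H) hodd
    rw [hK] at hS
    refine gen_of_top H (T ∪ S) ((Finset.card_union_le _ _).trans (Nat.add_le_add hT hS)) ?_
    rw [Finset.coe_union, Subgroup.closure_union, hcl]
    exact htop
  · rw [min_eq_right hle]
    have hnil : Group.IsNilpotent H := ho.1
    let act : MulAction H {x // x ∈ Δ} :=
      { smul := fun h x => ⟨(h : Perm (Fin n)) x, hΔ.1 h h.2 x x.2⟩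
        one_smul := fun x => rfl
        mul_smul := fun g h x => rfl }
    have hsm : ∀ (h : H) (x : {x // x ∈ Δ}), ((h • x : {x // x ∈ Δ}) : Fin n) = (h : Perm (Fin n)) x :=
      fun h x => rfl
    have htr : MulAction.IsPretransitive H {x // x ∈ Δ} := by
      constructor
      rintro ⟨x, hx⟩ ⟨y, hy⟩
      obtain ⟨h, hh, hxy⟩ := hΔ.2.2 x hx y hy
      exact ⟨⟨h, hh⟩, Subtype.ext hxy⟩
    have hne : Nonempty {x // x ∈ Δ} := by
      obtain ⟨x, hx⟩ := hΔ.2.1
      exact ⟨⟨x, hx⟩⟩
    obtain ⟨S, hSK, hS6, hKle⟩ := rank_trans H ho.2 {x // x ∈ Δ} ((fx H U).subgroupOf H)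
    have hcard : Nat.card {x // x ∈ Δ} = Δ.card := by
      rw [Nat.card_eq_fintype_card, Fintype.card_coe]
    rw [hcard] at hS6
    have hS : S.card ≤ (Δ.card + 3) / 6 := by omega
    have hKle' : (fx H U).subgroupOf H ≤
        Subgroup.closure (S : Set H) ⊔ ⁅(fx H U).subgroupOf H, (⊤ : Subgroup H)⁆ := by
      intro k hk
      have h1 := hKle hk
      rw [Subgroup.mem_sup_of_normal_right] at h1
      obtain ⟨a, ha, m, hm, ham⟩ := h1
      have haK : a ∈ (fx H U).subgroupOf H := by
        have h2 : Subgroup.closure (S : Set H) ⊔ ⁅(fx H U).subgroupOf H, (⊤ : Subgroup H)⁆ ≤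
            (fx H U).subgroupOf H :=
          sup_le ((Subgroup.closure_le _).mpr hSK) (Subgroup.commutator_le_left _ _)
        exact h2 ha
      have hmK : m ∈ (fx H U).subgroupOf H := by
        have h3 : m = a⁻¹ * k := by rw [← ham]; group
        rw [h3]
        exact Subgroup.mul_mem _ (Subgroup.inv_mem _ haK) hk
      have hm1 : m = 1 := by
        apply Subtype.ext
        ext x
        congr 1
        show (m : Perm (Fin n)) x = x
        by_cases hxU : x ∈ U
        · exact (Subgroup.mem_subgroupOf.mp hmK).2 x hxU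
        · by_cases hxΔ : x ∈ Δ
          · have h4 := congrArg (fun σ : Perm {x // x ∈ Δ} => ((σ ⟨x, hxΔ⟩ : {x // x ∈ Δ}) : Fin n))
              (MonoidHom.mem_ker.mp hm)
            exact h4
          · exact hs m m.2 x hxΔ hxU
      rw [← ham, hm1, mul_one]
      exact ha
    have hL : Subgroup.closure (T : Set H) ⊔ Subgroup.closure (S : Set H) = ⊤ := by
      apply eq_top_of_comm _ ((fx H U).subgroupOf H)
      · rw [eq_top_iff, ← htop]
        exact sup_le (le_sup_left.trans le_sup_left) le_sup_right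
      · exact hKle'.trans (sup_le (le_sup_right.trans le_sup_left) le_sup_right)
    refine gen_of_top H (T ∪ S) ((Finset.card_union_le _ _).trans (Nat.add_le_add hT hS)) ?_
    rw [Finset.coe_union, Subgroup.closure_union]
    exact hL

theorem tow_gen {n : ℕ} (Δ : ℕ → Finset (Fin n)) (e : ℕ → ℕ) (r : ℕ) : ∀ H : Subgroup (Perm (Fin n)), Odn H →
    Tow Δ e r H → Gen H (∑ j ∈ Finset.range r, gn Δ e j) := by
  induction r with
  | zero =>
    intro H _ hH
    have hH : H = ⊥ := hH
    subst hH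
    refine ⟨∅, by simp, ?_⟩
    rw [Finset.coe_empty, Subgroup.closure_empty]
  | succ r ih =>
    intro H ho hH
    obtain ⟨h1, -, -, h4, h5, h6, h7⟩ := hH
    have h8 := ih (res H (un Δ r)) (odn_res ho h4) h7
    have h9 := gen_step H ho (Δ r) (un Δ r) h1 h4 (fun h hh x hx hxU => h5 h hh x (by
      intro hc
      unfold un at hc hxU
      rw [Finset.mem_biUnion] at hc hxU
      obtain ⟨j, hj, hxj⟩ := hc
      rw [Finset.mem_range] at hj
      rcases Nat.lt_succ_iff_lt_or_eq.mp hj with hj' | rfl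
      · exact hxU ⟨j, Finset.mem_range.mpr hj', hxj⟩
      · exact hx hxj)) _ h8
    rw [h6] at h9
    rw [Finset.sum_range_succ]
    exact h9

end Pool.Agent.NilS
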