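import Pool.Agent.NilS.StepC
import Pool.Agent.NilS.StepG

/-!
MP_7fa120_al, nilpotent subgroups. Counting the groups with given data.

Proof. Induction on `r`. `r = 0`: only `H = ⊥`, the product is `1`. `r + 1`: if `Δ r` and `un Δ r` are not disjoint there is
no such group. Otherwise `H ↦ H' = res H (un Δ r)` maps the groups with `Odn`, `Tow Δ e (r + 1)` to groups with `Odn`
(`odn_res`), `Tow Δ e r`, and the fibre over `H'` has at most
`(nSub (Δ r).card) ^ 2 * exp (log 3 * (((Δ r).card - 1) / 2 - e r) * d)` elements with `d = ∑ j ∈ range r, gn Δ e j`, by `tow_gen`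
and `count_step` with `U = un Δ r`.
-/

set_option autoImplicit false

namespace Pool.Agent.NilS

open Equiv

private theorem pr_nonneg' {n : ℕ} (Δ : ℕ → Finset (Fin n)) (e : ℕ → ℕ) (r : ℕ) : 0 ≤ pr Δ e r := by
  unfold pr
  exact Finset.prod_nonneg fun i _ => by positivity

private theorem mem_un_succ {n : ℕ} {Δ : ℕ → Finset (Fin n)} {r : ℕ} {x : Fin n} :
    x ∈ un Δ (r + 1) ↔ x ∈ un Δ r ∨ x ∈ Δ r := by
  unfold un
  simp only [Finset.mem_biUnion, Finset.mem_range]
  constructor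
  · rintro ⟨i, hi, hx⟩
    rcases Nat.lt_succ_iff_lt_or_eq.1 hi with h | h
    · exact Or.inl ⟨i, h, hx⟩
    · exact Or.inr (h ▸ hx)
  · rintro (⟨i, hi, hx⟩ | hx)
    · exact ⟨i, hi.trans (Nat.lt_succ_self r), hx⟩
    · exact ⟨r, Nat.lt_succ_self r, hx⟩

theorem tow_count {n : ℕ} (Δ : ℕ → Finset (Fin n)) (e : ℕ → ℕ) (r : ℕ) :
    (Nat.card {H : Subgroup (Perm (Fin n)) // Odn H ∧ Tow Δ e r H} : ℝ) ≤ pr Δ e r := by
  induction r with
  | zero =>
    have h0 : Subsingleton {H : Subgroup (Perm (Fin n)) // Odn H ∧ Tow Δ e 0 H} := by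
      constructor
      rintro ⟨H, -, hH⟩ ⟨K, -, hK⟩
      apply Subtype.ext
      change H = K
      rw [show H = ⊥ from hH, show K = ⊥ from hK]
    have h1 : Nat.card {H : Subgroup (Perm (Fin n)) // Odn H ∧ Tow Δ e 0 H} ≤ 1 :=
      Finite.card_le_one_iff_subsingleton.2 h0
    have h2 : pr Δ e 0 = 1 := by simp [pr]
    rw [h2]
    exact_mod_cast h1
  | succ r ih =>
    by_cases hd : Disjoint (Δ r) (un Δ r)
    · set d : ℕ := ∑ j ∈ Finset.range r, gn Δ e j with hdd
      set B : ℝ := (nSub (Δ r).card : ℝ) ^ 2 *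
        Real.exp (Real.log 3 * ((((Δ r).card : ℝ) - 1) / 2 - e r) * d) with hB
      let S : Type := {H : Subgroup (Perm (Fin n)) // Odn H ∧ Tow Δ e r H}
      let F : S → Type := fun H' => {H : Subgroup (Perm (Fin n)) // Odn H ∧ Orb H (Δ r) ∧ Inv H (un Δ r) ∧
        (∀ h ∈ H, ∀ x, x ∉ Δ r → x ∉ un Δ r → h x = x) ∧
        Nat.log 3 (Nat.card (fx H (un Δ r))) = e r ∧ res H (un Δ r) = H'.1}
      have hfib : ∀ H' : S, (Nat.card (F H') : ℝ) ≤ B := fun H' =>
        count_step (Δ r) (un Δ r) hd (e r) d H'.1 (tow_gen Δ e r H'.1 H'.2.1 H'.2.2)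
      let g : {H : Subgroup (Perm (Fin n)) // Odn H ∧ Tow Δ e (r + 1) H} → Σ H' : S, F H' := fun H =>
        ⟨⟨res H.1 (un Δ r), odn_res H.2.1 H.2.2.2.2.2.1, H.2.2.2.2.2.2.2.2⟩,
          ⟨H.1, H.2.1, H.2.2.1, H.2.2.2.2.2.1, fun h hh x hx1 hx2 =>
            H.2.2.2.2.2.2.1 h hh x (fun hc => (mem_un_succ.1 hc).elim hx2 hx1),
            H.2.2.2.2.2.2.2.1, rfl⟩⟩
      have hg : Function.Injective g := by
        intro H K h
        have h1 : (g H).2.1 = (g K).2.1 := by rw [h]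
        exact Subtype.ext h1
      have : Finite S := inferInstanceAs (Finite {H : Subgroup (Perm (Fin n)) // Odn H ∧ Tow Δ e r H})
      have : ∀ H' : S, Finite (F H') := fun H' => inferInstanceAs (Finite
        {H : Subgroup (Perm (Fin n)) // Odn H ∧ Orb H (Δ r) ∧ Inv H (un Δ r) ∧
        (∀ h ∈ H, ∀ x, x ∉ Δ r → x ∉ un Δ r → h x = x) ∧
        Nat.log 3 (Nat.card (fx H (un Δ r))) = e r ∧ res H (un Δ r) = H'.1})
      have : Fintype S := Fintype.ofFinite S
      have h1 : Nat.card {H : Subgroup (Perm (Fin n)) // Odn H ∧ Tow Δ e (r + 1) H} ≤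
          ∑ H' : S, Nat.card (F H') := by
        rw [← Nat.card_sigma]
        exact Nat.card_le_card_of_injective g hg
      have h2 : (Nat.card {H : Subgroup (Perm (Fin n)) // Odn H ∧ Tow Δ e (r + 1) H} : ℝ) ≤
          ∑ H' : S, (Nat.card (F H') : ℝ) := by exact_mod_cast h1
      have h3 : ∑ H' : S, (Nat.card (F H') : ℝ) ≤ ∑ _H' : S, B := Finset.sum_le_sum fun H' _ => hfib H'
      have h4 : ∑ _H' : S, B = (Nat.card S : ℝ) * B := by
        rw [Finset.sum_const, nsmul_eq_mul, Finset.card_univ, Nat.card_eq_fintype_card]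
      have h5 : pr Δ e (r + 1) = pr Δ e r * B := by
        rw [hB, hdd]
        unfold pr
        rw [Finset.prod_range_succ]
        push_cast
        ring
      have hB0 : 0 ≤ B := by rw [hB]; positivity
      rw [h5]
      calc _ ≤ (Nat.card S : ℝ) * B := h2.trans (h3.trans h4.le)
        _ ≤ pr Δ e r * B := mul_le_mul_of_nonneg_right ih hB0
    · have h0 : IsEmpty {H : Subgroup (Perm (Fin n)) // Odn H ∧ Tow Δ e (r + 1) H} :=
        ⟨fun H => hd H.2.2.2.2.1⟩
      rw [Nat.card_of_isEmpty, Nat.cast_zero]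
      exact pr_nonneg' Δ e (r + 1)

end Pool.Agent.NilS
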