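import Pool.Agent.NilS.TowE
import Pool.Agent.NilS.TowC

/-!
MP_7fa120_al, nilpotent subgroups. Counting over the data.

Proof. By `exists_tow` the groups counted by `nSm n θ` are covered by the sets `{H // Odn H ∧ Tow Δ e r H}` with `Valid θ Δ e r`,
each of which has at most `pr Δ e r ≤ B` elements (`tow_count`). The number of data with `Valid θ Δ e r` is at most
`(n + 1) ^ (2 * n + 1)`: `r ≤ n`; `Δ` is determined by the map `Fin n → Fin (n + 1)`, `x ↦ i` if `x ∈ Δ i`, `i < r ≤ n` and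
`x ↦ n` if there is no such `i` (the sets are disjoint and empty for `i ≥ r`); and `e` is determined by
`e 0, …, e (n - 1) ∈ {0, …, n}` (`e i = 0` for `i ≥ r`). `0 ≤ pr Δ e r`, so `0 ≤ B` (if there is a datum at all; `r = 0` is one).
-/

set_option autoImplicit false

namespace Pool.Agent.NilS

open Equiv

/-- The sets decoded from a map. -/
private def decD {n : ℕ} (r : ℕ) (φ : Fin n → Fin (n + 1)) : ℕ → Finset (Fin n) :=
  fun i => if i < r then Finset.univ.filter (fun x => (φ x : ℕ) = i) else ∅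

/-- The exponents decoded from a map. -/
private def decE {n : ℕ} (ψ : Fin n → Fin (n + 1)) : ℕ → ℕ :=
  fun i => if h : i < n then (ψ ⟨i, h⟩ : ℕ) else 0

private theorem sm_code {n θ : ℕ} (Δ : ℕ → Finset (Fin n)) (e : ℕ → ℕ) (r : ℕ) (hV : Valid θ Δ e r) :
    ∃ (φ ψ : Fin n → Fin (n + 1)), decD r φ = Δ ∧ decE ψ = e := by
  classical
  obtain ⟨hr, h1, -, hd, h0⟩ := hV
  have hen : ∀ i, e i ≤ n := by
    intro i
    rcases Nat.lt_or_ge i r with h | h
    · exact (h1 i h).2.2
    · rw [(h0 i h).2]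
      exact Nat.zero_le _
  refine ⟨fun x => if h : ∃ i, i < r ∧ x ∈ Δ i then ⟨h.choose, by
      have := h.choose_spec.1
      omega⟩ else Fin.last n, fun i => ⟨e i, by
      have := hen i
      omega⟩, ?_, ?_⟩
  · funext i
    unfold decD
    by_cases hi : i < r
    · rw [if_pos hi]
      ext x
      rw [Finset.mem_filter]
      constructor
      · rintro ⟨-, hx⟩
        by_cases h : ∃ i, i < r ∧ x ∈ Δ i
        · have h3 : h.choose = i := by
            simp only [dif_pos h] at hx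
            exact hx
          have h2 := h.choose_spec.2
          rw [h3] at h2
          exact h2
        · simp only [dif_neg h, Fin.val_last] at hx
          omega
      · intro hx
        refine ⟨Finset.mem_univ _, ?_⟩
        have h : ∃ i, i < r ∧ x ∈ Δ i := ⟨i, hi, hx⟩
        simp only [dif_pos h]
        by_contra hne
        have h2 := hd _ _ h.choose_spec.1 hi hne
        exact Finset.disjoint_left.1 h2 h.choose_spec.2 hx
    · rw [if_neg hi, (h0 i (by omega)).1]
  · funext i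
    unfold decE
    by_cases hi : i < n
    · rw [dif_pos hi]
    · rw [dif_neg hi, (h0 i (by omega)).2]

private theorem sm_one_le {n θ : ℕ} (B : ℝ)
    (hB : ∀ (Δ : ℕ → Finset (Fin n)) (e : ℕ → ℕ) (r : ℕ), Valid θ Δ e r → pr Δ e r ≤ B) : 1 ≤ B := by
  have h := hB (fun _ => ∅) (fun _ => 0) 0 ⟨Nat.zero_le _, fun i hi => absurd hi (Nat.not_lt_zero _),
    fun i hi => absurd hi (Nat.not_lt_zero _), fun i _ hi => absurd hi (Nat.not_lt_zero _), fun _ _ => ⟨rfl, rfl⟩⟩
  simpa [pr] using h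

theorem small_count (n θ : ℕ) (B : ℝ)
    (hB : ∀ (Δ : ℕ → Finset (Fin n)) (e : ℕ → ℕ) (r : ℕ), Valid θ Δ e r → pr Δ e r ≤ B) :
    (nSm n θ : ℝ) ≤ ((n : ℝ) + 1) ^ (2 * n + 1) * B := by
  classical
  have hB1 := sm_one_le B hB
  have : Fintype (Subgroup (Perm (Fin n))) := Fintype.ofFinite _
  let D : Type := Fin (n + 1) × (Fin n → Fin (n + 1)) × (Fin n → Fin (n + 1))
  let T : D → Finset (Subgroup (Perm (Fin n))) := fun d =>
    Finset.univ.filter (fun H => Odn H ∧ Tow (decD (d.1 : ℕ) d.2.1) (decE d.2.2) (d.1 : ℕ) H)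
  let V : Finset D := Finset.univ.filter (fun d => Valid θ (decD (d.1 : ℕ) d.2.1) (decE d.2.2) (d.1 : ℕ))
  have h1 : nSm n θ = (Finset.univ.filter (fun H : Subgroup (Perm (Fin n)) => Odn H ∧ Small H θ)).card := by
    unfold nSm
    rw [Nat.card_eq_fintype_card, Fintype.card_subtype]
  have h2 : Finset.univ.filter (fun H : Subgroup (Perm (Fin n)) => Odn H ∧ Small H θ) ⊆ V.biUnion T := by
    intro H hH
    rw [Finset.mem_filter] at hH
    obtain ⟨Δ, e, r, hV, hT⟩ := exists_tow H hH.2.1 hH.2.2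
    obtain ⟨φ, ψ, hφ, hψ⟩ := sm_code Δ e r hV
    have hr : r < n + 1 := by
      have := hV.1
      omega
    rw [Finset.mem_biUnion]
    refine ⟨(⟨r, hr⟩, φ, ψ), ?_, ?_⟩
    · rw [Finset.mem_filter]
      refine ⟨Finset.mem_univ _, ?_⟩
      simp only
      rw [hφ, hψ]
      exact hV
    · rw [Finset.mem_filter]
      refine ⟨Finset.mem_univ _, hH.2.1, ?_⟩
      simp only
      rw [hφ, hψ]
      exact hT
  have h3 : ∀ d ∈ V, ((T d).card : ℝ) ≤ B := by
    intro d hd
    rw [Finset.mem_filter] at hd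
    have h4 := tow_count (decD (d.1 : ℕ) d.2.1) (decE d.2.2) (d.1 : ℕ)
    rw [Nat.card_eq_fintype_card, Fintype.card_subtype] at h4
    exact h4.trans (hB _ _ _ hd.2)
  have h4 : ((V.card : ℕ) : ℝ) ≤ ((n : ℝ) + 1) ^ (2 * n + 1) := by
    have h5 : V.card ≤ Fintype.card D := Finset.card_le_univ _
    have h6 : Fintype.card D = (n + 1) ^ (2 * n + 1) := by
      simp only [D, Fintype.card_prod, Fintype.card_fun, Fintype.card_fin]
      rw [← pow_add, ← pow_succ']
      congr 1
      omega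
    rw [h6] at h5
    exact_mod_cast h5
  have h5 : (nSm n θ : ℝ) ≤ ∑ d ∈ V, ((T d).card : ℝ) := by
    rw [h1]
    have h6 := (Finset.card_le_card h2).trans Finset.card_biUnion_le
    exact_mod_cast h6
  calc (nSm n θ : ℝ) ≤ ∑ d ∈ V, ((T d).card : ℝ) := h5
    _ ≤ ∑ _d ∈ V, B := Finset.sum_le_sum h3
    _ = (V.card : ℝ) * B := by rw [Finset.sum_const, nsmul_eq_mul]
    _ ≤ ((n : ℝ) + 1) ^ (2 * n + 1) * B := mul_le_mul_of_nonneg_right h4 (by linarith)

end Pool.Agent.NilS
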