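import Pool.Agent.NilS.SI
import Pool.Agent.NilS.NSub
import Pool.Agent.NilS.SmC

/-!
MP_7fa120_al, nilpotent subgroups. The number of nilpotent subgroups of odd order with short orbits.

Proof of `pr_le`. Let `s i = (Δ i).card`, `κ i = gn Δ e i = min (e i) ((s i + 3) / 6)` (natural division, so
`κ i ≤ (s i + 3) / 6` as real numbers). The sets `Δ i`, `i < r`, are disjoint, so `∑ s i ≤ n`. The logarithm of `pr Δ e r` is at
most `∑ 2 log (nSub (s i)) + log 3 * ∑ ((s i - 1) / 2 - e i) * ∑_{j < i} κ j`. First sum: `nSub_le` gives at most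
`∑ 2 log 2 * (s i) ^ 4 ≤ 2 log 2 * θ ^ 3 * n`. Second sum: `e i ≥ κ i`, then `si` (antitone from the step condition in `Valid`), with
`∑ s i ≤ n` (the right side of `si` is increasing in `∑ s i`).
`nSm_le` is `small_count` with this bound.
-/

set_option autoImplicit false

namespace Pool.Agent.NilS

open Equiv

/-- Disjoint sets: the sizes sum to at most `n`. -/
private theorem sum_card_le {n θ : ℕ} (Δ : ℕ → Finset (Fin n)) (e : ℕ → ℕ) (r : ℕ) (h : Valid θ Δ e r) :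
    ∑ i ∈ Finset.range r, ((Δ i).card : ℝ) ≤ n := by
  have h1 : ((Finset.range r).biUnion Δ).card = ∑ i ∈ Finset.range r, (Δ i).card := by
    apply Finset.card_biUnion
    intro i hi j hj hij
    exact h.2.2.2.1 i j (Finset.mem_range.mp hi) (Finset.mem_range.mp hj) hij
  have h2 : ∑ i ∈ Finset.range r, (Δ i).card ≤ n := by
    rw [← h1]
    exact (Finset.card_le_univ _).trans_eq (by simp)
  exact_mod_cast h2

/-- Sizes decrease. -/
private theorem card_anti {n θ : ℕ} (Δ : ℕ → Finset (Fin n)) (e : ℕ → ℕ) (r : ℕ) (h : Valid θ Δ e r) (i j : ℕ)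
    (hij : i ≤ j) (hj : j < r) : (Δ j).card ≤ (Δ i).card := by
  induction j, hij using Nat.le_induction with
  | base => exact le_rfl
  | succ m hm ih => exact (h.2.2.1 m hj).trans (ih (by omega))

/-- One factor for the number of subgroups. -/
private theorem nSub_sq (s θ : ℕ) (hs : s ≤ θ) :
    (nSub s : ℝ) ^ 2 ≤ Real.exp (2 * Real.log 2 * (θ : ℝ) ^ 3 * s) := by
  have h1 : (nSub s : ℝ) ≤ 2 ^ (s ^ 4) := by exact_mod_cast nSub_le s
  have h2 : ((2 : ℝ) ^ (s ^ 4)) ^ 2 = Real.exp (2 * Real.log 2 * (s : ℝ) ^ 4) := by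
    rw [← pow_mul, ← Real.exp_log (show (0 : ℝ) < 2 ^ (s ^ 4 * 2) by positivity), Real.log_pow]
    push_cast
    ring_nf
  calc (nSub s : ℝ) ^ 2 ≤ ((2 : ℝ) ^ (s ^ 4)) ^ 2 := by gcongr
    _ = Real.exp (2 * Real.log 2 * (s : ℝ) ^ 4) := h2
    _ ≤ Real.exp (2 * Real.log 2 * (θ : ℝ) ^ 3 * s) := by
      apply Real.exp_le_exp.mpr
      have h3 : (s : ℝ) ≤ θ := by exact_mod_cast hs
      have h4 : (s : ℝ) ^ 4 ≤ (θ : ℝ) ^ 3 * s := by
        calc (s : ℝ) ^ 4 = (s : ℝ) ^ 3 * s := by ring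
          _ ≤ (θ : ℝ) ^ 3 * s := by gcongr
      have h5 : 0 ≤ 2 * Real.log 2 := by positivity
      calc 2 * Real.log 2 * (s : ℝ) ^ 4 ≤ 2 * Real.log 2 * ((θ : ℝ) ^ 3 * s) := by gcongr
        _ = 2 * Real.log 2 * (θ : ℝ) ^ 3 * s := by ring

theorem pr_le {n θ : ℕ} (Δ : ℕ → Finset (Fin n)) (e : ℕ → ℕ) (r : ℕ) (h : Valid θ Δ e r) :
    pr Δ e r ≤ Real.exp (2 * Real.log 2 * (θ : ℝ) ^ 3 * n +
      Real.log 3 * (8 / 243 * (n : ℝ) ^ 2 + θ * n + (θ : ℝ) ^ 2)) := by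
  have hS := sum_card_le Δ e r h
  set S : ℝ := ∑ i ∈ Finset.range r, ((Δ i).card : ℝ) with hSd
  have hS0 : 0 ≤ S := by positivity
  have hl3 : 0 ≤ Real.log 3 := Real.log_nonneg (by norm_num)
  have hl2 : 0 ≤ Real.log 2 := Real.log_nonneg (by norm_num)
  have h1 : pr Δ e r ≤ ∏ i ∈ Finset.range r, (Real.exp (2 * Real.log 2 * (θ : ℝ) ^ 3 * (Δ i).card) *
      Real.exp (Real.log 3 * (((((Δ i).card : ℝ) - 1) / 2 - gn Δ e i) * ∑ j ∈ Finset.range i, (gn Δ e j : ℝ)))) := by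
    unfold pr
    apply Finset.prod_le_prod
    · intro i hi
      positivity
    · intro i hi
      have hi' := Finset.mem_range.mp hi
      apply mul_le_mul (nSub_sq _ θ (h.2.1 i hi').2.1) _ (by positivity) (by positivity)
      apply Real.exp_le_exp.mpr
      rw [mul_assoc]
      apply mul_le_mul_of_nonneg_left _ hl3
      apply mul_le_mul_of_nonneg_right _ (by positivity)
      have : (gn Δ e i : ℝ) ≤ e i := by exact_mod_cast min_le_left _ _
      linarith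
  refine h1.trans ?_
  rw [Finset.prod_mul_distrib, ← Real.exp_sum, ← Real.exp_sum, ← Real.exp_add]
  apply Real.exp_le_exp.mpr
  rw [← Finset.mul_sum, ← Finset.mul_sum]
  have h2 := si r (fun i => ((Δ i).card : ℝ)) (fun i => (gn Δ e i : ℝ)) θ (by positivity)
    (fun i hi => by exact_mod_cast (h.2.1 i hi).1) (fun i hi => by exact_mod_cast (h.2.1 i hi).2.1)
    (fun i j hij hj => by exact_mod_cast card_anti Δ e r h i j hij hj) (fun i _ => by positivity)
    (fun i _ => by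
      have h3 : gn Δ e i ≤ ((Δ i).card + 3) / 6 := min_le_right _ _
      have h4 : gn Δ e i * 6 ≤ (Δ i).card + 3 := (Nat.le_div_iff_mul_le (by norm_num)).mp h3
      have h5 : (gn Δ e i : ℝ) * 6 ≤ (Δ i).card + 3 := by exact_mod_cast h4
      linarith)
  rw [← hSd] at h2 ⊢
  have h3 : 8 / 243 * S ^ 2 + (θ : ℝ) * S + (θ : ℝ) ^ 2 ≤ 8 / 243 * (n : ℝ) ^ 2 + θ * n + (θ : ℝ) ^ 2 := by
    gcongr
  have h4 : 2 * Real.log 2 * (θ : ℝ) ^ 3 * S ≤ 2 * Real.log 2 * (θ : ℝ) ^ 3 * n := by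
    gcongr
  have h5 := mul_le_mul_of_nonneg_left (h2.trans h3) hl3
  linarith

theorem nSm_le (n θ : ℕ) : (nSm n θ : ℝ) ≤ ((n : ℝ) + 1) ^ (2 * n + 1) * Real.exp (2 * Real.log 2 * (θ : ℝ) ^ 3 * n +
      Real.log 3 * (8 / 243 * (n : ℝ) ^ 2 + θ * n + (θ : ℝ) ^ 2)) :=
  small_count n θ _ fun Δ e r h => pr_le Δ e r h

end Pool.Agent.NilS
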