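import Pool.Agent.NilS.OrdT
import Pool.Agent.NilS.Res

/-!
MP_7fa120_al, nilpotent subgroups. The order of the restriction to an orbit.

Proof. `G = res H Δ` is nilpotent of odd order (`odn_res`) and acts on the subtype `Δ` (the invariance is `inv_res`), transitively
(`orb_res`), and faithfully (its elements fix the points outside `Δ`). So `MulAction.toPermHom G Δ` is injective, the range has the
same order as `G`, and `ord_trans` applies.
-/

set_option autoImplicit false

namespace Pool.Agent.NilS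

open Equiv

theorem ord_res {Ω : Type} [Finite Ω] (H : Subgroup (Perm Ω)) (ho : Odn H) (Δ : Finset Ω) (hΔ : Orb H Δ) :
    Nat.card (res H Δ) ^ 2 * 3 ≤ 3 ^ Δ.card := by
  have hO : Odn (res H Δ) := odn_res ho hΔ.1
  have hI : Inv (res H Δ) Δ := inv_res hΔ.1 (Finset.Subset.refl Δ)
  have hT := orb_res hΔ.1 hΔ (Finset.Subset.refl Δ)
  have hnil : Group.IsNilpotent (res H Δ) := hO.1
  let act : MulAction (res H Δ) {x : Ω // x ∈ Δ} :=
    { smul := fun g x => ⟨(g : Perm Ω) x, hI g g.2 x x.2⟩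
      one_smul := fun x => Subtype.ext rfl
      mul_smul := fun g h x => Subtype.ext rfl }
  have hsm : ∀ (g : res H Δ) (x : {x : Ω // x ∈ Δ}), ((g • x : {x : Ω // x ∈ Δ}) : Ω) = (g : Perm Ω) x :=
    fun g x => rfl
  have htr : MulAction.IsPretransitive (res H Δ) {x : Ω // x ∈ Δ} := by
    refine ⟨fun x y => ?_⟩
    obtain ⟨h, hh, hxy⟩ := hT.2.2 x x.2 y y.2
    exact ⟨⟨h, hh⟩, Subtype.ext hxy⟩
  have hne : Nonempty {x : Ω // x ∈ Δ} := by
    obtain ⟨x, hx⟩ := hΔ.2.1
    exact ⟨⟨x, hx⟩⟩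
  have hinj : Function.Injective (MulAction.toPermHom (res H Δ) {x : Ω // x ∈ Δ}) := by
    intro g h hgh
    apply Subtype.ext
    apply Equiv.ext
    intro x
    by_cases hx : x ∈ Δ
    · have h1 : g • (⟨x, hx⟩ : {x : Ω // x ∈ Δ}) = h • (⟨x, hx⟩ : {x : Ω // x ∈ Δ}) := by
        have := Equiv.congr_fun hgh ⟨x, hx⟩
        simpa [MulAction.toPermHom_apply] using this
      have h2 := congrArg (fun z : {x : Ω // x ∈ Δ} => (z : Ω)) h1
      exact h2
    · rw [(mem_res.1 g.2).1 x hx, (mem_res.1 h.2).1 x hx]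
  have h := ord_trans (res H Δ) hO.2 {x : Ω // x ∈ Δ}
  have h1 : Nat.card (MulAction.toPermHom (res H Δ) {x : Ω // x ∈ Δ}).range = Nat.card (res H Δ) :=
    (Nat.card_congr (MonoidHom.ofInjective hinj).toEquiv).symm
  have h2 : Nat.card {x : Ω // x ∈ Δ} = Δ.card := by
    rw [Nat.card_eq_fintype_card, Fintype.card_coe]
  rwa [h1, h2] at h

end Pool.Agent.NilS
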