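import Pool.Agent.NilS.Blk

/-!
MP_7fa120_al, nilpotent subgroups. The order of a transitive nilpotent group of odd order.

Proof. Induction on `Nat.card X`. If `Nat.card X = 1` the range is trivial: `1 * 3 ≤ 3`. Otherwise take `p, Y, ψ` from
`exists_block`; `p ≥ 3` since `Nat.card G` is odd. With `R_X` the range and `N_X` the kernel of `G → Perm X`:
`|G| = |R_X| |N_X| = |R_Y| |N_Y|`, `N_X ≤ N_Y`, and `ψ` induces an injection of `N_Y / N_X` into `Y → ZMod p`, so
`|N_Y| ≤ p ^ |Y| |N_X|` and `|R_X| ≤ |R_Y| p ^ |Y|`. So, by induction,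
`|R_X| ^ 2 * 3 ≤ |R_Y| ^ 2 * 3 * p ^ (2 |Y|) ≤ 3 ^ |Y| * (p ^ 2) ^ |Y| = (3 p ^ 2) ^ |Y| ≤ (3 ^ p) ^ |Y| = 3 ^ |X|`,
because `3 * p ^ 2 ≤ 3 ^ p` for `p ≥ 3`.
-/

set_option autoImplicit false

namespace Pool.Agent.NilS

/-- The order of a finite group is the order of the range times the order of the kernel. -/
private theorem ord_card_range_ker {G K : Type} [Group G] [Group K] (f : G →* K) :
    Nat.card G = Nat.card f.range * Nat.card f.ker := by
  rw [Subgroup.card_eq_card_quotient_mul_card_subgroup f.ker,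
    Nat.card_congr (QuotientGroup.quotientKerEquivRange f).toEquiv]

private theorem ord_three_pow (p : ℕ) (hp : 3 ≤ p) : 3 * p ^ 2 ≤ 3 ^ p := by
  induction p, hp using Nat.le_induction with
  | base => norm_num
  | succ p hp ih =>
    have h1 : 3 * (p + 1) ^ 2 ≤ 3 * (3 * p ^ 2) := by nlinarith
    calc 3 * (p + 1) ^ 2 ≤ 3 * (3 * p ^ 2) := h1
      _ ≤ 3 * 3 ^ p := Nat.mul_le_mul_left 3 ih
      _ = 3 ^ (p + 1) := by rw [pow_succ]; ring

private theorem ord_step {G : Type} [Group G] [Finite G] {X Y : Type} [Finite Y] [MulAction G X] [MulAction G Y]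
    (p : ℕ) (hp : p.Prime)
    (ψ : (MulAction.toPermHom G Y).ker → (Y → ZMod p)) (hadd : ∀ a b, ψ (a * b) = ψ a + ψ b)
    (hz : ∀ a, ψ a = 0 ↔ (a : G) ∈ (MulAction.toPermHom G X).ker) :
    Nat.card (MulAction.toPermHom G X).range ≤
      Nat.card (MulAction.toPermHom G Y).range * p ^ Nat.card Y := by
  have : NeZero p := ⟨hp.ne_zero⟩
  let Ψ : (MulAction.toPermHom G Y).ker →* Multiplicative (Y → ZMod p) :=
    MonoidHom.mk' (fun a => Multiplicative.ofAdd (ψ a)) (fun a b => by rw [hadd]; rfl)
  have hΨ : ∀ a, a ∈ Ψ.ker ↔ (a : G) ∈ (MulAction.toPermHom G X).ker := by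
    intro a
    rw [MonoidHom.mem_ker, ← hz a]
    exact Iff.rfl
  have h1 : Nat.card Ψ.range ≤ p ^ Nat.card Y := by
    have h2 : Nat.card Ψ.range ≤ Nat.card (Multiplicative (Y → ZMod p)) :=
      Subgroup.card_le_card_group _
    have h3 : Nat.card (Multiplicative (Y → ZMod p)) = p ^ Nat.card Y := by
      rw [Nat.card_congr Multiplicative.toAdd, Nat.card_fun, Nat.card_zmod]
    rwa [h3] at h2
  have h2 : Nat.card Ψ.ker ≤ Nat.card (MulAction.toPermHom G X).ker := by
    refine Nat.card_le_card_of_injective (fun a : Ψ.ker => ⟨((a : (MulAction.toPermHom G Y).ker) : G), (hΨ a).1 a.2⟩) ?_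
    intro a b hab
    have h4 : ((a : (MulAction.toPermHom G Y).ker) : G) = ((b : (MulAction.toPermHom G Y).ker) : G) :=
      congrArg (fun t : (MulAction.toPermHom G X).ker => (t : G)) hab
    exact Subtype.ext (Subtype.ext h4)
  have h3 := ord_card_range_ker (MulAction.toPermHom G X)
  have h4 := ord_card_range_ker (MulAction.toPermHom G Y)
  have h5 := ord_card_range_ker Ψ
  have h6 : 0 < Nat.card (MulAction.toPermHom G X).ker := Nat.card_pos
  refine Nat.le_of_mul_le_mul_right ?_ h6
  calc Nat.card (MulAction.toPermHom G X).range * Nat.card (MulAction.toPermHom G X).ker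
      = Nat.card (MulAction.toPermHom G Y).range * (Nat.card Ψ.range * Nat.card Ψ.ker) := by
        rw [← h3, h4, h5]
    _ ≤ Nat.card (MulAction.toPermHom G Y).range * (p ^ Nat.card Y * Nat.card (MulAction.toPermHom G X).ker) :=
        Nat.mul_le_mul_left _ (Nat.mul_le_mul h1 h2)
    _ = _ := by ring

theorem ord_trans (G : Type) [Group G] [Finite G] [Group.IsNilpotent G] (ho : Odd (Nat.card G)) (X : Type) [Finite X]
    [Nonempty X] [MulAction G X] [MulAction.IsPretransitive G X] :
    Nat.card (MulAction.toPermHom G X).range ^ 2 * 3 ≤ 3 ^ Nat.card X := by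
  suffices H : ∀ n : ℕ, ∀ (X : Type) [Finite X] [Nonempty X] [MulAction G X] [MulAction.IsPretransitive G X],
      Nat.card X ≤ n → Nat.card (MulAction.toPermHom G X).range ^ 2 * 3 ≤ 3 ^ Nat.card X from
    H (Nat.card X) X le_rfl
  intro n
  induction n with
  | zero =>
    intro X _ _ _ _ hn
    have : 0 < Nat.card X := Nat.card_pos
    omega
  | succ n ih =>
    intro X _ _ _ _ hn
    have hpos : 0 < Nat.card X := Nat.card_pos
    rcases Nat.lt_or_ge 1 (Nat.card X) with h1 | h1
    · obtain ⟨p, Y, hYf, hYa, hp, hpG, hXY, hYt, -, ψ, hadd, hz, -⟩ := exists_block G X h1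
      have hp3 : 3 ≤ p := by
        have h2 := hp.two_le
        rcases Nat.lt_or_ge p 3 with h3 | h3
        · exfalso
          have h4 : p = 2 := by omega
          subst h4
          have h5 := Nat.odd_iff.1 ho
          omega
        · exact h3
      have hYpos : 0 < Nat.card Y := by
        rcases Nat.eq_zero_or_pos (Nat.card Y) with h2 | h2
        · rw [h2] at hXY
          omega
        · exact h2
      have : Nonempty Y := (Nat.card_pos_iff.1 hYpos).1
      have hYlt : Nat.card Y ≤ n := by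
        have h2 : 3 * Nat.card Y ≤ p * Nat.card Y := Nat.mul_le_mul_right _ hp3
        omega
      have hI := ih Y hYlt
      have hS := ord_step (X := X) p hp ψ hadd hz
      calc Nat.card (MulAction.toPermHom G X).range ^ 2 * 3
          ≤ (Nat.card (MulAction.toPermHom G Y).range * p ^ Nat.card Y) ^ 2 * 3 :=
            Nat.mul_le_mul_right 3 (Nat.pow_le_pow_left hS 2)
        _ = (Nat.card (MulAction.toPermHom G Y).range ^ 2 * 3) * (p ^ 2) ^ Nat.card Y := by
            rw [mul_pow, ← pow_mul, ← pow_mul, Nat.mul_comm 2 (Nat.card Y)]; ring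
        _ ≤ 3 ^ Nat.card Y * (p ^ 2) ^ Nat.card Y := Nat.mul_le_mul_right _ hI
        _ = (3 * p ^ 2) ^ Nat.card Y := by rw [mul_pow]
        _ ≤ (3 ^ p) ^ Nat.card Y := Nat.pow_le_pow_left (ord_three_pow p hp3) _
        _ = 3 ^ Nat.card X := by rw [← pow_mul, ← hXY]
    · have h2 : Nat.card X = 1 := by omega
      have : Subsingleton X := (Nat.card_eq_one_iff_unique.1 h2).1
      have h3 : Nat.card (MulAction.toPermHom G X).range = 1 := by
        have : Subsingleton (Equiv.Perm X) := inferInstance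
        exact Nat.card_unique
      rw [h2, h3]
      norm_num

end Pool.Agent.NilS
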