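import Pool.Agent.NilS.Defs

/-!
MP_7fa120_al, nilpotent subgroups. The structure of commuting pairs `P` (2-group), `Q` (odd order).

KEY LEMMA. If `p ∈ P`, `q ∈ Q` and `p x = q x` then `p x = x` and `q x = x`. Indeed `g = p⁻¹ q` fixes `x`; `p` and `q` commute, the order
of `q` is odd, say `m`, so `g ^ m = p⁻¹ ^ m` fixes `x`, and `p` is a power of `p ^ m` since the order of `p` is a power of two. More
generally if `p y ∈ Q-orbit of y` then `p y = y`.
Let `B` be the set of points moved by `Q` (invariant under `P` and `Q` as they commute). The orbits of the group `P Q` on `B`: choose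
for every `x ∈ B` a representative `r x` of its `P Q`-orbit (constant on orbits). For `y ∈ B`, `y = p q (r y)` for some `p ∈ P`, `q ∈ Q`;
put `α y = p (r y)`, `β y = q (r y)`. By the KEY LEMMA this is well defined: `α y` is the only point which is both in the `P`-orbit of
`r y` and in the `Q`-orbit of `y`, `β y` the only point in the `Q`-orbit of `r y` and in the `P`-orbit of `y`; and `(α y, β y)`
determines `y` (the only point in the `Q`-orbit of `α y` and in the `P`-orbit of `β y`). For `p ∈ P`: `α (p y) = p (α y)`,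
`β (p y) = β y`. `P` fixes `y` if and only if it fixes `α y` (same `Q`-orbit).
Put `Z = {y ∈ B : β y ≠ r y or P fixes y}`, `B' = {y ∈ B : α y = r y}` (the `Q`-orbits of the representatives), `τ y = α y`,
`ρ y = β y` if `P` moves `y`, and `τ y = ρ y = y` if `P` fixes `y`.
Then for `y ∈ Z` moved by `P`: `τ y` is in the `P`-orbit of `r y`, `β (τ y) = r y` and `P` moves `τ y`, so `τ y ∉ Z`; for `y ∈ Z` fixed by
`P`: `τ y = y ∈ Z`. This gives all the conditions on `P`, `Z`, `τ`, `ρ`. Every `y ∈ B` is `p q (r y)`, so `p⁻¹ y = q (r y) ∈ B'`.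
SIZES. `B'.card ≤ Z.card` by the injection `B' → Z`: `y ↦ y` if `P` fixes `y` or `y ≠ r y` (then `β y = y ≠ r y`); if `P` moves `y = r y`, map
`y` to a point `p q y` with `p y ≠ y`, `q y ≠ y`: it is in `Z` (`β = q y ≠ y`) but not in `B'` (`α = p y ≠ y`). `2 ≤ Z.card`: `Q ≠ ⊥`, so
there is `x ∈ B`, and the `Q`-orbit of `r x` has odd length at least 3; all its points with the possible exception of `r x` are in `Z`.
-/

set_option autoImplicit false

namespace Pool.Agent.NilS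

open Equiv

private theorem inv_app {n : ℕ} (p : Perm (Fin n)) (x : Fin n) : p⁻¹ (p x) = x := by simp

/-- If `p x = q x` then both are `x`. -/
private theorem key {n : ℕ} {P Q : Subgroup (Perm (Fin n))} (h : CP P Q) {p q : Perm (Fin n)}
    (hp : p ∈ P) (hq : q ∈ Q) {x : Fin n} (hx : p x = q x) : p x = x := by
  obtain ⟨⟨k, hk⟩, ⟨-, hodd⟩, hc⟩ := h
  have h1 : orderOf p ∣ 2 ^ k := hk ▸ Subgroup.orderOf_dvd_natCard P hp
  have h2 : Odd (orderOf q) := hodd.of_dvd_nat (Subgroup.orderOf_dvd_natCard Q hq)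
  have hcop : (orderOf p).Coprime (orderOf q) :=
    Nat.Coprime.coprime_dvd_left h1 (Nat.Coprime.pow_left k (Nat.coprime_two_left.2 h2))
  obtain ⟨a, ha1, ha2⟩ := Nat.chineseRemainder hcop 1 0
  have hpow : ∀ a : ℕ, (p ^ a) x = (q ^ a) x := by
    intro a
    induction a with
    | zero => simp
    | succ a ih =>
      have h3 : p ^ a * q = q * p ^ a := hc _ (P.pow_mem hp a) q hq
      calc (p ^ (a + 1)) x = (p ^ a) (p x) := by rw [pow_succ, Perm.mul_apply]
        _ = (p ^ a * q) x := by rw [hx, Perm.mul_apply]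
        _ = q ((p ^ a) x) := by rw [h3, Perm.mul_apply]
        _ = (q ^ (a + 1)) x := by rw [ih, pow_succ', Perm.mul_apply]
  have h4 := hpow a
  have h5 : p ^ a = p ^ 1 := pow_eq_pow_iff_modEq.2 ha1
  have h6 : q ^ a = q ^ 0 := pow_eq_pow_iff_modEq.2 ha2
  rw [h5, h6, pow_one, pow_zero] at h4
  exact h4

private theorem wd {n : ℕ} {P Q : Subgroup (Perm (Fin n))} (h : CP P Q) {p p' q q' : Perm (Fin n)}
    (hp : p ∈ P) (hp' : p' ∈ P) (hq : q ∈ Q) (hq' : q' ∈ Q) {x : Fin n} (hx : p (q x) = p' (q' x)) :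
    p x = p' x ∧ q x = q' x := by
  have h0 := h.2.2
  have h1 : (p'⁻¹ * p) x = (q⁻¹ * q') x := by
    have e1 : p'⁻¹ * p = p'⁻¹ * q⁻¹ * (p * q) := by
      rw [mul_assoc, ← mul_assoc q⁻¹ p q, ← h0 p hp q⁻¹ (Q.inv_mem hq), mul_assoc p, inv_mul_cancel, mul_one]
    have e2 : q⁻¹ * q' = p'⁻¹ * q⁻¹ * (p' * q') := by
      rw [h0 p'⁻¹ (P.inv_mem hp') q⁻¹ (Q.inv_mem hq), mul_assoc, inv_mul_cancel_left]
    rw [e1, e2, Perm.mul_apply _ (p * q), Perm.mul_apply _ (p' * q'), Perm.mul_apply p, Perm.mul_apply p', hx]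
  have h2 := key h (P.mul_mem (P.inv_mem hp') hp) (Q.mul_mem (Q.inv_mem hq) hq') h1
  have h3 := h1.symm.trans h2
  rw [Perm.mul_apply, Perm.inv_eq_iff_eq] at h2 h3
  exact ⟨h2, h3.symm⟩

private theorem exists_rep {n : ℕ} {P Q : Subgroup (Perm (Fin n))} (hc : ∀ p ∈ P, ∀ q ∈ Q, p * q = q * p) :
    ∃ (r : Fin n → Fin n) (a b : Fin n → Perm (Fin n)), (∀ y, a y ∈ P) ∧ (∀ y, b y ∈ Q) ∧
      (∀ y, a y (b y (r y)) = y) ∧ (∀ y, ∀ p ∈ P, r (p y) = r y) ∧ ∀ y, ∀ q ∈ Q, r (q y) = r y := by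
  have hc' : ∀ p ∈ P, ∀ q ∈ Q, ∀ x, p (q x) = q (p x) := by
    intro p hp q hq x
    rw [← Perm.mul_apply, hc p hp q hq, Perm.mul_apply]
  let s : Setoid (Fin n) :=
    { r := fun x y => ∃ p ∈ P, ∃ q ∈ Q, p (q x) = y
      iseqv := by
        refine ⟨fun x => ⟨1, P.one_mem, 1, Q.one_mem, rfl⟩, ?_, ?_⟩
        · rintro x y ⟨p, hp, q, hq, rfl⟩
          refine ⟨p⁻¹, P.inv_mem hp, q⁻¹, Q.inv_mem hq, ?_⟩
          rw [← hc' p hp q⁻¹ (Q.inv_mem hq)]
          · simp
        · rintro x y z ⟨p, hp, q, hq, rfl⟩ ⟨p', hp', q', hq', rfl⟩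
          refine ⟨p' * p, P.mul_mem hp' hp, q' * q, Q.mul_mem hq' hq, ?_⟩
          rw [Perm.mul_apply, Perm.mul_apply, hc' p hp q' hq'] }
  have h1 : ∀ y, ∃ p ∈ P, ∃ q ∈ Q, p (q (Quotient.mk s y).out) = y := fun y => Quotient.mk_out (s := s) y
  choose a ha b hb hab using h1
  refine ⟨fun y => (Quotient.mk s y).out, a, b, ha, hb, hab, ?_, ?_⟩
  · intro y p hp
    refine congrArg Quotient.out (Quotient.sound (s := s) ?_)
    exact ⟨p⁻¹, P.inv_mem hp, 1, Q.one_mem, by simp⟩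
  · intro y q hq
    refine congrArg Quotient.out (Quotient.sound (s := s) ?_)
    exact ⟨1, P.one_mem, q⁻¹, Q.inv_mem hq, by simp⟩

theorem exists_str {n : ℕ} (P Q : Subgroup (Perm (Fin n))) (h : CP P Q) (hQ : Q ≠ ⊥) :
    ∃ (Z B' : Finset (Fin n)) (τ ρ : Fin n → Fin n), 2 ≤ Z.card ∧ B'.card ≤ Z.card ∧ Inv P Z ∧ Inv Q B' ∧
      (∀ p ∈ P, ∀ x ∈ Z, ρ (p x) = ρ x ∧ (τ x ∉ Z → τ (p x) = p (τ x)) ∧ (τ x ∈ Z → p x = x)) ∧
      (∀ x ∈ Z, ∀ y ∈ Z, τ x = τ y → ρ x = ρ y → x = y) ∧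
      ∀ x, (∃ q ∈ Q, q x ≠ x) → ∃ p ∈ P, p x ∈ B' := by
  classical
  obtain ⟨r, a, b, ha, hb, hab, hrP, hrQ⟩ := exists_rep h.2.2
  have hc : ∀ p ∈ P, ∀ q ∈ Q, ∀ x, p (q x) = q (p x) := by
    intro p hp q hq x
    rw [← Perm.mul_apply, h.2.2 p hp q hq, Perm.mul_apply]
  have hun : ∀ y, ∀ p ∈ P, ∀ q ∈ Q, p (q (r y)) = y → a y (r y) = p (r y) ∧ b y (r y) = q (r y) :=
    fun y p hp q hq he => wd h (ha y) hp (hb y) hq ((hab y).trans he.symm)
  have hrr : ∀ y, r (r y) = r y := by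
    intro y
    conv_rhs => rw [← hab y, hrP _ _ (ha y), hrQ _ _ (hb y)]
  -- the two coordinates
  set α : Fin n → Fin n := fun y => a y (r y) with hα
  set β : Fin n → Fin n := fun y => b y (r y) with hβ
  have hrα : ∀ y, r (α y) = r y := fun y => (hrP _ _ (ha y)).trans (hrr y)
  have hαβ : ∀ y, a y (β y) = y := hab
  have hβα : ∀ y, b y (α y) = y := fun y => by
    rw [← hc _ (ha y) _ (hb y)]
    exact hab y
  have hαP : ∀ y, ∀ p ∈ P, α (p y) = p (α y) ∧ β (p y) = β y := by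
    intro y p hp
    have h1 := hun (p y) (p * a y) (P.mul_mem hp (ha y)) (b y) (hb y) (by
      rw [hrP y p hp, Perm.mul_apply, hab])
    rw [hrP y p hp, Perm.mul_apply] at h1
    refine ⟨?_, ?_⟩
    · show a (p y) (r (p y)) = _
      rw [hrP y p hp, h1.1]
    · show b (p y) (r (p y)) = _
      rw [hrP y p hp, h1.2]
  have hαQ : ∀ y, ∀ q ∈ Q, α (q y) = α y ∧ β (q y) = q (β y) := by
    intro y q hq
    have h1 := hun (q y) (a y) (ha y) (q * b y) (Q.mul_mem hq (hb y)) (by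
      rw [hrQ y q hq, Perm.mul_apply, hc _ (ha y) _ hq, hab])
    rw [hrQ y q hq, Perm.mul_apply] at h1
    refine ⟨?_, ?_⟩
    · show a (q y) (r (q y)) = _
      rw [hrQ y q hq, h1.1]
    · show b (q y) (r (q y)) = _
      rw [hrQ y q hq, h1.2]
  have hαr : ∀ y, α (r y) = r y ∧ β (r y) = r y := by
    intro y
    have h1 := hun (r y) 1 P.one_mem 1 Q.one_mem (by rw [hrr]; rfl)
    rw [hrr] at h1
    refine ⟨?_, ?_⟩
    · show a (r y) (r (r y)) = _
      rw [hrr, h1.1]; rfl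
    · show b (r y) (r (r y)) = _
      rw [hrr, h1.2]; rfl
  -- fixed points
  have hPf : ∀ y, (∀ p ∈ P, p y = y) ↔ ∀ p ∈ P, p (r y) = r y := by
    have hPQ : ∀ y, ∀ q ∈ Q, (∀ p ∈ P, p (q y) = q y) ↔ ∀ p ∈ P, p y = y := by
      intro y q hq
      refine forall_congr' fun p => forall_congr' fun hp => ?_
      rw [hc p hp q hq, q.injective.eq_iff]
    have hPP : ∀ y, ∀ p ∈ P, (∀ p' ∈ P, p' (p y) = p y) ↔ ∀ p' ∈ P, p' y = y := by
      intro y p hp
      constructor
      · intro h1 p' hp'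
        have h2 := h1 (p * p' * p⁻¹) (P.mul_mem (P.mul_mem hp hp') (P.inv_mem hp))
        rw [Perm.mul_apply, Perm.mul_apply, inv_app] at h2
        exact p.injective h2
      · intro h1 p' hp'
        rw [h1 p hp, h1 p' hp']
    intro y
    conv_lhs => rw [← hab y]
    rw [hPP _ _ (ha y), hPQ _ _ (hb y)]
  have hQf : ∀ y, (∀ q ∈ Q, q y = y) ↔ ∀ q ∈ Q, q (r y) = r y := by
    have hQP : ∀ y, ∀ p ∈ P, (∀ q ∈ Q, q (p y) = p y) ↔ ∀ q ∈ Q, q y = y := by
      intro y p hp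
      refine forall_congr' fun q => forall_congr' fun hq => ?_
      rw [← hc p hp q hq, p.injective.eq_iff]
    have hQQ : ∀ y, ∀ q ∈ Q, (∀ q' ∈ Q, q' (q y) = q y) ↔ ∀ q' ∈ Q, q' y = y := by
      intro y q hq
      constructor
      · intro h1 q' hq'
        have h2 := h1 (q * q' * q⁻¹) (Q.mul_mem (Q.mul_mem hq hq') (Q.inv_mem hq))
        rw [Perm.mul_apply, Perm.mul_apply, inv_app] at h2
        exact q.injective h2
      · intro h1 q' hq'
        rw [h1 q hq, h1 q' hq']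
    intro y
    conv_lhs => rw [← hab y]
    rw [hQP _ _ (ha y), hQQ _ _ (hb y)]
  set Pf : Fin n → Prop := fun y => ∀ p ∈ P, p y = y with hPfd
  set Qf : Fin n → Prop := fun y => ∀ q ∈ Q, q y = y with hQfd
  have hPfr : ∀ y z, r y = r z → (Pf y ↔ Pf z) := fun y z hyz => (hPf y).trans (hyz ▸ (hPf z).symm)
  have hQfr : ∀ y z, r y = r z → (Qf y ↔ Qf z) := fun y z hyz => (hQf y).trans (hyz ▸ (hQf z).symm)
  set Z : Finset (Fin n) := Finset.univ.filter fun y => ¬ Qf y ∧ (β y ≠ r y ∨ Pf y) with hZ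
  set B' : Finset (Fin n) := Finset.univ.filter fun y => ¬ Qf y ∧ α y = r y with hB'
  have mZ : ∀ y, y ∈ Z ↔ ¬ Qf y ∧ (β y ≠ r y ∨ Pf y) := fun y => by
    rw [hZ, Finset.mem_filter, and_iff_right (Finset.mem_univ y)]
  have mB' : ∀ y, y ∈ B' ↔ ¬ Qf y ∧ α y = r y := fun y => by
    rw [hB', Finset.mem_filter, and_iff_right (Finset.mem_univ y)]
  have hαZ : ∀ y, ¬ Pf y → α y ∉ Z := by
    intro y hy hm
    rcases ((mZ _).1 hm).2 with h1 | h1
    · apply h1
      show β (a y (r y)) = r (α y)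
      rw [(hαP (r y) _ (ha y)).2, (hαr y).2, hrα]
    · exact hy ((hPfr _ _ (hrα y)).1 h1)
  refine ⟨Z, B', fun y => if Pf y then y else α y, fun y => if Pf y then y else β y, ?_, ?_, ?_, ?_, ?_, ?_, ?_⟩
  · -- two points
    have h1 : ∃ x, ¬ Qf x := by
      by_contra hcon
      push Not at hcon
      apply hQ
      rw [Subgroup.eq_bot_iff_forall]
      intro q hq
      ext x
      rw [hcon x q hq]
      rfl
    obtain ⟨x, hx⟩ := h1
    have hx1 : ¬ Qf (r x) := fun h2 => hx ((hQfr _ _ (hrr x)).1 h2)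
    have hx2 : ∃ q ∈ Q, q (r x) ≠ r x := by
      by_contra hcon
      push Not at hcon
      exact hx1 hcon
    obtain ⟨q, hq, hqx⟩ := hx2
    have hin : ∀ q ∈ Q, q (r x) ≠ r x → q (r x) ∈ Z := by
      intro q hq hqx
      rw [mZ, (hαQ (r x) q hq).2, (hαr x).2, hrQ _ q hq, hrr]
      refine ⟨fun h2 => hx1 ((hQfr _ _ (hrQ _ q hq)).1 h2), Or.inl hqx⟩
    have hqx' : q⁻¹ (r x) ≠ r x := by
      intro h2
      rw [Perm.inv_eq_iff_eq] at h2
      exact hqx h2.symm
    have hne : q (r x) ≠ q⁻¹ (r x) := by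
      intro h2
      have h3 : (q ^ 2) (r x) = r x := by
        rw [pow_two, Perm.mul_apply, h2]
        simp
      have h4 : Odd (orderOf q) := h.2.1.2.of_dvd_nat (Subgroup.orderOf_dvd_natCard Q hq)
      obtain ⟨m, hm⟩ := h4
      have h5 : (q ^ 2) ^ (m + 1) = q := by
        rw [← pow_mul, show 2 * (m + 1) = (2 * m + 1) + 1 by ring, ← hm, pow_succ, pow_orderOf_eq_one, one_mul]
      have h6 : ∀ k : ℕ, ((q ^ 2) ^ k) (r x) = r x := by
        intro k
        induction k with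
        | zero => simp
        | succ k ih => rw [pow_succ, Perm.mul_apply, h3, ih]
      have h7 := h6 (m + 1)
      rw [h5] at h7
      exact hqx h7
    calc 2 = ({q (r x), q⁻¹ (r x)} : Finset (Fin n)).card := (Finset.card_pair hne).symm
      _ ≤ Z.card := by
        apply Finset.card_le_card
        intro y hy
        rw [Finset.mem_insert, Finset.mem_singleton] at hy
        rcases hy with rfl | rfl
        · exact hin q hq hqx
        · exact hin q⁻¹ (Q.inv_mem hq) hqx'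
  · -- sizes
    have hex : ∀ y, ¬ Qf y → ¬ Pf y → y = r y → ∃ z ∈ Z, z ∉ B' ∧ r z = y := by
      intro y hy1 hy2 hy3
      have h1 : ∃ p ∈ P, p y ≠ y := by
        by_contra hcon
        push Not at hcon
        exact hy2 hcon
      have h2 : ∃ q ∈ Q, q y ≠ y := by
        by_contra hcon
        push Not at hcon
        exact hy1 hcon
      obtain ⟨p, hp, hpy⟩ := h1
      obtain ⟨q, hq, hqy⟩ := h2
      have h3 : r (p (q y)) = r y := (hrP _ p hp).trans (hrQ _ q hq)
      have h4 : α y = y ∧ β y = y := by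
        have := hαr y
        rwa [← hy3] at this
      refine ⟨p (q y), ?_, ?_, h3.trans hy3.symm⟩
      · rw [mZ, (hαP _ p hp).2, (hαQ _ q hq).2, h4.2, h3, ← hy3]
        exact ⟨fun h5 => hy1 ((hQfr _ _ h3).1 h5), Or.inl hqy⟩
      · rw [mB', (hαP _ p hp).1, (hαQ _ q hq).1, h4.1, h3, ← hy3]
        exact fun h5 => hpy h5.2
    choose! g hg1 hg2 hg3 using hex
    refine Finset.card_le_card_of_injOn (fun y => if ¬ Pf y ∧ y = r y then g y else y) ?_ ?_
    · intro y hy
      have hy' := (mB' y).1 (Finset.mem_coe.1 hy)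
      show (if ¬ Pf y ∧ y = r y then g y else y) ∈ (Z : Set (Fin n))
      rw [Finset.mem_coe]
      split_ifs with h1
      · exact hg1 y hy'.1 h1.1 h1.2
      · rw [mZ]
        refine ⟨hy'.1, ?_⟩
        by_cases h2 : Pf y
        · exact Or.inr h2
        · left
          have h3 : β y = y := by
            have h4 := hβα y
            rw [hy'.2] at h4
            exact h4
          rw [h3]
          exact fun h4 => h1 ⟨h2, h4⟩
    · intro y hy z hz hyz
      have hy' := (mB' y).1 (Finset.mem_coe.1 hy)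
      have hz' := (mB' z).1 (Finset.mem_coe.1 hz)
      simp only at hyz
      split_ifs at hyz with h1 h2 h2
      · rw [← hg3 y hy'.1 h1.1 h1.2, ← hg3 z hz'.1 h2.1 h2.2, hyz]
      · exact absurd (hyz ▸ Finset.mem_coe.1 hz) (hg2 y hy'.1 h1.1 h1.2)
      · exact absurd (hyz ▸ Finset.mem_coe.1 hy) (hg2 z hz'.1 h2.1 h2.2)
      · exact hyz
  · intro p hp y hy
    rw [mZ] at hy ⊢
    rw [(hαP y p hp).2, hrP y p hp, hPfr _ _ (hrP y p hp), hQfr _ _ (hrP y p hp)]
    exact hy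
  · intro q hq y hy
    rw [mB'] at hy ⊢
    rw [(hαQ y q hq).1, hrQ y q hq, hQfr _ _ (hrQ y q hq)]
    exact hy
  · intro p hp x _
    have h1 := hPfr _ _ (hrP x p hp)
    by_cases hx : Pf x
    · have h2 : p x = x := hx p hp
      simp only [h2, if_pos hx]
      simp
    · have hx' : ¬ Pf (p x) := fun h2 => hx (h1.1 h2)
      simp only [if_neg hx, if_neg hx']
      exact ⟨(hαP x p hp).2, fun _ => (hαP x p hp).1, fun h2 => absurd h2 (hαZ x hx)⟩
  · intro x _ y _ h1 h2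
    by_cases hx : Pf x
    · by_cases hy : Pf y
      · simp only [if_pos hx, if_pos hy] at h1
        exact h1
      · simp only [if_pos hx, if_neg hy] at h1
        exact absurd ((hPfr x y (by rw [h1, hrα])).1 hx) hy
    · by_cases hy : Pf y
      · simp only [if_neg hx, if_pos hy] at h1
        exact absurd ((hPfr x y (by rw [← h1, hrα])).2 hy) hx
      · simp only [if_neg hx, if_neg hy] at h1 h2
        have h3 : r x = r y := by rw [← hrα x, ← hrα y, h1]
        have h4 : b x (r x) = b y (r y) := h2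
        calc x = b x (α x) := (hβα x).symm
          _ = b x (α y) := by rw [h1]
          _ = a y (b x (r y)) := (hc _ (ha y) _ (hb x) _).symm
          _ = a y (b y (r y)) := by rw [← h4, h3]
          _ = y := hab y
  · rintro x ⟨q, hq, hqx⟩
    refine ⟨(a x)⁻¹, P.inv_mem (ha x), ?_⟩
    rw [mB', (hαP x _ (P.inv_mem (ha x))).1, hrP x _ (P.inv_mem (ha x)), hQfr _ _ (hrP x _ (P.inv_mem (ha x)))]
    refine ⟨fun h1 => hqx (h1 q hq), ?_⟩
    show (a x)⁻¹ (a x (r x)) = r x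
    exact inv_app _ _

end Pool.Agent.NilS
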