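import Pool.Agent.NilS.Blk
import Pool.Agent.NilS.Dim

/-!
MP_7fa120_al, nilpotent subgroups. Generators of a normal subgroup of a transitive nilpotent group of odd order, modulo
commutators.

Proof. Induction on `Nat.card X`. Write `N_X` for the kernel on `X`. If `Nat.card X = 1` then `N_X = ⊤` and `S = ∅` works.
Let `1 < Nat.card X`, and take `p, Y, ψ` from `exists_block`; `p ≥ 3` because `Nat.card G` is odd. Let `N_Y` be the kernel on
`Y`, `M = K ⊓ N_Y`. Note `⁅K, ⊤⁆ ≤ K` because `K` is normal.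
Case `Nat.card Y = 1`: then `N_Y = ⊤`, `M = K`, and `ψ` maps `K` onto a subgroup of `Y → ZMod p`, which is cyclic of order
`1` or `p`. If `ψ k = 0` for all `k ∈ K` take `S = ∅`; otherwise `S = {k}` with `ψ k ≠ 0`: every element of `K` is
`k ^ i * n` with `n ∈ N_X`. `6 * S.card ≤ 6 ≤ p + 3 = Nat.card X + 3`.
Case `1 < Nat.card Y`: by induction for `Y` (a smaller set) there is `S' ⊆ K` with `6 * S'.card ≤ Nat.card Y + 3` and
`K ≤ closure S' ⊔ ⁅K, ⊤⁆ ⊔ N_Y`; since `N_Y` is normal and `closure S' ⊔ ⁅K, ⊤⁆ ≤ K`, every `k ∈ K` is `a * m` with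
`a ∈ closure S' ⊔ ⁅K, ⊤⁆` and `m ∈ K ⊓ N_Y = M`. Take `z, q` from `exists_central G Y` (`q ≥ 3` because `Nat.card G` is odd).
`U = ψ(M)` is an additive subgroup of `Y → ZMod p`, and `u ∘ (g⁻¹ •) ∈ U` for `u ∈ U`, `g ∈ G`, because `g M g⁻¹ = M`. Apply
`inv_dim` to `U` with `t = (z⁻¹ •)`: this gives `S₀ ⊆ U` with `3 * S₀.card ≤ Nat.card Y`. Let `S'' ⊆ M` be a set of
preimages of the elements of `S₀`. For `m ∈ M`: `ψ m = a + (b ∘ t - b)` with `a = ψ a'`, `a' ∈ closure S''`, `b = ψ b'`,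
`b' ∈ M`; and `b ∘ t - b = ψ (z b' z⁻¹ b'⁻¹)`, where `z b' z⁻¹ b'⁻¹ ∈ ⁅K, ⊤⁆`. So `m ∈ a' (z b' z⁻¹ b'⁻¹) N_X`
(an element of `N_Y` with `ψ = 0` is in `N_X`). So `S = S' ∪ S''` works:
`6 * S.card ≤ Nat.card Y + 3 + 2 * Nat.card Y = 3 * Nat.card Y + 3 ≤ p * Nat.card Y + 3 = Nat.card X + 3`.
-/

set_option autoImplicit false

namespace Pool.Agent.NilS

private theorem prime_ge_three {G : Type} [Group G] (ho : Odd (Nat.card G)) {p : ℕ} (hp : p.Prime)
    (hd : p ∣ Nat.card G) : 3 ≤ p := by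
  have h2 : p ≠ 2 := by
    rintro rfl
    exact (Nat.not_even_iff_odd.2 ho) (even_iff_two_dvd.2 hd)
  have := hp.two_le
  omega

private theorem psi_one {H A : Type} [Group H] [AddCommGroup A] {ψ : H → A} (h : ∀ a b, ψ (a * b) = ψ a + ψ b) :
    ψ 1 = 0 := by
  have := h 1 1
  rw [mul_one] at this
  exact left_eq_add.1 this

private theorem psi_inv {H A : Type} [Group H] [AddCommGroup A] {ψ : H → A} (h : ∀ a b, ψ (a * b) = ψ a + ψ b) (a : H) :
    ψ a⁻¹ = - ψ a := by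
  have h1 := h a⁻¹ a
  rw [inv_mul_cancel, psi_one h] at h1
  exact (neg_eq_of_add_eq_zero_left h1.symm).symm

private theorem psi_pow {H A : Type} [Group H] [AddCommGroup A] {ψ : H → A} (h : ∀ a b, ψ (a * b) = ψ a + ψ b) (a : H)
    (n : ℕ) : ψ (a ^ n) = n • ψ a := by
  induction n with
  | zero => rw [pow_zero, psi_one h, zero_smul]
  | succ n ih => rw [pow_succ, h, ih, succ_nsmul]

/-- Lifts of the elements of a closure. -/
private theorem lift_closure {G A : Type} [Group G] [AddCommGroup A] (N : Subgroup G) {ψ : N → A}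
    (h : ∀ a b, ψ (a * b) = ψ a + ψ b) (T : Set A) (f : A → G) (hf : ∀ s ∈ T, ∃ hs : f s ∈ N, ψ ⟨f s, hs⟩ = s) :
    ∀ a ∈ AddSubgroup.closure T, ∃ m : N, (m : G) ∈ Subgroup.closure (f '' T) ∧ ψ m = a := by
  intro a ha
  induction ha using AddSubgroup.closure_induction with
  | mem x hx =>
    obtain ⟨hs, h1⟩ := hf x hx
    exact ⟨⟨f x, hs⟩, Subgroup.subset_closure ⟨x, hx, rfl⟩, h1⟩
  | zero => exact ⟨1, one_mem _, psi_one h⟩
  | add x y _ _ hx hy =>
    obtain ⟨m, hm, rfl⟩ := hx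
    obtain ⟨m', hm', rfl⟩ := hy
    exact ⟨m * m', mul_mem hm hm', h _ _⟩
  | neg x _ hx =>
    obtain ⟨m, hm, rfl⟩ := hx
    exact ⟨m⁻¹, inv_mem hm, psi_inv h _⟩

/-- The elements of `K` which act trivially on `Y`. -/
private theorem level (G : Type) [Group G] [Finite G] [Group.IsNilpotent G] (ho : Odd (Nat.card G)) (Y : Type) [Finite Y]
    [MulAction G Y] [MulAction.IsPretransitive G Y] (hY : 1 < Nat.card Y) (K : Subgroup G) [K.Normal] (p : ℕ)
    (hp : p.Prime) (NX N : Subgroup G) [hNn : N.Normal] (ψ : N → (Y → ZMod p))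
    (h1 : ∀ a b, ψ (a * b) = ψ a + ψ b) (h2 : ∀ a, ψ a = 0 ↔ (a : G) ∈ NX)
    (h3 : ∀ (g : G) (a b : N), (b : G) = g * a * g⁻¹ → ∀ y : Y, ψ b y = ψ a (g⁻¹ • y)) :
    ∃ S : Finset G, (S : Set G) ⊆ K ∧ 3 * S.card ≤ Nat.card Y ∧
      K ⊓ N ≤ Subgroup.closure (S : Set G) ⊔ ⁅K, (⊤ : Subgroup G)⁆ ⊔ NX := by
  classical
  obtain ⟨z, q, hq, hqG, hz1, hz2, hz3⟩ := exists_central G Y hY
  have hq3 := prime_ge_three ho hq hqG
  let U : AddSubgroup (Y → ZMod p) :=
    { carrier := {u | ∃ m : N, (m : G) ∈ K ∧ ψ m = u}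
      add_mem' := by
        rintro a b ⟨m, hm, rfl⟩ ⟨m', hm', rfl⟩
        exact ⟨m * m', mul_mem hm hm', h1 _ _⟩
      zero_mem' := ⟨1, one_mem K, psi_one h1⟩
      neg_mem' := by
        rintro a ⟨m, hm, rfl⟩
        exact ⟨m⁻¹, inv_mem hm, psi_inv h1 _⟩ }
  have hUmem : ∀ u, u ∈ U ↔ ∃ m : N, (m : G) ∈ K ∧ ψ m = u := fun u => Iff.rfl
  have hconj : ∀ m : N, z * (m : G) * z⁻¹ ∈ N := fun m => hNn.conj_mem _ m.2 z
  have htapp : ∀ y : Y, (MulAction.toPermHom G Y z⁻¹) y = z⁻¹ • y := fun y => rfl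
  obtain ⟨S₀, hS₀, hS₀c, hS₀g⟩ := inv_dim Y (MulAction.toPermHom G Y z⁻¹) q hq hq3
    (by
      rw [← map_pow, inv_pow, map_inv, inv_eq_one]
      ext y
      exact hz2 y)
    (by
      intro y hy
      rw [htapp, inv_smul_eq_iff] at hy
      exact hz3 y hy.symm) p hp U
    (by
      rintro u ⟨m, hm, rfl⟩
      refine ⟨⟨z * m * z⁻¹, hconj m⟩, (inferInstance : K.Normal).conj_mem _ hm z, ?_⟩
      funext y
      exact h3 z m ⟨z * m * z⁻¹, hconj m⟩ rfl y)
  have hch : ∀ s : Y → ZMod p, ∃ g : G, s ∈ S₀ → ∃ hs : g ∈ N, g ∈ K ∧ ψ ⟨g, hs⟩ = s := by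
    intro s
    by_cases hs : s ∈ S₀
    · obtain ⟨m, hm, h⟩ := (hUmem s).1 (hS₀ hs)
      exact ⟨m, fun _ => ⟨m.2, hm, h⟩⟩
    · exact ⟨1, fun h => absurd h hs⟩
  choose f hf using hch
  refine ⟨S₀.image f, ?_, ?_, ?_⟩
  · intro g hg
    rw [Finset.coe_image] at hg
    obtain ⟨s, hs, rfl⟩ := hg
    exact (hf s hs).2.1
  · exact le_trans (Nat.mul_le_mul_left 3 Finset.card_image_le) hS₀c
  · rintro m ⟨hmK, hmN⟩
    obtain ⟨a, ha, b, hb, hab⟩ := hS₀g (ψ ⟨m, hmN⟩) ⟨⟨m, hmN⟩, hmK, rfl⟩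
    obtain ⟨a', ha', rfl⟩ := lift_closure N h1 (S₀ : Set (Y → ZMod p)) f
      (fun s hs => ⟨(hf s hs).1, (hf s hs).2.2⟩) a ha
    obtain ⟨b', hb', rfl⟩ := (hUmem b).1 hb
    have hc : ψ (⟨z * b' * z⁻¹, hconj b'⟩ * b'⁻¹) =
        (fun y => ψ b' ((MulAction.toPermHom G Y z⁻¹) y)) - ψ b' := by
      rw [h1, psi_inv h1, sub_eq_add_neg]
      congr 1
      funext y
      exact h3 z b' ⟨z * b' * z⁻¹, hconj b'⟩ rfl y
    have hn : ψ ((a' * (⟨z * b' * z⁻¹, hconj b'⟩ * b'⁻¹))⁻¹ * ⟨m, hmN⟩) = 0 := by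
      rw [h1, psi_inv h1, h1, hc, hab]
      abel
    rw [h2] at hn
    have hcomm : (z * (b' : G) * z⁻¹) * (b' : G)⁻¹ ∈ ⁅K, (⊤ : Subgroup G)⁆ := by
      rw [Subgroup.commutator_comm]
      exact Subgroup.commutator_mem_commutator (Subgroup.mem_top z) hb'
    have e : m = (a' : G) * ((z * (b' : G) * z⁻¹) * (b' : G)⁻¹) *
        (((a' : G) * ((z * (b' : G) * z⁻¹) * (b' : G)⁻¹))⁻¹ * m) := by
      rw [mul_inv_cancel_left]
    rw [e]
    refine mul_mem (Subgroup.mem_sup_left (mul_mem (Subgroup.mem_sup_left ?_) (Subgroup.mem_sup_right hcomm)))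
      (Subgroup.mem_sup_right ?_)
    · rw [Finset.coe_image]
      exact ha'
    · exact hn

private theorem rank_aux (G : Type) [Group G] [Finite G] [Group.IsNilpotent G] (ho : Odd (Nat.card G)) (K : Subgroup G)
    [K.Normal] :
    ∀ (n : ℕ) (X : Type) (_ : Finite X) (_ : Nonempty X) (_ : MulAction G X) (_ : MulAction.IsPretransitive G X),
      Nat.card X = n →
    ∃ S : Finset G, (S : Set G) ⊆ K ∧ 6 * S.card ≤ Nat.card X + 3 ∧
      K ≤ Subgroup.closure (S : Set G) ⊔ ⁅K, (⊤ : Subgroup G)⁆ ⊔ (MulAction.toPermHom G X).ker := by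
  classical
  intro n
  induction n using Nat.strong_induction_on with
  | _ n ih =>
  intro X _ _ _ _ hn
  have hpos : 0 < Nat.card X := Nat.card_pos
  rcases (by omega : Nat.card X = 1 ∨ 1 < Nat.card X) with hX | hX
  · -- one point
    refine ⟨∅, by simp, by simp, ?_⟩
    have hs : Subsingleton X := (Nat.card_eq_one_iff_unique.1 hX).1
    intro k _
    refine Subgroup.mem_sup_right ?_
    rw [MonoidHom.mem_ker]
    ext x
    exact Subsingleton.elim _ _
  obtain ⟨p, Y, _, _, hp, hpG, hXY, _, hNN, ψ, h1, h2, h3⟩ := exists_block G X hX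
  have hp3 := prime_ge_three ho hp hpG
  have hY0 : Nat.card Y ≠ 0 := by
    intro h
    rw [h, mul_zero] at hXY
    omega
  have hYne : Nonempty Y := (Nat.card_ne_zero.1 hY0).1
  rcases (by omega : Nat.card Y = 1 ∨ 1 < Nat.card Y) with hY | hY
  · -- one block
    have hs : Subsingleton Y := (Nat.card_eq_one_iff_unique.1 hY).1
    have hNtop : ∀ g : G, g ∈ (MulAction.toPermHom G Y).ker := by
      intro g
      rw [MonoidHom.mem_ker]
      ext y
      exact Subsingleton.elim _ _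
    obtain ⟨y₀⟩ := hYne
    have hfun : ∀ u v : Y → ZMod p, u y₀ = v y₀ → u = v := by
      intro u v h
      funext y
      rw [Subsingleton.elim y y₀, h]
    by_cases hz : ∃ k ∈ K, ψ ⟨k, hNtop k⟩ ≠ 0
    · obtain ⟨k, hk, hk0⟩ := hz
      have : Fact p.Prime := ⟨hp⟩
      have hk1 : ψ ⟨k, hNtop k⟩ y₀ ≠ 0 := fun h => hk0 (hfun _ _ h)
      refine ⟨{k}, by simpa using hk, ?_, ?_⟩
      · rw [Finset.card_singleton, hXY, hY]
        omega
      · intro m hm
        obtain ⟨i, hi⟩ : ∃ i : ℕ, ψ ⟨m, hNtop m⟩ = i • ψ ⟨k, hNtop k⟩ := by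
          refine ⟨(ψ ⟨m, hNtop m⟩ y₀ * (ψ ⟨k, hNtop k⟩ y₀)⁻¹).val, hfun _ _ ?_⟩
          rw [Pi.smul_apply, nsmul_eq_mul, ZMod.natCast_val, ZMod.cast_id', id, mul_assoc,
            inv_mul_cancel₀ hk1, mul_one]
        have hn : ψ ((⟨k, hNtop k⟩ ^ i)⁻¹ * ⟨m, hNtop m⟩) = 0 := by
          rw [h1, psi_inv h1, psi_pow h1, hi, neg_add_cancel]
        rw [h2] at hn
        have e : m = k ^ i * ((k ^ i)⁻¹ * m) := by rw [mul_inv_cancel_left]
        rw [e]
        refine mul_mem (Subgroup.mem_sup_left (Subgroup.mem_sup_left ?_)) (Subgroup.mem_sup_right hn)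
        exact pow_mem (Subgroup.subset_closure (by simp)) i
    · push Not at hz
      refine ⟨∅, by simp, by simp, ?_⟩
      intro m hm
      exact Subgroup.mem_sup_right ((h2 _).1 (hz m hm))
  · obtain ⟨S', hS'K, hS'c, hS'g⟩ := ih (Nat.card Y) (by
      rw [← hn, hXY]
      nlinarith) Y inferInstance hYne inferInstance inferInstance rfl
    obtain ⟨S'', hS''K, hS''c, hS''g⟩ := level G ho Y hY K p hp _ _ ψ h1 h2 h3
    refine ⟨S' ∪ S'', ?_, ?_, ?_⟩
    · rw [Finset.coe_union]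
      exact Set.union_subset hS'K hS''K
    · have hc := Finset.card_union_le S' S''
      have : 3 * Nat.card Y ≤ Nat.card X := by
        rw [hXY]
        exact Nat.mul_le_mul_right _ hp3
      omega
    · intro k hk
      have hk' := hS'g hk
      rw [← SetLike.mem_coe, Subgroup.mul_normal] at hk'
      obtain ⟨a, ha, m, hm, rfl⟩ := hk'
      have hAK : Subgroup.closure (S' : Set G) ⊔ ⁅K, (⊤ : Subgroup G)⁆ ≤ K :=
        sup_le ((Subgroup.closure_le K).2 hS'K) (Subgroup.commutator_le_left K ⊤)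
      have haK : a ∈ K := hAK ha
      have hmK : m ∈ K := by
        have h4 := mul_mem (inv_mem haK) hk
        simpa using h4
      have hm2 := hS''g ⟨hmK, hm⟩
      refine mul_mem (Subgroup.mem_sup_left ?_) ?_
      · exact (sup_le_sup_right (Subgroup.closure_mono (by
          rw [Finset.coe_union]
          exact Set.subset_union_left)) _) ha
      · exact (sup_le_sup_right (sup_le_sup_right (Subgroup.closure_mono (by
          rw [Finset.coe_union]
          exact Set.subset_union_right)) _) _) hm2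

theorem rank_trans (G : Type) [Group G] [Finite G] [Group.IsNilpotent G] (ho : Odd (Nat.card G)) (X : Type) [Finite X]
    [Nonempty X] [MulAction G X] [MulAction.IsPretransitive G X] (K : Subgroup G) [K.Normal] :
    ∃ S : Finset G, (S : Set G) ⊆ K ∧ 6 * S.card ≤ Nat.card X + 3 ∧
      K ≤ Subgroup.closure (S : Set G) ⊔ ⁅K, (⊤ : Subgroup G)⁆ ⊔ (MulAction.toPermHom G X).ker :=
  rank_aux G ho K (Nat.card X) X inferInstance inferInstance inferInstance inferInstance rfl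

end Pool.Agent.NilS
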