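import Pool.Agent.NilS.Res

/-!
MP_7fa120_al, nilpotent subgroups. Reduction to short orbits.

Proof. For `L ≤ Perm (Fin n)` let `Φ L = ∑ x, Real.logb 3 (orbit length of x)`, `0 ≤ Φ L ≤ n * Real.logb 3 n`. It is monotone in
`L`. Claim: if `L ≤ H` is not `Small L θ` there are `M < L` and `g ∈ L` with `closure (M ∪ {g}) = L` and `Φ M ≤ Φ L - θ`. Then the
theorem follows by repeating this, starting from `H` (induction on `Nat.card L`: for `L ≤ H` there are `L' ≤ L` with `Small L' θ`
and `S` with `θ * S.card ≤ Φ L` and `closure (L' ∪ S) = L`).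
Proof of the claim: let `Δ` be an orbit of `L` with more than `θ ≥ 1` points, `x ∈ Δ`. The stabilizer `L_x` is a proper subgroup of
`L`; let `M` be a maximal (proper) subgroup of `L` containing it. `L` is nilpotent (`odn_le`), so `M` is normal in `L`, and its index
is `p ≥ 3` (it is at least 2 and divides the odd order of `L`; primality is not needed). For `y ∈ Δ`, `y = l x` with `l ∈ L`, the
stabilizer `L_y = l L_x l⁻¹` is contained in `M` by normality, so the length of the orbit of `y` under `M` is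
`|M| / |L_y| = |Δ| / p ≤ |Δ| / 3`, and its logarithm to base 3 is at most `logb 3 |Δ| - 1`; the orbits of the other points do not
get longer. So `Φ M ≤ Φ L - |Δ| ≤ Φ L - θ`. For `g ∈ L`, `g ∉ M` one has `closure (M ∪ {g}) = L` by maximality.
-/

set_option autoImplicit false

namespace Pool.Agent.NilS

open Equiv

/-- The length of the orbit of `x`. -/
private noncomputable def ol {n : ℕ} (L : Subgroup (Perm (Fin n))) (x : Fin n) : ℕ := Nat.card (MulAction.orbit L x)

private theorem ol_mono {n : ℕ} {L M : Subgroup (Perm (Fin n))} (h : M ≤ L) (x : Fin n) : ol M x ≤ ol L x := by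
  unfold ol
  refine Nat.card_mono (Set.toFinite _) ?_
  rintro _ ⟨m, rfl⟩
  exact ⟨⟨m, h m.2⟩, rfl⟩

private theorem ol_pos {n : ℕ} (L : Subgroup (Perm (Fin n))) (x : Fin n) : 1 ≤ ol L x := by
  unfold ol
  have : Nonempty (MulAction.orbit L x) := ⟨⟨x, MulAction.mem_orbit_self x⟩⟩
  exact Nat.card_pos

private theorem ol_le {n : ℕ} (L : Subgroup (Perm (Fin n))) (x : Fin n) : ol L x ≤ n := by
  unfold ol
  have h : Nat.card (MulAction.orbit L x) ≤ Nat.card (Fin n) :=
    Nat.card_le_card_of_injective (fun y => (y : Fin n)) Subtype.val_injective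
  simpa using h

private noncomputable def phi {n : ℕ} (L : Subgroup (Perm (Fin n))) : ℝ := ∑ x, Real.logb 3 (ol L x)

private theorem phi_nonneg {n : ℕ} (L : Subgroup (Perm (Fin n))) : 0 ≤ phi L := by
  refine Finset.sum_nonneg fun x _ => Real.logb_nonneg (by norm_num) ?_
  exact_mod_cast ol_pos L x

private theorem phi_le {n : ℕ} (L : Subgroup (Perm (Fin n))) : phi L ≤ n * Real.logb 3 n := by
  unfold phi
  have h : ∀ x ∈ (Finset.univ : Finset (Fin n)), Real.logb 3 (ol L x) ≤ Real.logb 3 n := by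
    intro x _
    have h1 : (0 : ℝ) < ol L x := by exact_mod_cast ol_pos L x
    have h2 : (ol L x : ℝ) ≤ n := by exact_mod_cast ol_le L x
    exact Real.logb_le_logb_of_le (by norm_num) h1 h2
  refine (Finset.sum_le_sum h).trans (le_of_eq ?_)
  rw [Finset.sum_const, Finset.card_univ, Fintype.card_fin, nsmul_eq_mul]

/-- The orbits of a normal subgroup containing the stabilizer. -/
private theorem card_orbit_mul {G X : Type} [Group G] [MulAction G X] [Finite G] [Finite X] (M : Subgroup G) (y : X)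
    (h : MulAction.stabilizer G y ≤ M) :
    Nat.card (MulAction.orbit G y) = Nat.card (MulAction.orbit M y) * M.index := by
  have h1 : Nat.card (MulAction.orbit G y) * Nat.card (MulAction.stabilizer G y) = Nat.card G := by
    rw [← Nat.card_prod]
    exact (Nat.card_eq_of_bijective _ (MulAction.orbitProdStabilizerEquivGroup G y).bijective)
  have h2 : Nat.card (MulAction.orbit M y) * Nat.card (MulAction.stabilizer M y) = Nat.card M := by
    rw [← Nat.card_prod]
    exact (Nat.card_eq_of_bijective _ (MulAction.orbitProdStabilizerEquivGroup M y).bijective)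
  have h3 : Nat.card (MulAction.stabilizer M y) = Nat.card (MulAction.stabilizer G y) := by
    refine Nat.card_eq_of_bijective (fun m => ⟨(m.1 : G), m.2⟩) ⟨?_, ?_⟩
    · intro a b hab
      have := congrArg Subtype.val hab
      exact Subtype.ext (Subtype.ext this)
    · intro b
      exact ⟨⟨⟨b.1, h b.2⟩, b.2⟩, rfl⟩
  have h4 : Nat.card M * M.index = Nat.card G := Subgroup.card_mul_index M
  have h5 : 0 < Nat.card (MulAction.stabilizer G y) := Nat.card_pos
  rw [h3] at h2
  refine Nat.eq_of_mul_eq_mul_right h5 ?_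
  rw [h1, ← h4, ← h2]
  ring

private theorem step {n θ : ℕ} (hθ : 1 ≤ θ) (L : Subgroup (Perm (Fin n))) (ho : Odn L) (hs : ¬ Small L θ) :
    ∃ (M : Subgroup (Perm (Fin n))) (g : Perm (Fin n)), M ≤ L ∧ g ∈ L ∧ g ∉ M ∧
      M ⊔ Subgroup.zpowers g = L ∧ phi M + θ ≤ phi L := by
  obtain ⟨hn, hodd⟩ := ho
  unfold Small at hs
  push Not at hs
  obtain ⟨Δ, ⟨hinv, ⟨x, hx⟩, htr⟩, hΔ⟩ := hs
  -- the orbits of the points of `Δ`
  have horb : ∀ y ∈ Δ, MulAction.orbit L y = (Δ : Set (Fin n)) := by
    intro y hy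
    ext z
    constructor
    · rintro ⟨g, rfl⟩
      exact hinv g.1 g.2 y hy
    · intro hz
      obtain ⟨g, hg, hgz⟩ := htr y hy z hz
      exact ⟨⟨g, hg⟩, hgz⟩
  have hol : ∀ y ∈ Δ, ol L y = Δ.card := by
    intro y hy
    unfold ol
    rw [horb y hy]
    simp
  have hne : MulAction.stabilizer L x ≠ ⊤ := by
    intro htop
    have h1 : Δ.card ≤ 1 := by
      refine Finset.card_le_one.2 ?_
      have h2 : ∀ z ∈ Δ, z = x := by
        intro z hz
        obtain ⟨g, hg, hgz⟩ := htr x hx z hz
        have : (⟨g, hg⟩ : L) ∈ MulAction.stabilizer L x := by rw [htop]; trivial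
        rw [MulAction.mem_stabilizer_iff] at this
        rw [← hgz]
        exact this
      intro a ha b hb
      rw [h2 a ha, h2 b hb]
    omega
  obtain ⟨M', hM', hle⟩ : ∃ M' : Subgroup L, IsCoatom M' ∧ MulAction.stabilizer L x ≤ M' := by
    rcases eq_top_or_exists_le_coatom (MulAction.stabilizer L x) with h | h
    · exact absurd h hne
    · exact h
  have : Group.IsNilpotent L := hn
  have hnorm : M'.Normal :=
    Subgroup.NormalizerCondition.normal_of_coatom M' Group.normalizerCondition_of_isNilpotent hM'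
  have hidx : 3 ≤ M'.index := by
    have h1 : M'.index ≠ 1 := by
      intro h
      exact hM'.1 (Subgroup.index_eq_one.1 h)
    have h2 : Odd M'.index := Odd.of_dvd_nat hodd (Subgroup.index_dvd_card M')
    rcases h2 with ⟨k, hk⟩
    omega
  have hstab : ∀ y ∈ Δ, MulAction.stabilizer L y ≤ M' := by
    intro y hy
    obtain ⟨g, hg, hgy⟩ := htr x hx y hy
    intro s hs
    have h1 : (⟨g, hg⟩ : L)⁻¹ * s * ⟨g, hg⟩ ∈ MulAction.stabilizer L x := by
      rw [MulAction.mem_stabilizer_iff] at hs ⊢
      have h2 : (⟨g, hg⟩ : L) • x = y := hgy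
      rw [mul_smul, mul_smul, h2, hs, ← h2, inv_smul_smul]
    have h3 := hnorm.conj_mem _ (hle h1) (⟨g, hg⟩ : L)
    have h4 : (⟨g, hg⟩ : L) * ((⟨g, hg⟩ : L)⁻¹ * s * ⟨g, hg⟩) * (⟨g, hg⟩ : L)⁻¹ = s := by group
    rwa [h4] at h3
  obtain ⟨g', hg'⟩ : ∃ g' : L, g' ∉ M' := by
    by_contra hc
    push Not at hc
    exact hM'.1 (eq_top_iff.2 fun z _ => hc z)
  have hsup : M' ⊔ Subgroup.zpowers g' = ⊤ := by
    refine hM'.2 _ (lt_of_le_of_ne le_sup_left ?_)
    intro h
    exact hg' (h ▸ (Subgroup.mem_sup_right (Subgroup.mem_zpowers g')))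
  refine ⟨M'.map L.subtype, g', ?_, g'.2, ?_, ?_, ?_⟩
  · rintro _ ⟨m, _, rfl⟩
    exact m.2
  · rintro ⟨m, hm, hmg⟩
    exact hg' (by rwa [Subtype.ext hmg] at hm)
  · have h1 := congrArg (Subgroup.map L.subtype) hsup
    rw [Subgroup.map_sup, ← MonoidHom.range_eq_map, Subgroup.range_subtype, MonoidHom.map_zpowers] at h1
    exact h1
  · have hmono : ∀ y, ol (M'.map L.subtype) y ≤ ol L y := by
      refine fun y => ol_mono ?_ y
      rintro _ ⟨m, _, rfl⟩
      exact m.2
    have horbM : ∀ y : Fin n, (MulAction.orbit (M'.map L.subtype) y : Set (Fin n)) = MulAction.orbit M' y := by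
      intro y
      ext z
      constructor
      · rintro ⟨⟨_, m, hm, rfl⟩, rfl⟩
        exact ⟨⟨m, hm⟩, rfl⟩
      · rintro ⟨⟨m, hm⟩, rfl⟩
        exact ⟨⟨_, m, hm, rfl⟩, rfl⟩
    have hthird : ∀ y ∈ Δ, Real.logb 3 (ol (M'.map L.subtype) y) + 1 ≤ Real.logb 3 (ol L y) := by
      intro y hy
      have h1 : ol L y = ol (M'.map L.subtype) y * M'.index := by
        unfold ol
        rw [horbM y]
        exact card_orbit_mul M' y (hstab y hy)
      have h2 : (0 : ℝ) < ol (M'.map L.subtype) y := by exact_mod_cast ol_pos _ y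
      have h3 : Real.logb 3 (ol (M'.map L.subtype) y) + 1 = Real.logb 3 (ol (M'.map L.subtype) y * 3) := by
        rw [Real.logb_mul h2.ne' (by norm_num), Real.logb_self_eq_one (by norm_num)]
      rw [h3]
      refine Real.logb_le_logb_of_le (by norm_num) (by positivity) ?_
      rw [h1]
      push_cast
      have h4 : (3 : ℝ) ≤ M'.index := by exact_mod_cast hidx
      exact mul_le_mul_of_nonneg_left h4 h2.le
    have hge : ∀ y, Real.logb 3 (ol (M'.map L.subtype) y) + (if y ∈ Δ then 1 else 0) ≤ Real.logb 3 (ol L y) := by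
      intro y
      split_ifs with hy
      · exact hthird y hy
      · rw [add_zero]
        refine Real.logb_le_logb_of_le (by norm_num) (by exact_mod_cast ol_pos _ y) ?_
        exact_mod_cast hmono y
    have hsum := Finset.sum_le_sum fun y (_ : y ∈ (Finset.univ : Finset (Fin n))) => hge y
    rw [Finset.sum_add_distrib] at hsum
    have hcard : ∑ y : Fin n, (if y ∈ Δ then (1 : ℝ) else 0) = Δ.card := by
      rw [Finset.sum_ite_mem]
      simp
    rw [hcard] at hsum
    have hΔ' : (θ : ℝ) ≤ Δ.card := by exact_mod_cast hΔ.le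
    unfold phi
    linarith

private theorem red_aux {n θ : ℕ} (hθ : 1 ≤ θ) (N : ℕ) : ∀ L : Subgroup (Perm (Fin n)), Odn L → Nat.card L ≤ N →
    ∃ (L' : Subgroup (Perm (Fin n))) (S : Finset (Perm (Fin n))), L' ≤ L ∧ Small L' θ ∧
      (θ : ℝ) * S.card ≤ phi L ∧ Subgroup.closure ((L' : Set (Perm (Fin n))) ∪ S) = L := by
  induction N with
  | zero =>
    intro L _ hL
    have : 0 < Nat.card L := Nat.card_pos
    omega
  | succ N ih =>
    intro L ho hL
    by_cases hs : Small L θ
    · refine ⟨L, ∅, le_rfl, hs, ?_, ?_⟩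
      · simpa using phi_nonneg L
      · simp
    · obtain ⟨M, g, hM, hg, hgM, hsup, hphi⟩ := step hθ L ho hs
      have hlt : Nat.card M < Nat.card L := by
        refine lt_of_le_of_ne (Subgroup.card_le_of_le hM) fun h => ?_
        exact hgM ((Subgroup.eq_of_le_of_card_ge hM h.ge) ▸ hg)
      obtain ⟨L', S, h1, h2, h3, h4⟩ := ih M (odn_le ho hM) (by omega)
      classical
      refine ⟨L', insert g S, h1.trans hM, h2, ?_, ?_⟩
      · have h5 : ((insert g S).card : ℝ) ≤ S.card + 1 := by exact_mod_cast Finset.card_insert_le g S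
        have h6 : (0 : ℝ) ≤ θ := by positivity
        nlinarith [mul_le_mul_of_nonneg_left h5 h6]
      · rw [Finset.coe_insert, Set.union_insert, Set.insert_eq, Set.union_comm, Subgroup.closure_union, h4,
          ← Subgroup.zpowers_eq_closure, hsup]

theorem exists_red {n θ : ℕ} (hθ : 1 ≤ θ) (H : Subgroup (Perm (Fin n))) (ho : Odn H) :
    ∃ (L : Subgroup (Perm (Fin n))) (S : Finset (Perm (Fin n))), L ≤ H ∧ Small L θ ∧
      (θ : ℝ) * S.card ≤ n * Real.logb 3 n ∧ Subgroup.closure ((L : Set (Perm (Fin n))) ∪ S) = H := by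
  obtain ⟨L, S, h1, h2, h3, h4⟩ := red_aux hθ (Nat.card H) H ho le_rfl
  exact ⟨L, S, h1, h2, h3.trans (phi_le H), h4⟩

end Pool.Agent.NilS
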