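import Mathlib

/-!
MP_7fa120_al, nilpotent subgroups. The main inequality (real numbers only).

Proof. If `k = 0` the left side is `0`. Let `L i = (s i - 1) / 2`, `D i = (s i + 3) / 6`, so `L i + D i = 2 (s i) / 3`,
`0 ≤ L i`, `0 ≤ κ i ≤ D i`; `A = ∑ L i`, `S = ∑ s i > 0`, `A ≤ S / 2`. For `j < k` let `Λ j = ∑_{j < i < k} L i` (decreasing in `j`),
`X = ∑ κ i`. The left side is `E = ∑ j, κ j * Λ j - (X ^ 2 - ∑ (κ j) ^ 2) / 2`. For every real `x`, `- X ^ 2 / 2 ≤ x ^ 2 / 2 - x X`, so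
`E ≤ ∑ j, κ j * (Λ j - x) + x ^ 2 / 2 + ∑ (κ j) ^ 2 / 2`.
Let `T m = ∑_{i < m} s i` and let `m ≤ k` be maximal with `T m ≤ 3 A / 2`. As `3 A / 2 ≤ 3 S / 4 < S`, `m < k` and
`T m ≤ 3 A / 2 < T (m + 1) ≤ T m + θ`. Take `x = ∑_{m ≤ i < k} L i = A - a`, `a = ∑_{i < m} L i`. For `j ≥ m`, `Λ j ≤ x`; for
`j < m`, `Λ j - x = ∑_{j < i < m} L i ≥ 0`. So, with `κ j ≤ D j`,
`E ≤ ∑_{j < i < m} D j * L i + (A - a) ^ 2 / 2 + ∑ (D j) ^ 2 / 2`.
`D j * L i = (2 / 3) s j * L i - L j * L i`, and `s j * L i ≤ s i * L j` for `j ≤ i` (as `s i ≤ s j`), so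
`∑_{j < i < m} s j * L i ≤ (T m) * a / 2` and `∑_{j < i < m} L j * L i = (a ^ 2 - ∑_{i < m} (L i) ^ 2) / 2`. Hence
`E ≤ T a / 3 - a ^ 2 / 2 + (A - a) ^ 2 / 2 + err = A ^ 2 / 2 - a * (A - T / 3) + err`, `T = T m`,
`err = ∑ (L i) ^ 2 / 2 + ∑ (D i) ^ 2 / 2 ≤ ∑ (L i + D i) ^ 2 / 2 = (2 / 9) ∑ (s i) ^ 2 ≤ (2 / 9) θ S`.
Next `a * S ≥ T * A`: this is `a * (S - T) ≥ T * (A - a)`, which follows from `L j * s i ≥ s j * L i` for `j < m ≤ i`. As
`A - T / 3 ≥ A / 2 ≥ 0`, `a * (A - T / 3) ≥ (A / S) * T * (A - T / 3)`, and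
`T * (A - T / 3) = 3 A ^ 2 / 4 - (T - 3 A / 2) ^ 2 / 3 ≥ 3 A ^ 2 / 4 - θ ^ 2 / 3`. So, with `α = A / S ∈ [0, 1 / 2]`,
`E ≤ S ^ 2 * (α ^ 2 / 2 - 3 α ^ 3 / 4) + θ ^ 2 / 6 + (2 / 9) θ S`, and
`8 / 243 - α ^ 2 / 2 + 3 α ^ 3 / 4 = (3 / 4) (α - 4 / 9) ^ 2 (α + 2 / 9) ≥ 0`.
-/

set_option autoImplicit false

namespace Pool.Agent.NilS

private theorem sum_tri (f : ℕ → ℝ) (m : ℕ) :
    ∑ i ∈ Finset.range m, f i * ∑ j ∈ Finset.range i, f j =
      ((∑ i ∈ Finset.range m, f i) ^ 2 - ∑ i ∈ Finset.range m, f i ^ 2) / 2 := by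
  induction m with
  | zero => simp
  | succ m ih =>
    simp only [Finset.sum_range_succ, ih]
    ring

private theorem tri_le (k : ℕ) (s : ℕ → ℝ) (h3 : ∀ i < k, 3 ≤ s i)
    (ha : ∀ i j, i ≤ j → j < k → s j ≤ s i) : ∀ m, m ≤ k →
    ∑ i ∈ Finset.range m, ((s i - 1) / 2) * ∑ j ∈ Finset.range i, s j ≤
      (∑ i ∈ Finset.range m, s i) * (∑ i ∈ Finset.range m, (s i - 1) / 2) / 2 := by
  intro m
  induction m with
  | zero => intro _; simp
  | succ m ih =>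
    intro hm
    have h1 := ih (by omega)
    simp only [Finset.sum_range_succ]
    have h2 : (s m - 1) / 2 * ∑ j ∈ Finset.range m, s j ≤ s m * ∑ i ∈ Finset.range m, (s i - 1) / 2 := by
      rw [Finset.mul_sum, Finset.mul_sum]
      refine Finset.sum_le_sum fun j hj => ?_
      have := ha j m (by have := Finset.mem_range.1 hj; omega) (by omega)
      nlinarith [this]
    have h3' := h3 m (by omega)
    have h4 : 0 ≤ s m * ((s m - 1) / 2) := mul_nonneg (by linarith) (by linarith)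
    nlinarith [h1, h2, h4]

private theorem key_avg (k m : ℕ) (hm : m ≤ k) (s : ℕ → ℝ)
    (ha : ∀ i j, i ≤ j → j < k → s j ≤ s i) :
    (∑ i ∈ Finset.range m, s i) * (∑ i ∈ Finset.range k, (s i - 1) / 2) ≤
      (∑ i ∈ Finset.range m, (s i - 1) / 2) * (∑ i ∈ Finset.range k, s i) := by
  rw [← Finset.sum_range_add_sum_Ico (fun i => (s i - 1) / 2) hm,
    ← Finset.sum_range_add_sum_Ico (fun i => s i) hm]
  have h : (∑ i ∈ Finset.range m, s i) * (∑ i ∈ Finset.Ico m k, (s i - 1) / 2) ≤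
      (∑ i ∈ Finset.range m, (s i - 1) / 2) * (∑ i ∈ Finset.Ico m k, s i) := by
    rw [Finset.sum_mul_sum, Finset.sum_mul_sum]
    refine Finset.sum_le_sum fun j hj => Finset.sum_le_sum fun i hi => ?_
    have h1 := Finset.mem_range.1 hj
    have h2 := Finset.mem_Ico.1 hi
    have := ha j i (by omega) h2.2
    nlinarith [this]
  nlinarith [h]

theorem si (k : ℕ) (s κ : ℕ → ℝ) (θ : ℝ) (hθ0 : 0 ≤ θ) (h3 : ∀ i < k, 3 ≤ s i) (hθ : ∀ i < k, s i ≤ θ)
    (ha : ∀ i j, i ≤ j → j < k → s j ≤ s i) (h0 : ∀ i < k, 0 ≤ κ i) (hκ : ∀ i < k, κ i ≤ (s i + 3) / 6) :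
    ∑ i ∈ Finset.range k, ((s i - 1) / 2 - κ i) * ∑ j ∈ Finset.range i, κ j ≤
      8 / 243 * (∑ i ∈ Finset.range k, s i) ^ 2 + θ * (∑ i ∈ Finset.range k, s i) + θ ^ 2 := by
  rcases Nat.eq_zero_or_pos k with hk | hk
  · subst hk
    simp only [Finset.range_zero, Finset.sum_empty]
    nlinarith [sq_nonneg θ]
  obtain ⟨S, hS⟩ : ∃ S, S = ∑ i ∈ Finset.range k, s i := ⟨_, rfl⟩
  obtain ⟨A, hA⟩ : ∃ A, A = ∑ i ∈ Finset.range k, (s i - 1) / 2 := ⟨_, rfl⟩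
  obtain ⟨X, hX⟩ : ∃ X, X = ∑ i ∈ Finset.range k, κ i := ⟨_, rfl⟩
  have hSpos : 0 < S := by
    rw [hS]
    exact Finset.sum_pos (fun i hi => by linarith [h3 i (Finset.mem_range.1 hi)]) ⟨0, Finset.mem_range.2 hk⟩
  have hA0 : 0 ≤ A := by
    rw [hA]
    exact Finset.sum_nonneg fun i hi => by linarith [h3 i (Finset.mem_range.1 hi)]
  have hAS : A ≤ S / 2 := by
    rw [hA, hS, Finset.sum_div]
    exact Finset.sum_le_sum fun i hi => by linarith
  -- the cut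
  obtain ⟨m, hmk, hT1, hT2⟩ : ∃ m < k, ∑ i ∈ Finset.range m, s i ≤ 3 * A / 2 ∧
      3 * A / 2 ≤ (∑ i ∈ Finset.range m, s i) + θ := by
    have hex : ∃ n, 3 * A / 2 < ∑ i ∈ Finset.range n, s i := ⟨k, by rw [← hS]; linarith⟩
    classical
    have hn := Nat.find_spec hex
    have hnk : Nat.find hex ≤ k := Nat.find_min' hex (by rw [← hS]; linarith)
    have hn0 : Nat.find hex ≠ 0 := by
      intro h
      rw [h] at hn
      simp only [Finset.range_zero, Finset.sum_empty] at hn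
      linarith
    obtain ⟨m, hm⟩ := Nat.exists_eq_succ_of_ne_zero hn0
    have hm' : m < Nat.find hex := by omega
    have h1 := Nat.find_min hex hm'
    rw [hm, Nat.succ_eq_add_one, Finset.sum_range_succ] at hn
    refine ⟨m, by omega, not_lt.1 h1, ?_⟩
    linarith [hθ m (by omega)]
  obtain ⟨T, hT⟩ : ∃ T, T = ∑ i ∈ Finset.range m, s i := ⟨_, rfl⟩
  obtain ⟨a, hadef⟩ : ∃ a, a = ∑ i ∈ Finset.range m, (s i - 1) / 2 := ⟨_, rfl⟩
  rw [← hT] at hT1 hT2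
  have hT0 : 0 ≤ T := by
    rw [hT]
    exact Finset.sum_nonneg fun i hi => by
      have := Finset.mem_range.1 hi
      linarith [h3 i (by omega)]
  have havg : T * A ≤ a * S := by
    rw [hT, hA, hadef, hS]
    exact key_avg k m hmk.le s ha
  have htri : ∑ i ∈ Finset.range m, ((s i - 1) / 2) * ∑ j ∈ Finset.range i, s j ≤ T * a / 2 := by
    rw [hT, hadef]
    exact tri_le k s h3 ha m hmk.le
  have hAa : A - a = ∑ i ∈ Finset.Ico m k, (s i - 1) / 2 := by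
    rw [hA, hadef, ← Finset.sum_range_add_sum_Ico (fun i => (s i - 1) / 2) hmk.le]
    ring
  -- first step
  have e1 : ∑ i ∈ Finset.range k, ((s i - 1) / 2 - κ i) * ∑ j ∈ Finset.range i, κ j =
      ∑ i ∈ Finset.range k, (s i - 1) / 2 * ∑ j ∈ Finset.range i, κ j -
        (X ^ 2 - ∑ i ∈ Finset.range k, κ i ^ 2) / 2 := by
    rw [hX, ← sum_tri κ k, ← Finset.sum_sub_distrib]
    exact Finset.sum_congr rfl fun i _ => by ring
  have e2 : ∑ i ∈ Finset.range k, (s i - 1) / 2 * ∑ j ∈ Finset.range i, κ j ≤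
      ∑ i ∈ Finset.range m, (s i - 1) / 2 * ∑ j ∈ Finset.range i, (s j + 3) / 6 + (A - a) * X := by
    rw [← Finset.sum_range_add_sum_Ico (fun i => (s i - 1) / 2 * ∑ j ∈ Finset.range i, κ j) hmk.le, hAa,
      Finset.sum_mul]
    refine add_le_add ?_ ?_
    · refine Finset.sum_le_sum fun i hi => ?_
      have hi' := Finset.mem_range.1 hi
      refine mul_le_mul_of_nonneg_left (Finset.sum_le_sum fun j hj => hκ j ?_) (by linarith [h3 i (by omega)])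
      have := Finset.mem_range.1 hj
      omega
    · refine Finset.sum_le_sum fun i hi => ?_
      have hi' := Finset.mem_Ico.1 hi
      refine mul_le_mul_of_nonneg_left ?_ (by linarith [h3 i (by omega)])
      rw [hX]
      refine Finset.sum_le_sum_of_subset_of_nonneg ?_ fun j hj _ => h0 j (Finset.mem_range.1 hj)
      intro j hj
      have := Finset.mem_range.1 hj
      exact Finset.mem_range.2 (by omega)
  have e3 : ∑ i ∈ Finset.range m, (s i - 1) / 2 * ∑ j ∈ Finset.range i, (s j + 3) / 6 =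
      2 / 3 * ∑ i ∈ Finset.range m, ((s i - 1) / 2) * ∑ j ∈ Finset.range i, s j -
        (a ^ 2 - ∑ i ∈ Finset.range m, ((s i - 1) / 2) ^ 2) / 2 := by
    rw [hadef, ← sum_tri (fun i => (s i - 1) / 2) m, Finset.mul_sum, ← Finset.sum_sub_distrib]
    refine Finset.sum_congr rfl fun i _ => ?_
    have : ∑ j ∈ Finset.range i, (s j + 3) / 6 =
        2 / 3 * ∑ j ∈ Finset.range i, s j - ∑ j ∈ Finset.range i, (s j - 1) / 2 := by
      rw [Finset.mul_sum, ← Finset.sum_sub_distrib]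
      exact Finset.sum_congr rfl fun j _ => by ring
    rw [this]
    ring
  have e4 : (∑ i ∈ Finset.range m, ((s i - 1) / 2) ^ 2) + ∑ i ∈ Finset.range k, κ i ^ 2 ≤ 4 / 9 * (θ * S) := by
    have q1 : ∑ i ∈ Finset.range m, ((s i - 1) / 2) ^ 2 ≤ ∑ i ∈ Finset.range k, ((s i - 1) / 2) ^ 2 := by
      refine Finset.sum_le_sum_of_subset_of_nonneg ?_ fun j _ _ => sq_nonneg _
      intro j hj
      have := Finset.mem_range.1 hj
      exact Finset.mem_range.2 (by omega)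
    have q2 : (∑ i ∈ Finset.range k, ((s i - 1) / 2) ^ 2) + ∑ i ∈ Finset.range k, κ i ^ 2 ≤ 4 / 9 * (θ * S) := by
      rw [hS, Finset.mul_sum, Finset.mul_sum, ← Finset.sum_add_distrib]
      refine Finset.sum_le_sum fun i hi => ?_
      have hi' := Finset.mem_range.1 hi
      have b1 := h3 i hi'
      have b2 := hθ i hi'
      have b3 := h0 i hi'
      have b4 := hκ i hi'
      have b5 : κ i ^ 2 ≤ ((s i + 3) / 6) ^ 2 := by
        apply pow_le_pow_left₀ b3 b4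
      have b6 : s i * s i ≤ θ * s i := mul_le_mul_of_nonneg_right b2 (by linarith)
      have b7 : 0 ≤ (s i - 1) / 2 * ((s i + 3) / 6) := mul_nonneg (by linarith) (by linarith)
      nlinarith [b5, b6, b7]
    linarith
  -- the left side
  have e5 : ∑ i ∈ Finset.range k, ((s i - 1) / 2 - κ i) * ∑ j ∈ Finset.range i, κ j ≤
      T * a / 3 - a ^ 2 / 2 + (A - a) ^ 2 / 2 + 2 / 9 * (θ * S) := by
    rw [e1]
    have := sq_nonneg (X - (A - a))
    nlinarith [e2, e3, e4, htri, this]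
  refine e5.trans ?_
  rw [← hS]
  -- the end
  have f1 : T * a / 3 - a ^ 2 / 2 + (A - a) ^ 2 / 2 = A ^ 2 / 2 - a * (A - T / 3) := by ring
  rw [f1]
  have f2 : 0 ≤ A - T / 3 := by linarith
  have f3 : A * (T * (A - T / 3)) ≤ S * (a * (A - T / 3)) := by
    have := mul_le_mul_of_nonneg_right havg f2
    nlinarith [this]
  have f4 : 3 * A ^ 2 / 4 - θ ^ 2 / 3 ≤ T * (A - T / 3) := by
    have : (3 * A / 2 - T) ^ 2 ≤ θ ^ 2 := pow_le_pow_left₀ (by linarith) (by linarith) 2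
    nlinarith [this]
  have f5 : A * (3 * A ^ 2 / 4 - θ ^ 2 / 3) ≤ S * (a * (A - T / 3)) :=
    (mul_le_mul_of_nonneg_left f4 hA0).trans f3
  -- divide by `S`
  have f6 : 0 ≤ (A - 4 / 9 * S) ^ 2 * (A + 2 / 9 * S) := mul_nonneg (sq_nonneg _) (by linarith)
  have f7 : A * θ ^ 2 ≤ S / 2 * θ ^ 2 := mul_le_mul_of_nonneg_right hAS (sq_nonneg _)
  have f8 : 0 ≤ S * (8 / 243 * S ^ 2 + θ * S + θ ^ 2 - (A ^ 2 / 2 - a * (A - T / 3) + 2 / 9 * (θ * S))) := by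
    have g1 : 0 ≤ θ * S * S := mul_nonneg (mul_nonneg hθ0 hSpos.le) hSpos.le
    have g2 : 0 ≤ θ ^ 2 * S := mul_nonneg (sq_nonneg _) hSpos.le
    nlinarith [f5, f6, f7, g1, g2]
  have f9 := nonneg_of_mul_nonneg_right f8 hSpos
  linarith

end Pool.Agent.NilS
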