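import Pool.Agent.NilS.OrdR

/-!
MP_7fa120_al, nilpotent subgroups. Counting the groups with one more orbit.

Proof. For such an `H` let `T = res H Δ` and `K = fx H U`; both are subgroups of `Perm (Fin n)` which move no point outside `Δ`
(an element of `fx H U` fixes `U` and everything outside `Δ ∪ U`), and `K ≤ T`. The number of subgroups which move no point
outside `Δ` is at most `nSub Δ.card` (they correspond to subgroups of `Perm Δ ≃ Perm (Fin Δ.card)`). So it suffices to show that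
for given `T, K` the number of `H` is at most `(|T| / |K|) ^ d`: `|T| ^ 2 * 3 ≤ 3 ^ Δ.card` (`ord_res`), `3 ^ e ≤ |K|`, so
`|T| / |K| ≤ exp (log 3 * ((Δ.card - 1) / 2 - e))`.
Let `h_1, …, h_d` generate `H' = res H U` (a list with repetitions, `Fin d → Perm (Fin n)`). Every `h_i` is the restriction to `U`
of an element `g_i ∈ H`; let `t_i ∈ T` be the restriction of `g_i` to `Δ`, so that `g_i = t_i * h_i` (`Δ`, `U` are disjoint).
The coset `t_i K` does not depend on the choice of `g_i` (two choices differ by an element of `K`, and `K` commutes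
with `H'`), and `K` is normalised by `T` (conjugation by `g_i` is conjugation by `t_i` on `K`). `H` is generated by `K` and
the `t_i h_i`: the subgroup `H₁` they generate is contained in `H`, its restriction to `U` is `H'` and it contains
`K = fx H U`. So `H` is determined by the cosets `t_i K`, elements of the quotient of `T` by `K.subgroupOf T`, which
has `|T| / |K|` elements.
-/

set_option autoImplicit false

namespace Pool.Agent.NilS

open Equiv

/-- Counting by fibres. -/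
private lemma stc_fib {X Y : Type} [Finite X] [Finite Y] (f : X → Y) (B : ℝ)
    (hB : ∀ y, (Nat.card {x // f x = y} : ℝ) ≤ B) : (Nat.card X : ℝ) ≤ Nat.card Y * B := by
  have := Fintype.ofFinite Y
  have h1 : Nat.card X = ∑ y, Nat.card {x // f x = y} := by
    rw [← Nat.card_sigma]
    exact Nat.card_congr (Equiv.sigmaFiberEquiv f).symm
  rw [h1, Nat.cast_sum, Nat.card_eq_fintype_card]
  calc ∑ y, (Nat.card {x // f x = y} : ℝ) ≤ ∑ _y : Y, B := Finset.sum_le_sum fun y _ => hB y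
    _ = Fintype.card Y * B := by rw [Finset.sum_const, nsmul_eq_mul, Finset.card_univ]

private lemma stc_ai {n : ℕ} (f : Perm (Fin n)) (x : Fin n) : f (f⁻¹ x) = x := by
  rw [← Perm.mul_apply, mul_inv_cancel, Perm.one_apply]

/-- Permutations with disjoint supports commute. -/
private lemma stc_comm {n : ℕ} {Δ U : Finset (Fin n)} (hd : Disjoint Δ U) {t h : Perm (Fin n)}
    (ht : ∀ x, x ∉ Δ → t x = x) (hh : ∀ x, x ∉ U → h x = x) : t * h = h * t := by
  have h1 : Perm.Disjoint t h := by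
    intro x
    by_cases hx : x ∈ Δ
    · exact Or.inr (hh x (Finset.disjoint_left.1 hd hx))
    · exact Or.inl (ht x hx)
  exact h1.commute

/-- The number of subgroups which move no point outside `Δ`. -/
private lemma stc_sub {n : ℕ} (Δ : Finset (Fin n)) :
    Nat.card {T : Subgroup (Perm (Fin n)) // ∀ t ∈ T, ∀ x, x ∉ Δ → t x = x} ≤ nSub Δ.card := by
  classical
  let φ : Perm (Fin Δ.card) →* Perm (Fin n) :=
    (Perm.ofSubtype (p := fun x => x ∈ Δ)).comp (Δ.equivFin.symm.permCongrHom).toMonoidHom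
  have hr : ∀ σ : Perm (Fin n), (∀ x, x ∉ Δ → σ x = x) → σ ∈ φ.range := by
    intro σ hσ
    have hm : ∀ x, σ x ∈ Δ ↔ x ∈ Δ := by
      intro x
      constructor
      · intro hx
        by_contra hc
        rw [hσ x hc] at hx
        exact hc hx
      · intro hx
        by_contra hc
        have h1 := hσ (σ x) hc
        have h2 := σ.injective h1
        rw [h2] at hc
        exact hc hx
    have h1 : Perm.ofSubtype (σ.subtypePerm hm) = σ := by
      apply Perm.ofSubtype_subtypePerm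
      intro x hx
      by_contra hc
      exact hx (hσ x hc)
    obtain ⟨τ, hτ⟩ := (Δ.equivFin.symm.permCongrHom).surjective (σ.subtypePerm hm)
    refine ⟨τ, ?_⟩
    rw [← h1, ← hτ]
    rfl
  refine Nat.card_le_card_of_injective (fun T => (T : Subgroup (Perm (Fin n))).comap φ) ?_
  intro T T' hTT
  have h1 : ∀ T : {T : Subgroup (Perm (Fin n)) // ∀ t ∈ T, ∀ x, x ∉ Δ → t x = x},
      ((T : Subgroup (Perm (Fin n))).comap φ).map φ = T := by
    intro T
    exact Subgroup.map_comap_eq_self fun t ht => hr t (T.2 t ht)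
  apply Subtype.ext
  rw [← h1 T, ← h1 T']
  exact congrArg (Subgroup.map φ) hTT

/-- Every element of `res H U` has a partner on `Δ`. -/
private lemma stc_ex {n : ℕ} {Δ U : Finset (Fin n)} (hd : Disjoint Δ U) {H : Subgroup (Perm (Fin n))}
    (hs : ∀ h ∈ H, ∀ x, x ∉ Δ → x ∉ U → h x = x) {h : Perm (Fin n)} (hh : h ∈ res H U) :
    ∃ t ∈ res H Δ, t * h ∈ H := by
  obtain ⟨h1, g, hg, h2⟩ := hh
  have h3 : ∀ x, x ∉ U → h⁻¹ x = x := fun x hx => by rw [Perm.inv_eq_iff_eq, h1 x hx]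
  refine ⟨g * h⁻¹, ⟨fun x hx => ?_, g, hg, fun x hx => ?_⟩, ?_⟩
  · by_cases hU : x ∈ U
    · have h4 : h⁻¹ x ∈ U := by
        by_contra hc
        have h5 := h1 _ hc
        rw [stc_ai] at h5
        rw [← h5] at hc
        exact hc hU
      rw [Perm.mul_apply, ← h2 _ h4, stc_ai]
    · rw [Perm.mul_apply, h3 x hU, hs g hg x hx hU]
  · rw [Perm.mul_apply, h3 x (Finset.disjoint_left.1 hd hx)]
  · rw [inv_mul_cancel_right]
    exact hg

/-- Every element of `H` is `t * h` with `h ∈ res H U`. -/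
private lemma stc_dec {n : ℕ} {Δ U : Finset (Fin n)} {H : Subgroup (Perm (Fin n))}
    (hU : Inv H U) (hs : ∀ h ∈ H, ∀ x, x ∉ Δ → x ∉ U → h x = x) {g : Perm (Fin n)} (hg : g ∈ H) :
    ∃ h ∈ res H U, ∀ x, x ∈ U → g x = h x := by
  obtain ⟨f, h1, h2, -, -⟩ := exists_resHom H U hU
  refine ⟨f ⟨g, hg⟩, ?_, fun x hx => ?_⟩
  · rw [← h1]
    exact ⟨_, rfl⟩
  · rw [h2 _ x hx]

/-- Two groups with the same data are equal. -/
private lemma stc_le {n : ℕ} {Δ U : Finset (Fin n)} (hd : Disjoint Δ U) {H₁ H₂ : Subgroup (Perm (Fin n))}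
    (hU : Inv H₁ U) (hs : ∀ h ∈ H₁, ∀ x, x ∉ Δ → x ∉ U → h x = x)
    (hr : res H₁ U = res H₂ U) (hf : fx H₁ U = fx H₂ U) (S : Finset (Perm (Fin n)))
    (hS : Subgroup.closure (S : Set (Perm (Fin n))) = res H₁ U)
    (hc : ∀ h ∈ S, ∃ t : Perm (Fin n), (∀ x, x ∉ Δ → t x = x) ∧ t * h ∈ H₁ ∧ t * h ∈ H₂) : H₁ ≤ H₂ := by
  have hSU : ∀ h ∈ Subgroup.closure (S : Set (Perm (Fin n))), ∀ x, x ∉ U → h x = x := by
    intro h hh
    rw [hS] at hh
    exact hh.1
  have key : ∀ h ∈ Subgroup.closure (S : Set (Perm (Fin n))),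
      ∃ t : Perm (Fin n), (∀ x, x ∉ Δ → t x = x) ∧ t * h ∈ H₁ ∧ t * h ∈ H₂ := by
    intro h hh
    induction hh using Subgroup.closure_induction with
    | mem h hh => exact hc h hh
    | one => exact ⟨1, fun _ _ => rfl, by rw [mul_one]; exact H₁.one_mem, by rw [mul_one]; exact H₂.one_mem⟩
    | mul a b ha hb iha ihb =>
      obtain ⟨t, ht, h1, h2⟩ := iha
      obtain ⟨u, hu, h3, h4⟩ := ihb
      have h5 : t * u * (a * b) = (t * a) * (u * b) := by
        have h6 : u * a = a * u := stc_comm hd hu (hSU a ha)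
        calc t * u * (a * b) = t * (u * a) * b := by group
          _ = t * (a * u) * b := by rw [h6]
          _ = _ := by group
      refine ⟨t * u, fun x hx => ?_, ?_, ?_⟩
      · rw [Perm.mul_apply, hu x hx, ht x hx]
      · rw [h5]
        exact H₁.mul_mem h1 h3
      · rw [h5]
        exact H₂.mul_mem h2 h4
    | inv a ha iha =>
      obtain ⟨t, ht, h1, h2⟩ := iha
      have ht' : ∀ x, x ∉ Δ → t⁻¹ x = x := fun x hx => by rw [Perm.inv_eq_iff_eq, ht x hx]
      have h5 : t⁻¹ * a⁻¹ = (t * a)⁻¹ := by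
        have h6 : t * a = a * t := stc_comm hd ht (hSU a ha)
        rw [h6, mul_inv_rev]
      refine ⟨t⁻¹, ht', ?_, ?_⟩
      · rw [h5]
        exact H₁.inv_mem h1
      · rw [h5]
        exact H₂.inv_mem h2
  intro g hg
  obtain ⟨h, hh, hgh⟩ := stc_dec hU hs hg
  have hh' := hh
  rw [← hS] at hh'
  obtain ⟨t, ht, h1, h2⟩ := key h hh'
  have hk : g * (t * h)⁻¹ ∈ fx H₁ U := by
    refine ⟨H₁.mul_mem hg (H₁.inv_mem h1), fun x hx => ?_⟩
    have h6 : t * h = h * t := stc_comm hd ht (hSU h hh')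
    have h7 : ∀ x, x ∉ Δ → t⁻¹ x = x := fun x hx => by rw [Perm.inv_eq_iff_eq, ht x hx]
    have h8 : h⁻¹ x ∈ U := by
      by_contra hc
      have h5 := hh.1 _ hc
      rw [stc_ai] at h5
      rw [← h5] at hc
      exact hc hx
    have h9 : h⁻¹ x ∉ Δ := Finset.disjoint_right.1 hd h8
    rw [h6, mul_inv_rev, Perm.mul_apply, Perm.mul_apply, h7 _ h9, hgh _ h8, stc_ai]
  rw [hf] at hk
  have h10 := H₂.mul_mem hk.1 h2
  rwa [inv_mul_cancel_right] at h10

theorem count_step {n : ℕ} (Δ U : Finset (Fin n)) (hd : Disjoint Δ U) (e d : ℕ) (H' : Subgroup (Perm (Fin n)))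
    (hg : Gen H' d) :
    (Nat.card {H : Subgroup (Perm (Fin n)) // Odn H ∧ Orb H Δ ∧ Inv H U ∧
      (∀ h ∈ H, ∀ x, x ∉ Δ → x ∉ U → h x = x) ∧ Nat.log 3 (Nat.card (fx H U)) = e ∧ res H U = H'} : ℝ) ≤
      (nSub Δ.card : ℝ) ^ 2 * Real.exp (Real.log 3 * (((Δ.card : ℝ) - 1) / 2 - e) * d) := by
  classical
  obtain ⟨S, hSd, hS⟩ := hg
  set P : Subgroup (Perm (Fin n)) → Prop := fun H => Odn H ∧ Orb H Δ ∧ Inv H U ∧
      (∀ h ∈ H, ∀ x, x ∉ Δ → x ∉ U → h x = x) ∧ Nat.log 3 (Nat.card (fx H U)) = e ∧ res H U = H' with hP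
  set A : Type := {T : Subgroup (Perm (Fin n)) // ∀ t ∈ T, ∀ x, x ∉ Δ → t x = x} with hA
  have hfx : ∀ H, P H → ∀ t ∈ fx H U, ∀ x, x ∉ Δ → t x = x := by
    intro H hH t ht x hx
    by_cases hU : x ∈ U
    · exact ht.2 x hU
    · exact hH.2.2.2.1 t ht.1 x hx hU
  let f : {H // P H} → A × A := fun H => (⟨res H.1 Δ, fun t ht => ht.1⟩, ⟨fx H.1 U, hfx H.1 H.2⟩)
  set B : ℝ := Real.exp (Real.log 3 * (((Δ.card : ℝ) - 1) / 2 - e) * d) with hB
  have hB0 : 0 < B := Real.exp_pos _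
  have main : ∀ y : A × A, (Nat.card {x // f x = y} : ℝ) ≤ B := by
    rintro ⟨⟨T, hT⟩, ⟨K, hK⟩⟩
    rcases isEmpty_or_nonempty {x // f x = (⟨T, hT⟩, ⟨K, hK⟩)} with hE | ⟨⟨⟨H₀, hH₀⟩, hf₀⟩⟩
    · rw [Nat.card_of_isEmpty, Nat.cast_zero]
      exact hB0.le
    have hfib : ∀ x : {x // f x = (⟨T, hT⟩, ⟨K, hK⟩)}, res x.1.1 Δ = T ∧ fx x.1.1 U = K := by
      rintro ⟨⟨H, hH⟩, hx⟩
      have h1 := congrArg (fun z => z.1.1) hx
      have h2 := congrArg (fun z => z.2.1) hx
      exact ⟨h1, h2⟩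
    obtain ⟨hT0, hK0⟩ := hfib ⟨⟨H₀, hH₀⟩, hf₀⟩
    simp only at hT0 hK0
    -- the partners
    have hex : ∀ (x : {x // f x = (⟨T, hT⟩, ⟨K, hK⟩)}) (h : S), ∃ t : T, (t : Perm (Fin n)) * h ∈ x.1.1 := by
      intro x h
      have hx := x.1.2
      have h1 : (h : Perm (Fin n)) ∈ res x.1.1 U := by
        rw [hx.2.2.2.2.2, ← hS]
        exact Subgroup.subset_closure h.2
      obtain ⟨t, ht, h2⟩ := stc_ex hd hx.2.2.2.1 h1
      rw [(hfib x).1] at ht
      exact ⟨⟨t, ht⟩, h2⟩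
    choose c hc using hex
    have hinj : Function.Injective (fun x : {x // f x = (⟨T, hT⟩, ⟨K, hK⟩)} =>
        (fun h : S => (QuotientGroup.mk (c x h) : T ⧸ K.subgroupOf T))) := by
      have hle : ∀ x y : {x // f x = (⟨T, hT⟩, ⟨K, hK⟩)},
          (fun h : S => (QuotientGroup.mk (c x h) : T ⧸ K.subgroupOf T)) =
          (fun h : S => (QuotientGroup.mk (c y h) : T ⧸ K.subgroupOf T)) → x.1.1 ≤ y.1.1 := by
        intro x y hxy
        have hx := x.1.2
        have hy := y.1.2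
        refine stc_le hd hx.2.2.1 hx.2.2.2.1 (by rw [hx.2.2.2.2.2, hy.2.2.2.2.2])
          (by rw [(hfib x).2, (hfib y).2]) S (by rw [hS, hx.2.2.2.2.2]) ?_
        intro h hh
        have h1 := congrFun hxy ⟨h, hh⟩
        rw [QuotientGroup.eq, Subgroup.mem_subgroupOf] at h1
        refine ⟨c x ⟨h, hh⟩, hT _ (c x ⟨h, hh⟩).2, hc x ⟨h, hh⟩, ?_⟩
        have h2 := hc y ⟨h, hh⟩
        simp only at h2
        set t₁ : Perm (Fin n) := (c x ⟨h, hh⟩ : Perm (Fin n)) with ht₁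
        set t₂ : Perm (Fin n) := (c y ⟨h, hh⟩ : Perm (Fin n)) with ht₂
        have h3 : t₁⁻¹ * t₂ ∈ K := h1
        have h4 : (t₁⁻¹ * t₂)⁻¹ ∈ K := K.inv_mem h3
        have h5 : ∀ z, z ∉ U → h z = z := by
          have h6 : h ∈ res x.1.1 U := by
            rw [hx.2.2.2.2.2, ← hS]
            exact Subgroup.subset_closure hh
          exact h6.1
        have h6 : (t₁⁻¹ * t₂)⁻¹ * h = h * (t₁⁻¹ * t₂)⁻¹ := stc_comm hd (hK _ h4) h5
        have h7 : (t₁⁻¹ * t₂)⁻¹ ∈ y.1.1 := by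
          rw [← (hfib y).2] at h4
          exact h4.1
        have h8 : t₁ * h = t₂ * h * (t₁⁻¹ * t₂)⁻¹ := by
          calc t₁ * h = t₂ * ((t₁⁻¹ * t₂)⁻¹ * h) := by group
            _ = t₂ * (h * (t₁⁻¹ * t₂)⁻¹) := by rw [h6]
            _ = _ := by group
        rw [h8]
        exact y.1.1.mul_mem h2 h7
      intro x y hxy
      apply Subtype.ext
      apply Subtype.ext
      exact le_antisymm (hle x y hxy) (hle y x hxy.symm)
    have hcard : Nat.card {x // f x = (⟨T, hT⟩, ⟨K, hK⟩)} ≤ Nat.card (T ⧸ K.subgroupOf T) ^ S.card := by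
      have h1 := Nat.card_le_card_of_injective _ hinj
      rwa [Nat.card_fun, Nat.card_eq_fintype_card (α := S), Fintype.card_coe] at h1
    -- the index
    have hKT : K ≤ T := by
      intro k hk
      have h1 : k ∈ fx H₀ U := by rw [hK0]; exact hk
      rw [← hT0]
      exact ⟨hK k hk, k, h1.1, fun _ _ => rfl⟩
    have hq : Nat.card T = Nat.card (T ⧸ K.subgroupOf T) * Nat.card K := by
      rw [Subgroup.card_eq_card_quotient_mul_card_subgroup (K.subgroupOf T),
        Nat.card_congr (Subgroup.subgroupOfEquivOfLe hKT).toEquiv]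
    have hTc : Nat.card T ^ 2 * 3 ≤ 3 ^ Δ.card := by
      have h1 := ord_res H₀ hH₀.1 Δ hH₀.2.1
      rwa [hT0] at h1
    have hKc : 3 ^ e ≤ Nat.card K := by
      have h1 := hH₀.2.2.2.2.1
      rw [hK0] at h1
      rw [← h1]
      exact Nat.pow_log_le_self 3 Nat.card_pos.ne'
    set Q : ℕ := Nat.card (T ⧸ K.subgroupOf T) with hQ
    have hQ1 : 1 ≤ Q := Nat.card_pos
    set β : ℝ := Real.exp (Real.log 3 * (((Δ.card : ℝ) - 1) / 2 - e)) with hβ
    have hβ0 : 0 < β := Real.exp_pos _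
    have hQβ : (Q : ℝ) ≤ β := by
      have h1 : (Q : ℝ) ^ 2 * ((3 : ℝ) ^ e) ^ 2 * 3 ≤ 3 ^ Δ.card := by
        have h2 : Q ^ 2 * (3 ^ e) ^ 2 * 3 ≤ 3 ^ Δ.card := by
          refine le_trans ?_ hTc
          rw [hq, mul_pow]
          exact Nat.mul_le_mul_right 3 (Nat.mul_le_mul_left _ (Nat.pow_le_pow_left hKc 2))
        exact_mod_cast h2
      have h3 : β ^ 2 * ((3 : ℝ) ^ e) ^ 2 * 3 = 3 ^ Δ.card := by
        have h4 : ∀ k : ℕ, (3 : ℝ) ^ k = Real.exp (Real.log 3 * k) := by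
          intro k
          rw [mul_comm, Real.exp_nat_mul, Real.exp_log (by norm_num)]
        have h5 : (3 : ℝ) = Real.exp (Real.log 3) := (Real.exp_log (by norm_num)).symm
        have h6 : β ^ 2 * ((3 : ℝ) ^ e) ^ 2 * 3 = β ^ 2 * ((3 : ℝ) ^ e) ^ 2 * Real.exp (Real.log 3) := by
          rw [← h5]
        rw [h6, h4 e, h4 Δ.card, hβ, ← Real.exp_nat_mul, ← Real.exp_nat_mul, ← Real.exp_add, ← Real.exp_add]
        congr 1
        push_cast
        ring
      rw [← h3] at h1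
      have h4 : (0 : ℝ) < ((3 : ℝ) ^ e) ^ 2 * 3 := by positivity
      have h5 : (Q : ℝ) ^ 2 ≤ β ^ 2 := by
        refine le_of_mul_le_mul_right ?_ h4
        calc (Q : ℝ) ^ 2 * (((3 : ℝ) ^ e) ^ 2 * 3) = (Q : ℝ) ^ 2 * ((3 : ℝ) ^ e) ^ 2 * 3 := by ring
          _ ≤ β ^ 2 * ((3 : ℝ) ^ e) ^ 2 * 3 := h1
          _ = _ := by ring
      exact le_of_sq_le_sq h5 hβ0.le
    have hβ1 : 1 ≤ β := le_trans (by exact_mod_cast hQ1) hQβ
    calc (Nat.card {x // f x = (⟨T, hT⟩, ⟨K, hK⟩)} : ℝ) ≤ (Q : ℝ) ^ S.card := by exact_mod_cast hcard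
      _ ≤ β ^ S.card := pow_le_pow_left₀ (by positivity) hQβ _
      _ ≤ β ^ d := pow_le_pow_right₀ hβ1 hSd
      _ = B := by
        rw [hβ, hB, ← Real.exp_nat_mul]
        congr 1
        ring
  have h1 := stc_fib f B main
  have h2 : (Nat.card (A × A) : ℝ) ≤ (nSub Δ.card : ℝ) ^ 2 := by
    have h3 : Nat.card A ≤ nSub Δ.card := stc_sub Δ
    rw [Nat.card_prod, Nat.cast_mul, sq]
    exact mul_le_mul (by exact_mod_cast h3) (by exact_mod_cast h3) (by positivity) (by positivity)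
  exact h1.trans (mul_le_mul_of_nonneg_right h2 hB0.le)

end Pool.Agent.NilS
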