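import Pool.Agent.NilS.OrdR

/-!
MP_7fa120_al, nilpotent subgroups. Every nilpotent group of odd order has a tower.

Proof. Let `Δ 0, …, Δ (r - 1)` be the orbits of `H` with more than one point, in order of decreasing size, and `Δ i = ∅` for
`i ≥ r`. They are disjoint, have at least 3 points (the size of an orbit divides the odd order), at most `θ` points, and
there are at most `n` of them. For `i < r` let `e i = Nat.log 3 (Nat.card (fx (res H (un Δ (i + 1))) (un Δ i)))`, and `e i = 0`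
for `i ≥ r`. The elements of `fx (res H (un Δ (i + 1))) (un Δ i)` move only points of `Δ i` and this group is contained in
`res H (Δ i)`, so by `ord_res` its order is at most `3 ^ (Δ i).card` and `e i ≤ (Δ i).card ≤ n`. For `k ≤ r` one has
`Tow Δ e k (res H (un Δ k))`, by induction on `k` (`un Δ 0 = ∅` and `res H ∅ = ⊥`; `res_res`, `orb_res`, `inv_res` for the step).
Finally `res H (un Δ r) = H` (`res_self`), as `H` fixes the points outside its nontrivial orbits.
-/

set_option autoImplicit false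

namespace Pool.Agent.NilS

open Equiv

private theorem orb_sub {n : ℕ} {H : Subgroup (Perm (Fin n))} {D E : Finset (Fin n)} (hD : Orb H D) (hE : Orb H E)
    {x : Fin n} (hx : x ∈ D) (hx' : x ∈ E) : D ⊆ E := by
  intro y hy
  obtain ⟨h, hh, rfl⟩ := hD.2.2 x hx y hy
  exact hE.1 h hh x hx'

private theorem orb_eq {n : ℕ} {H : Subgroup (Perm (Fin n))} {D E : Finset (Fin n)} (hD : Orb H D) (hE : Orb H E)
    {x : Fin n} (hx : x ∈ D) (hx' : x ∈ E) : D = E :=
  Finset.Subset.antisymm (orb_sub hD hE hx hx') (orb_sub hE hD hx' hx)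

private theorem orb_odd {n : ℕ} {H : Subgroup (Perm (Fin n))} (ho : Odn H) {D : Finset (Fin n)} (hD : Orb H D) :
    Odd D.card := by
  obtain ⟨x, hx⟩ := hD.2.1
  have h1 : MulAction.orbit H x = (D : Set (Fin n)) := by
    ext y
    constructor
    · rintro ⟨h, rfl⟩
      exact hD.1 h h.2 x hx
    · intro hy
      obtain ⟨h, hh, hxy⟩ := hD.2.2 x hx y hy
      exact ⟨⟨h, hh⟩, hxy⟩
  have h2 := MulAction.index_stabilizer (G := H) x
  rw [h1, Set.ncard_coe_finset] at h2
  have h3 : (MulAction.stabilizer H x).index ∣ Nat.card H := Subgroup.index_dvd_card _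
  rw [h2] at h3
  obtain ⟨m, hm⟩ := h3
  have h4 := ho.2
  rw [hm] at h4
  exact (Nat.odd_mul.1 h4).1

theorem exists_tow {n θ : ℕ} (H : Subgroup (Perm (Fin n))) (ho : Odn H) (hs : Small H θ) :
    ∃ (Δ : ℕ → Finset (Fin n)) (e : ℕ → ℕ) (r : ℕ), Valid θ Δ e r ∧ Tow Δ e r H := by
  classical
  set O : Finset (Finset (Fin n)) := Finset.univ.filter fun D => Orb H D ∧ 2 ≤ D.card with hO
  have hOm : ∀ D, D ∈ O ↔ Orb H D ∧ 2 ≤ D.card := fun D => by rw [hO, Finset.mem_filter]; simp
  set r : ℕ := O.card with hr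
  let em : Fin r ≃ {x // x ∈ O} := O.equivFin.symm
  let σ : Perm (Fin r) := Tuple.sort fun i => OrderDual.toDual (em i).1.card
  have hσ : Monotone ((fun i => OrderDual.toDual (em i).1.card) ∘ σ) := Tuple.monotone_sort _
  let Δ : ℕ → Finset (Fin n) := fun i => if h : i < r then (em (σ ⟨i, h⟩)).1 else ∅
  have hΔ : ∀ i (h : i < r), Δ i = (em (σ ⟨i, h⟩)).1 := fun i h => dif_pos h
  have hΔ0 : ∀ i, r ≤ i → Δ i = ∅ := fun i h => dif_neg (not_lt.2 h)
  have hΔO : ∀ i, i < r → Δ i ∈ O := fun i h => by rw [hΔ i h]; exact (em _).2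
  have hΔorb : ∀ i, i < r → Orb H (Δ i) := fun i h => ((hOm _).1 (hΔO i h)).1
  have hΔ3 : ∀ i, i < r → 3 ≤ (Δ i).card := by
    intro i h
    have h1 := ((hOm _).1 (hΔO i h)).2
    obtain ⟨m, hm⟩ := orb_odd ho (hΔorb i h)
    omega
  have hΔinj : ∀ i j, i < r → j < r → Δ i = Δ j → i = j := by
    intro i j hi hj hij
    rw [hΔ i hi, hΔ j hj] at hij
    have h1 := σ.injective (em.injective (Subtype.ext hij))
    exact Fin.mk.inj_iff.1 h1
  have hdis : ∀ i j, i < r → j < r → i ≠ j → Disjoint (Δ i) (Δ j) := by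
    intro i j hi hj hij
    rw [Finset.disjoint_left]
    intro x hx hx'
    exact hij (hΔinj i j hi hj (orb_eq (hΔorb i hi) (hΔorb j hj) hx hx'))
  have hsurj : ∀ D ∈ O, ∃ i, i < r ∧ Δ i = D := by
    intro D hD
    refine ⟨(σ.symm (em.symm ⟨D, hD⟩)).1, (σ.symm (em.symm ⟨D, hD⟩)).2, ?_⟩
    rw [hΔ _ (σ.symm (em.symm ⟨D, hD⟩)).2]
    simp
  have hrn : r ≤ n := by
    have h1 : ∀ i : Fin r, ∃ x, x ∈ Δ i := fun i => (hΔorb i i.2).2.1
    choose f hf using h1
    have h2 : Function.Injective f := by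
      intro i j hij
      by_contra hne
      have h3 := hdis i j i.2 j.2 fun h => hne (Fin.ext h)
      exact Finset.disjoint_left.1 h3 (hf i) (hij ▸ hf j)
    simpa using Fintype.card_le_of_injective f h2
  let e : ℕ → ℕ := fun i => if i < r then Nat.log 3 (Nat.card (fx (res H (un Δ (i + 1))) (un Δ i))) else 0
  have hmemun : ∀ k x, x ∈ un Δ k ↔ ∃ i < k, x ∈ Δ i := by
    intro k x
    unfold un
    simp
  have hun : ∀ k, un Δ k ⊆ un Δ (k + 1) := by
    intro k x hx
    rw [hmemun] at hx ⊢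
    obtain ⟨i, hi, hx⟩ := hx
    exact ⟨i, by omega, hx⟩
  have hΔun : ∀ k, Δ k ⊆ un Δ (k + 1) := fun k x hx => (hmemun _ _).2 ⟨k, by omega, hx⟩
  have hinv : ∀ k, k ≤ r → Inv H (un Δ k) := by
    intro k hk h hh x hx
    rw [hmemun] at hx ⊢
    obtain ⟨i, hi, hx⟩ := hx
    exact ⟨i, hi, (hΔorb i (by omega)).1 h hh x hx⟩
  have he : ∀ i, i < r → e i ≤ n := by
    intro i hi
    have h0 : e i = Nat.log 3 (Nat.card (fx (res H (un Δ (i + 1))) (un Δ i))) := if_pos hi
    have h1 : fx (res H (un Δ (i + 1))) (un Δ i) ≤ res H (Δ i) := by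
      intro τ hτ
      rw [mem_fx, mem_res] at hτ
      obtain ⟨⟨h2, h, hh, h3⟩, h4⟩ := hτ
      rw [mem_res]
      refine ⟨fun x hx => ?_, h, hh, fun x hx => h3 x (hΔun i hx)⟩
      by_cases hx2 : x ∈ un Δ (i + 1)
      · rw [hmemun] at hx2
        obtain ⟨j, hj, hxj⟩ := hx2
        refine h4 x ((hmemun _ _).2 ⟨j, ?_, hxj⟩)
        have : j ≠ i := fun h => hx (h ▸ hxj)
        omega
      · exact h2 x hx2
    have h2 := ord_res H ho (Δ i) (hΔorb i hi)
    have h3 : Nat.card (fx (res H (un Δ (i + 1))) (un Δ i)) ≤ Nat.card (res H (Δ i)) :=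
      Subgroup.card_le_of_le h1
    have h4 : Nat.card (res H (Δ i)) ≤ 3 ^ (Δ i).card := by
      have h5 : 0 < Nat.card (res H (Δ i)) := Nat.card_pos
      nlinarith
    rw [h0]
    calc Nat.log 3 (Nat.card (fx (res H (un Δ (i + 1))) (un Δ i))) ≤ Nat.log 3 (3 ^ (Δ i).card) :=
          Nat.log_mono_right (h3.trans h4)
      _ = (Δ i).card := Nat.log_pow (by norm_num) _
      _ ≤ n := by simpa using Finset.card_le_univ (Δ i)
  refine ⟨Δ, e, r, ⟨hrn, fun i hi => ⟨hΔ3 i hi, hs _ (hΔorb i hi), he i hi⟩, ?_, hdis, ?_⟩, ?_⟩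
  · intro i hi
    have h1 : (⟨i, by omega⟩ : Fin r) ≤ ⟨i + 1, hi⟩ := Fin.mk_le_mk.2 (by omega)
    have h2 := hσ h1
    rw [hΔ i (by omega), hΔ (i + 1) hi]
    exact h2
  · intro i hi
    exact ⟨hΔ0 i hi, if_neg (not_lt.2 hi)⟩
  · have key : ∀ k, k ≤ r → Tow Δ e k (res H (un Δ k)) := by
      intro k
      induction k with
      | zero =>
        intro _
        show res H (un Δ 0) = ⊥
        rw [eq_bot_iff]
        intro τ hτ
        rw [mem_res] at hτ
        rw [Subgroup.mem_bot]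
        apply Equiv.ext
        intro x
        exact hτ.1 x (by rw [hmemun]; rintro ⟨i, hi, _⟩; omega)
      | succ k ih =>
        intro hk
        have hU := hinv (k + 1) hk
        have hV := hinv k (by omega)
        refine ⟨orb_res hU (hΔorb k (by omega)) (hΔun k), hΔ3 k (by omega), ?_, inv_res hV (hun k), ?_, ?_, ?_⟩
        · rw [Finset.disjoint_left]
          intro x hx hx'
          rw [hmemun] at hx'
          obtain ⟨i, hi, hxi⟩ := hx'
          exact Finset.disjoint_left.1 (hdis k i (by omega) (by omega) (by omega)) hx hxi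
        · intro h hh x hx
          exact (mem_res.1 hh).1 x hx
        · show _ = e k
          exact (if_pos (show k < r by omega)).symm
        · show Tow Δ e k (res (res H (un Δ (k + 1))) (un Δ k))
          rw [res_res hU hV (hun k)]
          exact ih (by omega)
    have hself : res H (un Δ r) = H := by
      refine res_self fun h hh x hx => ?_
      by_contra hne
      set D : Finset (Fin n) := Finset.univ.filter fun y => ∃ g ∈ H, g x = y with hD
      have hDm : ∀ y, y ∈ D ↔ ∃ g ∈ H, g x = y := fun y => by rw [hD, Finset.mem_filter]; simp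
      have hxD : x ∈ D := (hDm x).2 ⟨1, H.one_mem, rfl⟩
      have hhxD : h x ∈ D := (hDm _).2 ⟨h, hh, rfl⟩
      have hDO : D ∈ O := by
        rw [hOm]
        refine ⟨⟨?_, ⟨x, hxD⟩, ?_⟩, ?_⟩
        · intro g hg y hy
          rw [hDm] at hy ⊢
          obtain ⟨k, hk, rfl⟩ := hy
          exact ⟨g * k, H.mul_mem hg hk, rfl⟩
        · intro y hy z hz
          rw [hDm] at hy hz
          obtain ⟨k, hk, rfl⟩ := hy
          obtain ⟨l, hl, rfl⟩ := hz
          refine ⟨l * k⁻¹, H.mul_mem hl (H.inv_mem hk), ?_⟩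
          have hkx : k⁻¹ (k x) = x := by rw [← Perm.mul_apply, inv_mul_cancel, Perm.one_apply]
          rw [Perm.mul_apply, hkx]
        · have : 1 < D.card := Finset.one_lt_card.2 ⟨h x, hhxD, x, hxD, hne⟩
          omega
      obtain ⟨i, hi, hiD⟩ := hsurj D hDO
      exact hx ((hmemun _ _).2 ⟨i, hi, hiD ▸ hxD⟩)
    have h1 := key r le_rfl
    rwa [hself] at h1

end Pool.Agent.NilS
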